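import Pool.Agent.H76.GT.Idx

/-!
# H76 GU, FamP: pull back of families and covers from finitely many families
-/

set_option autoImplicit false

namespace Pool.Agent.H76.GT

open Pool.Agent.H98.FJ

theorem IsFam.comap {C : (G : Type) → [Group G] → Prop} {G X X' : Type} [Group G] [TopologicalSpace X] [MulAction G X]
    [TopologicalSpace X'] [MulAction G X'] {f : X' → X} (hf : Continuous f) (hf' : ∀ (g : G) (x : X'), f (g • x) = g • f x)
    {N : ℕ} {I : Type} [MulAction G I] {W : I → G → Set X} (h : IsFam C N W) :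
    IsFam C N (fun i g => f ⁻¹' W i g) where
  isOpen i g := (h.isOpen i g).preimage hf
  equiv i g k x hx := by
    rw [Set.mem_preimage, hf']
    exact h.equiv i g k (f x) hx
  eq i g k x hx hx' := h.eq i g k (f x) hx hx'
  stab i k x hx := h.stab i k (f x) hx
  mult k x := h.mult k (f x)

/-- a family with its index set -/
structure Fam (G X : Type) [Group G] where
  /-- the index set -/
  I : Type
  act : MulAction G I
  /-- the sets -/
  W : I → G → Set X
  /-- the multiplicity -/
  N : ℕ

/-- Proof. `exists_cover` for `Fintype.equivFin τ`. -/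
theorem exists_cover_fam {C : (G : Type) → [Group G] → Prop} (hC : Inherits C) {G X : Type} [Group G] [TopologicalSpace X]
    [MulAction G X] {τ : Type} [Fintype τ] (Φ : τ → Fam G X)
    (h : ∀ t, @IsFam C G X _ _ _ (Φ t).N (Φ t).I (Φ t).act (Φ t).W) {M : ℕ} (hM : ∑ t, (Φ t).N ≤ M + 1) (S : Set G)
    (hw : ∀ (g : G) (x : X), ∃ t i, ∀ s ∈ S, x ∈ (Φ t).W i (g * s)) (hS : S.Nonempty) :
    ∃ U : Set (Set (G × X)), IsCover C M S U := by
  classical
  have e := Fintype.equivFin τ
  letI : ∀ t : Fin (Fintype.card τ), MulAction G (Φ (e.symm t)).I := fun t => (Φ (e.symm t)).act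
  refine exists_cover hC (fun t => (Φ (e.symm t)).I) (fun t => (Φ (e.symm t)).W) (fun t => (Φ (e.symm t)).N)
    (fun t => h (e.symm t)) ?_ S ?_ hS
  · rw [Equiv.sum_comp e.symm (fun t => (Φ t).N)]
    exact hM
  · intro g x
    obtain ⟨t, i, hi⟩ := hw g x
    obtain ⟨t', rfl⟩ := e.symm.surjective t
    exact ⟨t', i, hi⟩

end Pool.Agent.H76.GT
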