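import Pool.Agent.H76.GT.DefsT

/-!
# H76 GU, Poly: products and images of polyhedra
-/

set_option autoImplicit false

namespace Pool.Agent.H76.GT

/-- Proof. `F` = the sets `Set.univ.pi f` with `f k` in the finite set of `K k`; `convexHull_pi`; the vector span of a product
is contained in the product of the vector spans, whose dimension is the sum (all spans are finite dimensional). -/
theorem isPolyhedron_pi {n : ℕ} {E : Fin n → Type} [∀ k, AddCommGroup (E k)] [∀ k, Module ℝ (E k)] {N : Fin n → ℕ}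
    {K : ∀ k, Set (E k)} (h : ∀ k, IsPolyhedron (N k) (K k)) : IsPolyhedron (∑ k, N k) {x : ∀ k, E k | ∀ k, x k ∈ K k} := by
  choose Fk hfin hK hf using h
  refine ⟨(fun f : ∀ k, Set (E k) => Set.univ.pi f) '' (Set.univ.pi Fk), ?_, ?_, ?_⟩
  · exact (Set.Finite.pi fun k => hfin k).image _
  · ext x
    simp only [Set.mem_ofPred_eq, Set.mem_iUnion, Set.mem_image, exists_prop]
    constructor
    · intro hx
      have h1 : ∀ k, ∃ f ∈ Fk k, x k ∈ convexHull ℝ f := by
        intro k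
        have h2 := hx k
        rw [hK k] at h2
        simpa only [Set.mem_iUnion, exists_prop] using h2
      choose f hf1 hf2 using h1
      refine ⟨Set.univ.pi f, ⟨f, fun k _ => hf1 k, rfl⟩, ?_⟩
      rw [convexHull_pi]
      exact fun k _ => hf2 k
    · rintro ⟨_, ⟨f, hf1, rfl⟩, hx⟩ k
      rw [convexHull_pi] at hx
      rw [hK k]
      simp only [Set.mem_iUnion, exists_prop]
      exact ⟨f k, hf1 k (Set.mem_univ k), hx k (Set.mem_univ k)⟩
  · rintro _ ⟨f, hf1, rfl⟩
    have hff : ∀ k, (f k).Finite := fun k => (hf k (f k) (hf1 k (Set.mem_univ k))).1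
    refine ⟨Set.Finite.pi fun k => hff k, ?_⟩
    have hfd : ∀ k, FiniteDimensional ℝ (vectorSpan ℝ (f k)) := fun k => finiteDimensional_vectorSpan_of_finite ℝ (hff k)
    let L : (∀ k, vectorSpan ℝ (f k)) →ₗ[ℝ] (∀ k, E k) :=
      LinearMap.pi fun k => (vectorSpan ℝ (f k)).subtype ∘ₗ LinearMap.proj k
    have h1 : vectorSpan ℝ (Set.univ.pi f) ≤ LinearMap.range L := by
      rw [vectorSpan_def, Submodule.span_le]
      rintro _ ⟨a, ha, c, hc, rfl⟩
      exact ⟨fun k => ⟨a k -ᵥ c k, vsub_mem_vectorSpan ℝ (ha k (Set.mem_univ k)) (hc k (Set.mem_univ k))⟩, rfl⟩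
    calc Module.finrank ℝ (vectorSpan ℝ (Set.univ.pi f)) ≤ Module.finrank ℝ (LinearMap.range L) := Submodule.finrank_mono h1
      _ ≤ Module.finrank ℝ (∀ k, vectorSpan ℝ (f k)) := LinearMap.finrank_range_le L
      _ = ∑ k, Module.finrank ℝ (vectorSpan ℝ (f k)) := Module.finrank_pi_fintype ℝ
      _ ≤ ∑ k, N k := Finset.sum_le_sum fun k _ => (hf k (f k) (hf1 k (Set.mem_univ k))).2

/-- Proof. `LinearMap.image_convexHull`, `vectorSpan` of the image. -/
theorem isPolyhedron_image {E E' : Type} [AddCommGroup E] [Module ℝ E] [AddCommGroup E'] [Module ℝ E'] {N : ℕ} {K : Set E}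
    (h : IsPolyhedron N K) (e : E →ₗ[ℝ] E') : IsPolyhedron N (e '' K) := by
  obtain ⟨Fs, h1, h2, h3⟩ := h
  refine ⟨(fun f : Set E => e '' f) '' Fs, h1.image _, ?_, ?_⟩
  · rw [h2, Set.image_iUnion₂, Set.biUnion_image]
    exact Set.iUnion₂_congr fun f _ => e.image_convexHull f
  · rintro _ ⟨f, hf, rfl⟩
    refine ⟨(h3 f hf).1.image _, ?_⟩
    have hfd : FiniteDimensional ℝ (vectorSpan ℝ f) := finiteDimensional_vectorSpan_of_finite ℝ (h3 f hf).1
    have h4 : vectorSpan ℝ (e '' f) = (vectorSpan ℝ f).map e := by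
      have h5 := e.toAffineMap.map_vectorSpan (s := f)
      exact h5.symm
    show Module.finrank ℝ (vectorSpan ℝ (e '' f)) ≤ N
    rw [h4]
    exact (Submodule.finrank_map_le e _).trans (h3 f hf).2

theorem IsPolyhedron.mono {E : Type} [AddCommGroup E] [Module ℝ E] {N N' : ℕ} (h : N ≤ N') {K : Set E}
    (hK : IsPolyhedron N K) : IsPolyhedron N' K := by
  obtain ⟨F, h1, h2, h3⟩ := hK
  exact ⟨F, h1, h2, fun f hf => ⟨(h3 f hf).1, (h3 f hf).2.trans h⟩⟩

end Pool.Agent.H76.GT
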