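import Pool.Agent.H76.GT.DefsT
import Pool.Agent.H76.GU.Poly
import Mathlib.Topology.Metrizable.Urysohn

/-!
# H76 GU, TrT: the transfer criterion for compact metrizable spaces
-/

set_option autoImplicit false

namespace Pool.Agent.H76.GT

open Pool.Agent.H98.FJ

/-- topological form of `Dominated` -/
def TopDom (N : ℕ) (X : Type) [TopologicalSpace X] : Prop :=
  ∀ W : Set (X × X), IsOpen W → (∀ x, (x, x) ∈ W) → ∃ (m : ℕ) (K : Set (Fin m → ℝ)), IsPolyhedron N K ∧
    ∃ (p : C(X, K)) (i : C(K, X)) (H : C(unitInterval × X, X)),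
      (∀ x, H (0, x) = i (p x)) ∧ (∀ x, H (1, x) = x) ∧ ∀ t x, (H (t, x), x) ∈ W

/-- Proof. `letI := TopologicalSpace.metrizableSpaceMetric X` (its topology is definitionally the given one); `W` = pairs at
distance `< ε`; `IsPolyhedron.mono`. -/
theorem transfer_top {C : (G : Type) → [Group G] → Prop} (hT : Transfer C) {G X : Type} [Group G] [TopologicalSpace X]
    [CompactSpace X] [T2Space X] [SecondCountableTopology X] [ContractibleSpace X] [MulAction G X] [ContinuousConstSMul G X]
    {n N : ℕ} (hn : n ≤ N) (hfg : Group.FG G) (hdom : TopDom n X)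
    (hcov : ∀ S : Set G, S.Finite → ∃ U : Set (Set (G × X)), IsCover C N S U) : C G := by
  letI : MetricSpace X := TopologicalSpace.metrizableSpaceMetric X
  refine hT G X N hfg ?_ hcov
  intro ε hε
  have hW : IsOpen {q : X × X | dist q.1 q.2 < ε} :=
    isOpen_lt (continuous_dist) continuous_const
  obtain ⟨m, K, hK, p, i, H, h0, h1, h2⟩ := hdom {q : X × X | dist q.1 q.2 < ε} hW
    (fun x => by
      show dist x x < ε
      rw [dist_self]
      exact hε)
  exact ⟨m, K, hK.mono hn, p, i, H, h0, h1, fun t x => le_of_lt (h2 t x)⟩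

end Pool.Agent.H76.GT
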