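import Pool.Agent.H76.GU.Cut
import Mathlib.Topology.Homotopy.Contractible

/-!
# H76 GU, Ctr: the compactified tree is contractible
-/

set_option autoImplicit false

namespace Pool.Agent.H76.GT

open Classical in
private theorem isPos_bp {V : Type} {T : SimpleGraph V} (hT : T.IsTree) (o : V) :
    IsPos T fun u v => if Up T o v u then (1 : ℝ) else 0 where
  nonneg u v := by
    split_ifs <;> norm_num
  off u v h := if_neg fun hu => h hu.adj.symm
  add u v h := by
    rcases up_or hT o h with h1 | h1
    · rw [if_pos h1, if_neg h1.asymm]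
      norm_num
    · rw [if_pos h1, if_neg h1.asymm]
      norm_num
  mul u v w h1 h2 hn := by
    by_cases h3 : Up T o w v
    · rcases up_or hT o h1 with h4 | h4
      · exact absurd (up_unique hT h4 h3) hn
      · rw [if_pos h4]
        norm_num
    · rw [if_neg h3, zero_mul]

/-- Proof. The homotopies `hom` with `Y = ∅` in all coordinates: at time `0` the value is `extf` of the empty function, which
does not depend on `ψ` (`hom_zero`); at time `1` it is the identity. -/
theorem contractible {n : ℕ} {V : Fin n → Type} {T : ∀ k, SimpleGraph (V k)} (hT : ∀ k, (T k).IsTree) (o : ∀ k, V k) :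
    ContractibleSpace (∀ k, Th (T k)) := by
  rw [contractible_iff_id_nullhomotopic]
  have hY : ∀ k, ∀ u v, Up (T k) (o k) u v → v ∈ (∅ : Set (V k)) → u ∈ (∅ : Set (V k)) := fun k u v _ h => h.elim
  let p : ∀ k, Th (T k) := fun k => ⟨_, isPos_bp (hT k) (o k)⟩
  have h0 : ∀ k (ψ : Th (T k)), hom (hT k) (o k) (hY k) 0 ψ = p k := by
    intro k ψ
    apply Th.ext
    intro u v
    rw [hom_zero]
    unfold extf
    rw [dif_neg (fun h => h.1.elim)]
  let F : C(unitInterval × (∀ k, Th (T k)), ∀ k, Th (T k)) :=
    ⟨fun q k => hom (hT k) (o k) (hY k) (q.1 : ℝ) (q.2 k), by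
      refine continuous_pi fun k => ?_
      exact (hom_continuous (hT k) (o k) (hY k)).comp
        ((continuous_subtype_val.comp continuous_fst).prodMk ((continuous_apply k).comp continuous_snd))⟩
  refine ⟨p, ?_⟩
  refine ContinuousMap.Homotopic.symm ⟨⟨F, ?_, ?_⟩⟩
  · intro x
    funext k
    exact h0 k (x k)
  · intro x
    funext k
    exact hom_one (hT k) (o k) (hY k) (x k)

end Pool.Agent.H76.GT
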