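import Pool.Agent.H76.GT.Th

/-!
# H76 GU, Agr: points which agree on a large finite set are close
-/

set_option autoImplicit false

namespace Pool.Agent.H76.GT

/-- Proof. The sets `{(x, y) | x k u v = y k u v}` are closed, their intersection over all `k`, `u`, `v` is the diagonal, so
it does not meet the compact complement of `W`; by compactness finitely many triples are enough
(`IsCompact.elim_finite_subfamily_closed`). `F k` is the set of the vertices in these triples. -/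
theorem exists_agree {n : ℕ} {V : Fin n → Type} {T : ∀ k, SimpleGraph (V k)}
    {W : Set ((∀ k, Th (T k)) × (∀ k, Th (T k)))} (hW : IsOpen W) (h : ∀ x, (x, x) ∈ W) :
    ∃ F : ∀ k, Set (V k), (∀ k, (F k).Finite) ∧
      ∀ x y : ∀ k, Th (T k), (∀ k, ∀ u ∈ F k, ∀ v ∈ F k, x k u v = y k u v) → (x, y) ∈ W := by
  classical
  let Z : (Σ k : Fin n, V k × V k) → Set ((∀ k, Th (T k)) × (∀ k, Th (T k))) :=
    fun i => {p | p.1 i.1 i.2.1 i.2.2 = p.2 i.1 i.2.1 i.2.2}
  have hZ : ∀ i, IsClosed (Z i) := fun i =>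
    isClosed_eq ((Th.continuous_apply i.2.1 i.2.2).comp ((_root_.continuous_apply i.1).comp continuous_fst))
      ((Th.continuous_apply i.2.1 i.2.2).comp ((_root_.continuous_apply i.1).comp continuous_snd))
  have he : Wᶜ ∩ ⋂ i, Z i = ∅ := by
    ext p
    constructor
    · rintro ⟨h1, h2⟩
      apply h1
      have h3 : p.1 = p.2 := by
        funext k
        refine Th.ext fun u v => ?_
        exact Set.mem_iInter.1 h2 ⟨k, u, v⟩
      have h4 : p = (p.1, p.1) := Prod.ext rfl h3.symm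
      rw [h4]
      exact h p.1
    · exact fun hc => hc.elim
  obtain ⟨t, ht⟩ := hW.isClosed_compl.isCompact.elim_finite_subfamily_closed Z hZ he
  refine ⟨fun k => {w | ∃ i ∈ t, ∃ e : i.1 = k, e ▸ i.2.1 = w ∨ e ▸ i.2.2 = w}, fun k => ?_, fun x y hxy => ?_⟩
  · have hs : {w : V k | ∃ i ∈ t, ∃ e : i.1 = k, e ▸ i.2.1 = w ∨ e ▸ i.2.2 = w} ⊆
        ⋃ i ∈ t, {w : V k | ∃ e : i.1 = k, e ▸ i.2.1 = w ∨ e ▸ i.2.2 = w} := by
      rintro w ⟨i, hi, hw⟩
      exact Set.mem_iUnion₂.2 ⟨i, hi, hw⟩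
    refine (Set.Finite.biUnion t.finite_toSet fun i _ => ?_).subset hs
    by_cases e : i.1 = k
    · subst e
      refine (Set.toFinite {i.2.1, i.2.2}).subset ?_
      rintro w ⟨e, hw | hw⟩
      · exact Or.inl hw.symm
      · exact Or.inr hw.symm
    · refine Set.finite_empty.subset ?_
      rintro w ⟨e', -⟩
      exact (e e').elim
  · by_contra hn
    have hm : (x, y) ∈ Wᶜ ∩ ⋂ i ∈ t, Z i := by
      refine ⟨hn, Set.mem_iInter₂.2 fun i hi => ?_⟩
      exact hxy i.1 i.2.1 ⟨i, hi, rfl, Or.inl rfl⟩ i.2.2 ⟨i, hi, rfl, Or.inr rfl⟩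
    rw [ht] at hm
    exact hm

end Pool.Agent.H76.GT
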