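import Pool.Agent.H76.GT.Up

/-!
# H76 GU, Cut: the retraction of the compactified tree towards a subtree
-/

set_option autoImplicit false

namespace Pool.Agent.H76.GT

variable {V : Type} {T : SimpleGraph V}

/-- a profile: `c d` is the part which remains of the edges at distance `d` from the base point -/
structure Prof (c : ℕ → ℝ) : Prop where
  nonneg : ∀ d, 0 ≤ c d
  le_one : ∀ d, c d ≤ 1
  step : ∀ d, 0 < c (d + 1) → c d = 1

open Classical in
/-- the retraction: nothing changes on `Y`, the other edges are cut -/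
noncomputable def cutf (T : SimpleGraph V) (o : V) (Y : Set V) (c : ℕ → ℝ) (ψ : V → V → ℝ) (u v : V) : ℝ :=
  if u ∈ Y ∧ v ∈ Y then ψ u v
  else if Up T o u v then min (ψ u v) (c (T.dist o u))
  else if Up T o v u then 1 - min (ψ v u) (c (T.dist o v)) else 0

theorem cutf_of_mem {o : V} {Y : Set V} {c : ℕ → ℝ} {ψ : V → V → ℝ} {u v : V} (hu : u ∈ Y) (hv : v ∈ Y) :
    cutf T o Y c ψ u v = ψ u v := by
  unfold cutf
  rw [if_pos ⟨hu, hv⟩]

theorem cutf_of_up {o : V} {Y : Set V} {c : ℕ → ℝ} {ψ : V → V → ℝ} {u v : V} (hY : ¬ (u ∈ Y ∧ v ∈ Y)) (h : Up T o u v) :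
    cutf T o Y c ψ u v = min (ψ u v) (c (T.dist o u)) := by
  unfold cutf
  rw [if_neg hY, if_pos h]

theorem cutf_of_down {o : V} {Y : Set V} {c : ℕ → ℝ} {ψ : V → V → ℝ} {u v : V} (hY : ¬ (u ∈ Y ∧ v ∈ Y)) (h : Up T o v u) :
    cutf T o Y c ψ u v = 1 - min (ψ v u) (c (T.dist o v)) := by
  unfold cutf
  rw [if_neg hY, if_neg h.asymm, if_pos h]

/-- Proof. `mul` for `u, v, w`: four cases for the directions of `(u, v)`, `(v, w)` seen from `o`; (up, up): if the value at
`(v, w)` is positive then `ψ v w > 0`, so `ψ u v = 1` (`Th.eq_one`), and `c (dist v) > 0`, so `c (dist u) = 1`; (down, up) both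
`u` and `w` are farther than `v`: `ψ v w > 0`, so `ψ u v = 1`, `ψ v u = 0`; (up, down) is impossible (`up_unique`);
(down, down): if the value at `(u, v)` is not one then `ψ v u > 0`, so `ψ w v = 1`, and `c (dist w) = 1`. If an edge is in `Y`
then so are the edges which are nearer to `o` on the same path (`hY`). -/
theorem isPos_cutf (hT : T.IsTree) {o : V} {Y : Set V} (hY : ∀ u v, Up T o u v → v ∈ Y → u ∈ Y) {c : ℕ → ℝ} (hc : Prof c)
    (ψ : Th T) : IsPos T (cutf T o Y c ψ) := by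
  have hmin : ∀ (u v : V) (d : ℕ), 0 ≤ min (ψ u v) (c d) := fun u v d => le_min (ψ.nonneg u v) (hc.nonneg d)
  have hmin1 : ∀ (u v : V) (d : ℕ), min (ψ u v) (c d) ≤ 1 := fun u v d => (min_le_left _ _).trans (ψ.le_one u v)
  refine ⟨fun u v => ?_, fun u v h => ?_, fun u v h => ?_, fun u v w huv hvw hn => ?_⟩
  · unfold cutf
    split_ifs
    · exact ψ.nonneg u v
    · exact hmin u v _
    · linarith [hmin1 v u (T.dist o v)]
    · exact le_rfl
  · unfold cutf
    split_ifs with h1 h2 h3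
    · exact ψ.off h
    · exact absurd h2.adj h
    · exact absurd h3.adj.symm h
    · rfl
  · by_cases hm : u ∈ Y ∧ v ∈ Y
    · rw [cutf_of_mem hm.1 hm.2, cutf_of_mem hm.2 hm.1]
      exact ψ.add h
    · have hm' : ¬ (v ∈ Y ∧ u ∈ Y) := fun h' => hm h'.symm
      rcases up_or hT o h with h1 | h1
      · rw [cutf_of_up hm h1, cutf_of_down hm' h1]
        ring
      · rw [cutf_of_down hm h1, cutf_of_up hm' h1]
        ring
  · -- the value at `(v, w)` is positive only if `ψ v w` is positive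
    by_cases hm : v ∈ Y ∧ w ∈ Y
    · rw [cutf_of_mem hm.1 hm.2]
      by_cases hp : 0 < ψ v w
      · have h1 : ψ u v = 1 := ψ.eq_one huv hvw hn hp
        by_cases hu : u ∈ Y
        · rw [cutf_of_mem hu hm.1, h1]
          ring
        · have hm2 : ¬ (u ∈ Y ∧ v ∈ Y) := fun h' => hu h'.1
          rcases up_or hT o huv with h2 | h2
          · exact absurd (hY u v h2 hm.1) hu
          · have h3 : ψ v u = 0 := by linarith [ψ.add huv]
            rw [cutf_of_down hm2 h2, h3, min_eq_left (hc.nonneg _)]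
            ring
      · have h0 : ψ v w = 0 := le_antisymm (not_lt.1 hp) (ψ.nonneg v w)
        rw [h0, zero_mul]
    · rcases up_or hT o hvw with h2 | h2
      · -- `(v, w)` points away from `o`
        rw [cutf_of_up hm h2]
        by_cases hp : 0 < min (ψ v w) (c (T.dist o v))
        · obtain ⟨hp1, hp2⟩ := lt_min_iff.1 hp
          have h1 : ψ u v = 1 := ψ.eq_one huv hvw hn hp1
          have h3 : ψ v u = 0 := by linarith [ψ.add huv]
          have h4 : cutf T o Y c ψ u v = 1 := by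
            by_cases hm2 : u ∈ Y ∧ v ∈ Y
            · rw [cutf_of_mem hm2.1 hm2.2, h1]
            · rcases up_or hT o huv with h5 | h5
              · rw [h5.dist] at hp2
                rw [cutf_of_up hm2 h5, h1, hc.step _ hp2, min_self]
              · rw [cutf_of_down hm2 h5, h3, min_eq_left (hc.nonneg _), sub_zero]
          rw [h4]
          ring
        · have h0 : min (ψ v w) (c (T.dist o v)) = 0 := le_antisymm (not_lt.1 hp) (hmin v w _)
          rw [h0, zero_mul]
      · -- `(v, w)` points to `o`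
        rw [cutf_of_down hm h2]
        by_cases hm2 : u ∈ Y ∧ v ∈ Y
        · exact absurd ⟨hm2.2, hY w v h2 hm2.2⟩ hm
        · rcases up_or hT o huv with h5 | h5
          · exact absurd (up_unique hT h5 h2) hn
          · rw [cutf_of_down hm2 h5]
            by_cases hp : 0 < min (ψ v u) (c (T.dist o v))
            · obtain ⟨hp1, hp2⟩ := lt_min_iff.1 hp
              have h6 : ψ w v = 1 := ψ.eq_one hvw.symm huv.symm (fun h' => hn h'.symm) hp1
              rw [h2.dist] at hp2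
              rw [h6, hc.step _ hp2, min_self]
              ring
            · have h0 : min (ψ v u) (c (T.dist o v)) = 0 := le_antisymm (not_lt.1 hp) (hmin v u _)
              rw [h0]
              ring

/-- the profile at time `t` -/
noncomputable def pf (t : ℝ) (d : ℕ) : ℝ := max 0 (min 1 ((t - 1 + (1 / 2) ^ d) * 2 ^ (d + 1)))

/-- Proof. If `pf t (d + 1) > 0` then `t - 1 + (1 / 2) ^ (d + 1) > 0`, so
`(t - 1 + (1 / 2) ^ d) * 2 ^ (d + 1) > ((1 / 2) ^ d - (1 / 2) ^ (d + 1)) * 2 ^ (d + 1) = 1`. -/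
theorem prof_pf (t : ℝ) : Prof (pf t) := by
  refine ⟨fun d => le_max_left _ _, fun d => max_le zero_le_one (min_le_left _ _), fun d h => ?_⟩
  have h1 : 0 < min 1 ((t - 1 + (1 / 2) ^ (d + 1)) * 2 ^ (d + 1 + 1)) := by
    by_contra hn
    unfold pf at h
    rw [max_eq_left (not_lt.1 hn)] at h
    exact lt_irrefl _ h
  have h2 : 0 < (t - 1 + (1 / 2) ^ (d + 1)) * 2 ^ (d + 1 + 1) := lt_of_lt_of_le h1 (min_le_right _ _)
  have h3 : (0 : ℝ) < 2 ^ (d + 1) := by positivity
  have h4 : (1 / 2 : ℝ) ^ (d + 1) * 2 ^ (d + 1) = 1 := by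
    rw [← mul_pow]
    norm_num
  have h5 : (1 / 2 : ℝ) ^ d * 2 ^ (d + 1) = 2 := by
    have : (1 / 2 : ℝ) ^ d * 2 ^ d = 1 := by
      rw [← mul_pow]
      norm_num
    rw [pow_succ, ← mul_assoc, this, one_mul]
  have h6 : (1 : ℝ) ≤ (t - 1 + (1 / 2) ^ d) * 2 ^ (d + 1) := by
    have h7 : 0 < (t - 1 + (1 / 2) ^ (d + 1)) * 2 ^ (d + 1) := by
      have e : (t - 1 + (1 / 2) ^ (d + 1)) * 2 ^ (d + 1 + 1) = 2 * ((t - 1 + (1 / 2) ^ (d + 1)) * 2 ^ (d + 1)) := by
        rw [pow_succ (2 : ℝ) (d + 1)]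
        ring
      rw [e] at h2
      linarith
    have e1 : (t - 1 + (1 / 2) ^ (d + 1)) * 2 ^ (d + 1) = (t - 1) * 2 ^ (d + 1) + 1 := by
      rw [add_mul, h4]
    have e2 : (t - 1 + (1 / 2) ^ d) * 2 ^ (d + 1) = (t - 1) * 2 ^ (d + 1) + 2 := by
      rw [add_mul, h5]
    rw [e1] at h7
    rw [e2]
    linarith
  unfold pf
  rw [min_eq_left h6, max_eq_right zero_le_one]

theorem pf_zero (d : ℕ) : pf 0 d = 0 := by
  have h1 : (1 / 2 : ℝ) ^ d ≤ 1 := pow_le_one₀ (by norm_num) (by norm_num)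
  have h2 : ((0 : ℝ) - 1 + (1 / 2) ^ d) * 2 ^ (d + 1) ≤ 0 :=
    mul_nonpos_of_nonpos_of_nonneg (by linarith) (by positivity)
  unfold pf
  rw [max_eq_left ((min_le_right _ _).trans h2)]

theorem pf_one (d : ℕ) : pf 1 d = 1 := by
  have h1 : (1 / 2 : ℝ) ^ d * 2 ^ d = 1 := by
    rw [← mul_pow]
    norm_num
  have h2 : (1 : ℝ) ≤ ((1 : ℝ) - 1 + (1 / 2) ^ d) * 2 ^ (d + 1) := by
    rw [sub_self, zero_add, pow_succ, ← mul_assoc, h1]
    norm_num
  unfold pf
  rw [min_eq_left h2, max_eq_right zero_le_one]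

theorem pf_continuous (d : ℕ) : Continuous fun t : ℝ => pf t d := by
  unfold pf
  fun_prop

/-- the homotopy -/
noncomputable def hom (hT : T.IsTree) (o : V) {Y : Set V} (hY : ∀ u v, Up T o u v → v ∈ Y → u ∈ Y) (t : ℝ) (ψ : Th T) :
    Th T := ⟨cutf T o Y (pf t) ψ, isPos_cutf hT hY (prof_pf t) ψ⟩

/-- Proof. `Th.continuous_of`; for fixed `u`, `v` the value is a continuous function of `t`, `ψ u v`, `ψ v u`. -/
theorem hom_continuous (hT : T.IsTree) (o : V) {Y : Set V} (hY : ∀ u v, Up T o u v → v ∈ Y → u ∈ Y) :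
    Continuous fun q : ℝ × Th T => hom hT o hY q.1 q.2 := by
  have hc : ∀ u v : V, Continuous fun q : ℝ × Th T => q.2 u v := fun u v =>
    (Th.continuous_apply u v).comp continuous_snd
  have hp : ∀ d : ℕ, Continuous fun q : ℝ × Th T => pf q.1 d := fun d => (pf_continuous d).comp continuous_fst
  refine Th.continuous_of fun u v => ?_
  show Continuous fun q : ℝ × Th T => cutf T o Y (pf q.1) q.2 u v
  by_cases hm : u ∈ Y ∧ v ∈ Y
  · have e : (fun q : ℝ × Th T => cutf T o Y (pf q.1) q.2 u v) = fun q => q.2 u v :=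
      funext fun q => cutf_of_mem hm.1 hm.2
    rw [e]
    exact hc u v
  · by_cases h1 : Up T o u v
    · have e : (fun q : ℝ × Th T => cutf T o Y (pf q.1) q.2 u v) = fun q => min (q.2 u v) (pf q.1 (T.dist o u)) :=
        funext fun q => cutf_of_up hm h1
      rw [e]
      exact (hc u v).min (hp _)
    · by_cases h2 : Up T o v u
      · have e : (fun q : ℝ × Th T => cutf T o Y (pf q.1) q.2 u v) = fun q => 1 - min (q.2 v u) (pf q.1 (T.dist o v)) :=
          funext fun q => cutf_of_down hm h2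
        rw [e]
        exact continuous_const.sub ((hc v u).min (hp _))
      · have e : (fun q : ℝ × Th T => cutf T o Y (pf q.1) q.2 u v) = fun _ => 0 := funext fun q => by
          unfold cutf
          rw [if_neg hm, if_neg h1, if_neg h2]
        rw [e]
        exact continuous_const

theorem hom_one (hT : T.IsTree) (o : V) {Y : Set V} (hY : ∀ u v, Up T o u v → v ∈ Y → u ∈ Y) (ψ : Th T) :
    hom hT o hY 1 ψ = ψ := by
  refine Th.ext fun u v => ?_
  show cutf T o Y (pf 1) ψ u v = ψ u v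
  by_cases hm : u ∈ Y ∧ v ∈ Y
  · exact cutf_of_mem hm.1 hm.2
  · by_cases ha : T.Adj u v
    · rcases up_or hT o ha with h1 | h1
      · rw [cutf_of_up hm h1, pf_one, min_eq_left (ψ.le_one u v)]
      · rw [cutf_of_down hm h1, pf_one, min_eq_left (ψ.le_one v u)]
        linarith [ψ.add ha]
    · unfold cutf
      rw [if_neg hm, if_neg (fun h => ha h.adj), if_neg (fun h => ha h.adj.symm), ψ.off ha]

theorem hom_of_mem (hT : T.IsTree) (o : V) {Y : Set V} (hY : ∀ u v, Up T o u v → v ∈ Y → u ∈ Y) (t : ℝ) (ψ : Th T)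
    {u v : V} (hu : u ∈ Y) (hv : v ∈ Y) : hom hT o hY t ψ u v = ψ u v :=
  cutf_of_mem hu hv

open Classical in
/-- extension by the projection: the value at time `0` -/
noncomputable def extf (T : SimpleGraph V) (o : V) (Y : Set V) (f : Y → Y → ℝ) (u v : V) : ℝ :=
  if h : u ∈ Y ∧ v ∈ Y then f ⟨u, h.1⟩ ⟨v, h.2⟩
  else if Up T o v u then 1 else 0

theorem hom_zero (hT : T.IsTree) (o : V) {Y : Set V} (hY : ∀ u v, Up T o u v → v ∈ Y → u ∈ Y) (ψ : Th T) (u v : V) :
    hom hT o hY 0 ψ u v = extf T o Y (fun a b => ψ a b) u v := by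
  show cutf T o Y (pf 0) ψ u v = extf T o Y (fun a b => ψ a b) u v
  unfold extf
  by_cases hm : u ∈ Y ∧ v ∈ Y
  · rw [cutf_of_mem hm.1 hm.2, dif_pos hm]
  · rw [dif_neg hm]
    by_cases h1 : Up T o u v
    · rw [cutf_of_up hm h1, pf_zero, min_eq_right (ψ.nonneg u v), if_neg h1.asymm]
    · by_cases h2 : Up T o v u
      · rw [cutf_of_down hm h2, pf_zero, min_eq_right (ψ.nonneg v u), if_pos h2, sub_zero]
      · unfold cutf
        rw [if_neg hm, if_neg h1, if_neg h2, if_neg h2]

end Pool.Agent.H76.GT
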