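import Pool.Agent.H76.GU.PolyT
import Pool.Agent.H76.GU.Cut
import Pool.Agent.H76.GU.Agr
import Mathlib.Topology.Algebra.Module.FiniteDimension

/-!
# H76 GU, Dom: the product of the compactified trees is finitely dominated
-/

set_option autoImplicit false

namespace Pool.Agent.H76.GT

/-- the extension of the restriction of a point is a point -/
private theorem isPos_extf {V : Type} {T : SimpleGraph V} (hT : T.IsTree) (o : V) {Y : Set V}
    (hY : ∀ u v, Up T o u v → v ∈ Y → u ∈ Y) {f : Y → Y → ℝ} (hf : ∃ ψ : Th T, ∀ u v : Y, f u v = ψ u v) :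
    IsPos T (extf T o Y f) := by
  obtain ⟨ψ, hψ⟩ := hf
  have e : f = fun a b : Y => ψ a b := by
    funext a b
    exact hψ a b
  have e2 : extf T o Y f = (hom hT o hY 0 ψ : Th T).1 := by
    funext u v
    rw [e]
    exact (hom_zero hT o hY ψ u v).symm
  rw [e2]
  exact (hom hT o hY 0 ψ).2

private theorem continuous_extf {V : Type} (T : SimpleGraph V) (o : V) (Y : Set V) (u v : V) :
    Continuous fun f : Y → Y → ℝ => extf T o Y f u v := by
  classical
  unfold extf
  by_cases h : u ∈ Y ∧ v ∈ Y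
  · simp only [dif_pos h]
    exact continuous_apply_apply (ρ := fun _ _ => ℝ) _ _
  · simp only [dif_neg h]
    exact continuous_const

/-- Proof. `exists_agree`, finite subtrees `Y k ⊇ F k` (`exists_cvx`). The restriction maps the product of the `Th (T k)` onto
`K0 = {f : ∀ k, Y k → Y k → ℝ | ∀ k, f k is the restriction of a point}`, a polyhedron of dimension `n` (`isPolyhedron_pi`,
`isPolyhedron_res`); `K` is its image under a linear isomorphism with `Fin m → ℝ`. `i` extends by `extf`, `H` is `hom` in all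
coordinates (`hom_zero`, `hom_one`, `hom_of_mem`, `hom_continuous`). -/
theorem exists_dom {n : ℕ} {V : Fin n → Type} {T : ∀ k, SimpleGraph (V k)} (hT : ∀ k, (T k).IsTree) (o : ∀ k, V k)
    {W : Set ((∀ k, Th (T k)) × (∀ k, Th (T k)))} (hW : IsOpen W) (h : ∀ x, (x, x) ∈ W) :
    ∃ (m : ℕ) (K : Set (Fin m → ℝ)), IsPolyhedron n K ∧
      ∃ (p : C(∀ k, Th (T k), K)) (i : C(K, ∀ k, Th (T k))) (H : C(unitInterval × (∀ k, Th (T k)), ∀ k, Th (T k))),
        (∀ x, H (0, x) = i (p x)) ∧ (∀ x, H (1, x) = x) ∧ ∀ t x, (H (t, x), x) ∈ W := by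
  classical
  obtain ⟨F, hF, hagr⟩ := exists_agree hW h
  choose Y hY hFY using fun k => exists_cvx (hT k) (o k) (hF k)
  have fY : ∀ k, Finite (Y k) := fun k => (hY k).fin.to_subtype
  let K0 : Set (∀ k, Y k → Y k → ℝ) := {x | ∀ k, x k ∈ {f : Y k → Y k → ℝ | ∃ ψ : Th (T k), ∀ u v : Y k, f u v = ψ u v}}
  have hK0 : IsPolyhedron n K0 := by
    have h1 := isPolyhedron_pi (N := fun _ : Fin n => 1) (fun k => isPolyhedron_res (hT k) (hY k))
    refine h1.mono ?_
    rw [Finset.sum_const, Finset.card_univ, Fintype.card_fin, smul_eq_mul, mul_one]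
  let e : (∀ k, Y k → Y k → ℝ) ≃L[ℝ] (Fin (Module.finrank ℝ (∀ k, Y k → Y k → ℝ)) → ℝ) :=
    ContinuousLinearEquiv.ofFinrankEq (Module.finrank_fin_fun ℝ).symm
  let r : (∀ k, Th (T k)) → ∀ k, Y k → Y k → ℝ := fun x k u v => x k u v
  have hr : Continuous r := by
    refine continuous_pi fun k => continuous_pi fun u => continuous_pi fun v => ?_
    exact (Th.continuous_apply (u : V k) v).comp (continuous_apply k)
  have hr0 : ∀ x, r x ∈ K0 := fun x k => ⟨x k, fun u v => rfl⟩
  have hs : ∀ y : (e '' K0 : Set _), e.symm y ∈ K0 := by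
    rintro ⟨_, z, hz, rfl⟩
    show e.symm (e z) ∈ K0
    rw [e.symm_apply_apply]
    exact hz
  refine ⟨_, e '' K0, isPolyhedron_image hK0 e.toLinearEquiv.toLinearMap, ⟨fun x => ⟨e (r x), r x, hr0 x, rfl⟩, ?_⟩,
    ⟨fun y k => ⟨extf (T k) (o k) (Y k) (e.symm y k), isPos_extf (hT k) (o k) (hY k).up (hs y k)⟩, ?_⟩,
    ⟨fun q k => hom (hT k) (o k) (hY k).up q.1 (q.2 k), ?_⟩, ?_, ?_, ?_⟩
  · exact Continuous.subtype_mk (e.continuous.comp hr) _
  · refine continuous_pi fun k => Th.continuous_of fun u v => ?_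
    exact (continuous_extf (T k) (o k) (Y k) u v).comp
      ((continuous_apply k).comp (e.symm.continuous.comp continuous_subtype_val))
  · refine continuous_pi fun k => ?_
    exact (hom_continuous (hT k) (o k) (hY k).up).comp
      ((continuous_subtype_val.comp continuous_fst).prodMk ((continuous_apply k).comp continuous_snd))
  · intro x
    funext k
    refine Th.ext fun u v => ?_
    show hom (hT k) (o k) (hY k).up 0 (x k) u v = extf (T k) (o k) (Y k) (e.symm (e (r x)) k) u v
    rw [e.symm_apply_apply, hom_zero]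
  · intro x
    funext k
    exact hom_one (hT k) (o k) (hY k).up (x k)
  · intro t x
    refine hagr _ _ fun k u hu v hv => ?_
    exact hom_of_mem (hT k) (o k) (hY k).up _ (x k) (hFY k hu) (hFY k hv)

end Pool.Agent.H76.GT
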