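import Pool.Agent.H76.GU.Filt
import Pool.Agent.H76.GT.Ex

/-!
# H76 GU, Tht: the averaged exit function
-/

set_option autoImplicit false

namespace Pool.Agent.H76.GT

variable {G V : Type} [Group G] [MulAction G V] {T : SimpleGraph V}

/-- the average of the exit functions of `g (X m)`, `m < M` -/
noncomputable def tht (T : SimpleGraph V) (o : V) (X : ℕ → Set V) (M : ℕ) (g : G) (ψ : Th T) : ℝ :=
  (∑ m ∈ Finset.range M, Ex T (g • o) ((fun x => g • x) '' X m) ψ) / M

section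

variable [Pres G T] {o : V} {S : Set G} {X : ℕ → Set V} {c : ℕ}

theorem tht_smul (hT : T.IsTree) (M : ℕ) (g h : G) (ψ : Th T) : tht T o X M (g * h) (g • ψ) = tht T o X M h ψ := by
  unfold tht
  congr 1
  apply Finset.sum_congr rfl
  intro m _
  have e : (fun x => (g * h) • x) '' X m = (fun x => g • x) '' ((fun x => h • x) '' X m) := by
    rw [Set.image_image]
    exact Set.image_congr fun x _ => mul_smul g h x
  rw [e, mul_smul]
  exact ex_smul hT g (h • o) _ ψ

theorem tht_continuous (hT : T.IsTree) (hF : Filt T o S X c) (M : ℕ) (g : G) :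
    Continuous fun ψ : Th T => tht T o X M g ψ := by
  unfold tht
  exact (continuous_finsetSum _ fun m _ => ex_continuous hT (g • o) (hF.cvx_smul hT g m).fin).div_const _

private theorem tht_mono (hT : T.IsTree) (hF : Filt T o S X c) {m m' : ℕ} (hm : m ≤ m') (g : G) (ψ : Th T) :
    Ex T (g • o) ((fun x => g • x) '' X m) ψ ≤ Ex T (g • o) ((fun x => g • x) '' X m') ψ :=
  ex_mono hT (g • o) (hF.cvx_smul hT g m').fin (Set.image_mono (hF.mono_le hm)) ψ

/-- Proof. All terms are at least the term for `m = 0` (`ex_mono`, `Filt.mono_le`). -/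
theorem ex_le_tht (hT : T.IsTree) (hF : Filt T o S X c) {M : ℕ} (hM : 0 < M) (g : G) (ψ : Th T) :
    Ex T (g • o) ((fun x => g • x) '' X 0) ψ ≤ tht T o X M g ψ := by
  have hM' : (0 : ℝ) < M := Nat.cast_pos.2 hM
  unfold tht
  rw [le_div_iff₀ hM']
  have h1 := Finset.card_nsmul_le_sum (Finset.range M) (fun m => Ex T (g • o) ((fun x => g • x) '' X m) ψ)
    (Ex T (g • o) ((fun x => g • x) '' X 0) ψ) (fun m _ => tht_mono hT hF (Nat.zero_le m) g ψ)
  rw [Finset.card_range, nsmul_eq_mul] at h1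
  linarith

theorem tht_le_ex (hT : T.IsTree) (hF : Filt T o S X c) {M : ℕ} (hM : 0 < M) (g : G) (ψ : Th T) :
    tht T o X M g ψ ≤ Ex T (g • o) ((fun x => g • x) '' X M) ψ := by
  have hM' : (0 : ℝ) < M := Nat.cast_pos.2 hM
  unfold tht
  rw [div_le_iff₀ hM']
  have h1 := Finset.sum_le_card_nsmul (Finset.range M) (fun m => Ex T (g • o) ((fun x => g • x) '' X m) ψ)
    (Ex T (g • o) ((fun x => g • x) '' X M) ψ) (fun m hm => tht_mono hT hF (Finset.mem_range.1 hm).le g ψ)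
  rw [Finset.card_range, nsmul_eq_mul] at h1
  linarith

/-- Proof. `ex_height` for `Y = g (X (m + 1))` with the vertices `g o`, `g s o` of `Y`, and `ex_mono` for
`g s (X m) ⊆ g (X (m + 1))`. -/
theorem ex_right (hT : T.IsTree) (hF : Filt T o S X c) {ψ : Th T} {h : V → ℝ}
    (hh : ∀ u v, T.Adj u v → h v - h u = 2 * ψ u v - 1) {s : G} (hs : s ∈ S) (g : G) (m : ℕ) :
    h ((g * s) • o) + Ex T ((g * s) • o) ((fun x => (g * s) • x) '' X m) ψ ≤
      h (g • o) + Ex T (g • o) ((fun x => g • x) '' X (m + 1)) ψ := by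
  have h1 := ex_height hT hh (hF.cvx_smul hT g (m + 1)) (hF.mem_right hs g (m + 1))
  have h2 := ex_mono hT ((g * s) • o) (hF.cvx_smul hT g (m + 1)).fin (hF.sub_right hs g m) ψ
  linarith

/-- Proof. `ex_right` for `g * s`, `s⁻¹`. -/
theorem ex_left (hT : T.IsTree) (hF : Filt T o S X c) {ψ : Th T} {h : V → ℝ}
    (hh : ∀ u v, T.Adj u v → h v - h u = 2 * ψ u v - 1) {s : G} (hs : s⁻¹ ∈ S) (g : G) (m : ℕ) :
    h (g • o) + Ex T (g • o) ((fun x => g • x) '' X m) ψ ≤
      h ((g * s) • o) + Ex T ((g * s) • o) ((fun x => (g * s) • x) '' X (m + 1)) ψ := by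
  have h1 := ex_right hT hF hh hs (g * s) m
  rw [mul_inv_cancel_right] at h1
  exact h1

/-- Proof. With `H m = h (g o) + Ex (g (X m))`, `H' m` for `g s`: `H' m ≤ H (m + 1)`, `H m ≤ H' (m + 1)`, so
`∑ H' m ≤ ∑ H m + H M - H 0 ≤ ∑ H m + Ex (g (X M)) ≤ ∑ H m + L` (sums over `m < M`), and conversely. Divide by `M`. -/
theorem tht_shift (hT : T.IsTree) (hF : Filt T o S X c) {ψ : Th T} {h : V → ℝ}
    (hh : ∀ u v, T.Adj u v → h v - h u = 2 * ψ u v - 1) {s : G} (hs : s ∈ S) (hs' : s⁻¹ ∈ S) (g : G) {M : ℕ} (hM : 0 < M)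
    {L : ℝ} (h1 : Ex T (g • o) ((fun x => g • x) '' X M) ψ ≤ L)
    (h2 : Ex T ((g * s) • o) ((fun x => (g * s) • x) '' X M) ψ ≤ L) :
    |(tht T o X M (g * s) ψ + h ((g * s) • o)) - (tht T o X M g ψ + h (g • o))| ≤ L / M := by
  have hM' : (0 : ℝ) < M := Nat.cast_pos.2 hM
  obtain ⟨a, ha⟩ : ∃ a : ℕ → ℝ, a = fun m => Ex T (g • o) ((fun x => g • x) '' X m) ψ := ⟨_, rfl⟩
  obtain ⟨b, hb⟩ : ∃ b : ℕ → ℝ, b = fun m => Ex T ((g * s) • o) ((fun x => (g * s) • x) '' X m) ψ := ⟨_, rfl⟩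
  have ha0 : 0 ≤ a 0 := by
    rw [ha]
    exact ex_nonneg _ _ _
  have hb0 : 0 ≤ b 0 := by
    rw [hb]
    exact ex_nonneg _ _ _
  have haM : a M ≤ L := by
    rw [ha]
    exact h1
  have hbM : b M ≤ L := by
    rw [hb]
    exact h2
  have r1 : ∀ m, h ((g * s) • o) + b m ≤ h (g • o) + a (m + 1) := by
    intro m
    rw [ha, hb]
    exact ex_right hT hF hh hs g m
  have r2 : ∀ m, h (g • o) + a m ≤ h ((g * s) • o) + b (m + 1) := by
    intro m
    rw [ha, hb]
    exact ex_left hT hF hh hs' g m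
  have ea : tht T o X M g ψ = (∑ m ∈ Finset.range M, a m) / M := by
    unfold tht
    rw [ha]
  have eb : tht T o X M (g * s) ψ = (∑ m ∈ Finset.range M, b m) / M := by
    unfold tht
    rw [hb]
  have s1 : ∑ m ∈ Finset.range M, (h ((g * s) • o) + b m) ≤ ∑ m ∈ Finset.range M, (h (g • o) + a (m + 1)) :=
    Finset.sum_le_sum fun m _ => r1 m
  have s2 : ∑ m ∈ Finset.range M, (h (g • o) + a m) ≤ ∑ m ∈ Finset.range M, (h ((g * s) • o) + b (m + 1)) :=
    Finset.sum_le_sum fun m _ => r2 m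
  rw [Finset.sum_add_distrib, Finset.sum_add_distrib, Finset.sum_const, Finset.sum_const, Finset.card_range,
    nsmul_eq_mul, nsmul_eq_mul] at s1 s2
  have t1 := Finset.sum_range_succ a M
  have t2 := Finset.sum_range_succ' a M
  have t3 := Finset.sum_range_succ b M
  have t4 := Finset.sum_range_succ' b M
  have key : ((∑ m ∈ Finset.range M, b m) / M + h ((g * s) • o)) - ((∑ m ∈ Finset.range M, a m) / M + h (g • o)) =
      ((∑ m ∈ Finset.range M, b m) + M * h ((g * s) • o) - (∑ m ∈ Finset.range M, a m) - M * h (g • o)) / M := by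
    field_simp
    ring
  rw [ea, eb, key, abs_div, abs_of_pos hM']
  apply div_le_div_of_nonneg_right _ hM'.le
  rw [abs_le]
  constructor <;> linarith

end

end Pool.Agent.H76.GT
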