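import Pool.Agent.H76.GU.Loc
import Pool.Agent.H76.GU.Tht
import Pool.Agent.H76.GT.Ray
import Pool.Agent.H76.GT.Idx

/-!
# H76 GU, Flt: the paths of a point of the product of the trees, and the families of the rules
-/

set_option autoImplicit false

namespace Pool.Agent.H76.GT

open Pool.Agent.H98.FJ Pool.Agent.H54.AX

variable {G : Type} [Group G] {n : ℕ} {V : Fin n → Type} [∀ k, MulAction G (V k)] {T : ∀ k, SimpleGraph (V k)}

/-- the paths from the vertices `g (o k)` to the points `ψ k`, with the origin at distance `c` -/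
noncomputable def flt (T : ∀ k, SimpleGraph (V k)) (o : ∀ k, V k) (c : ℕ) (g : G) (ψ : ∀ k, Th (T k)) : ∀ k, ℤ → V k :=
  fun k i => ray (T k) (g • o k) (ψ k) ((c : ℤ) + i).toNat

/-- the exits are late in all trees -/
def Rgn (T : ∀ k, SimpleGraph (V k)) (o : ∀ k, V k) (c : ℕ) (X : ∀ k, Set (V k)) (g : G) : Set (∀ k, Th (T k)) :=
  {ψ | ∀ k, (2 * c + 1 : ℝ) < Ex (T k) (g • o k) ((fun x => g • x) '' X k) (ψ k)}

variable [∀ k, Pres G (T k)] {o : ∀ k, V k} {c : ℕ} {X : ∀ k, Set (V k)}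

theorem flt_smul (hT : ∀ k, (T k).IsTree) (g h : G) (ψ : ∀ k, Th (T k)) :
    flt T o c (g * h) (g • ψ) = g • flt T o c h ψ := by
  funext k i
  show ray (T k) ((g * h) • o k) (g • ψ k) _ = g • ray (T k) (h • o k) (ψ k) _
  rw [mul_smul, ray_smul (hT k)]

theorem rgn_smul (hT : ∀ k, (T k).IsTree) (g h : G) (ψ : ∀ k, Th (T k)) (hψ : ψ ∈ Rgn T o c X h) :
    g • ψ ∈ Rgn T o c X (g * h) := by
  intro k
  have h1 := hψ k
  rw [← ex_smul (hT k) g, Set.image_image] at h1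
  have h2 : (fun x : V k => g • h • x) = fun x => (g * h) • x := funext fun x => (mul_smul g h x).symm
  rw [h2, ← mul_smul] at h1
  exact h1

private theorem flt_ray (hT : ∀ k, (T k).IsTree) (hX : ∀ k, Cvx (T k) (o k) (X k)) {g : G} {ψ : ∀ k, Th (T k)}
    (h : ψ ∈ Rgn T o c X g) (k : Fin n) (i : ℕ) (hi : i ≤ 2 * c + 1) :
    Up (T k) (g • o k) (ray (T k) (g • o k) (ψ k) i) (ray (T k) (g • o k) (ψ k) (i + 1)) ∧
      (T k).dist (g • o k) (ray (T k) (g • o k) (ψ k) i) = i ∧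
        ray (T k) (g • o k) (ψ k) i ∈ (fun x => g • x) '' X k := by
  have h1 : (((2 * c + 1 : ℕ)) : ℝ) < Ex (T k) (g • o k) ((fun x => g • x) '' X k) (ψ k) := by
    push_cast
    exact h k
  exact (ray_of_lt (hT k) (Cvx.smul (hT k) g (hX k)) h1).2.1 i hi

omit [∀ k, Pres G (T k)] in
private theorem flt_dist (hT : ∀ k, (T k).IsTree) {g : G} {ψ : ∀ k, Th (T k)} {k : Fin n}
    (key : ∀ i : ℕ, i ≤ 2 * c + 1 →
      Up (T k) (g • o k) (ray (T k) (g • o k) (ψ k) i) (ray (T k) (g • o k) (ψ k) (i + 1)) ∧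
      (T k).dist (g • o k) (ray (T k) (g • o k) (ψ k) i) = i ∧
        ray (T k) (g • o k) (ψ k) i ∈ (fun x => g • x) '' X k) {a b : ℕ} (hab : a ≤ b) (hb : b ≤ 2 * c + 1) :
    (T k).dist (ray (T k) (g • o k) (ψ k) a) (ray (T k) (g • o k) (ψ k) b) = b - a := by
  have up : ∀ m : ℕ, a + m ≤ 2 * c + 1 →
      (T k).dist (ray (T k) (g • o k) (ψ k) a) (ray (T k) (g • o k) (ψ k) (a + m)) ≤ m := by
    intro m
    induction m with
    | zero =>
      intro _
      rw [add_zero, SimpleGraph.dist_self]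
    | succ m ih =>
      intro hm
      have h1 := ih (by omega)
      have h2 : (T k).dist (ray (T k) (g • o k) (ψ k) (a + m)) (ray (T k) (g • o k) (ψ k) (a + m + 1)) = 1 :=
        SimpleGraph.dist_eq_one_iff_adj.2 (key (a + m) (by omega)).1.adj
      have h3 := (hT k).connected.dist_triangle (u := ray (T k) (g • o k) (ψ k) a)
        (v := ray (T k) (g • o k) (ψ k) (a + m)) (w := ray (T k) (g • o k) (ψ k) (a + m + 1))
      rw [← add_assoc]
      omega
  have h1 := up (b - a) (by omega)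
  rw [Nat.add_sub_cancel' hab] at h1
  have h2 := (hT k).connected.dist_triangle (u := g • o k) (v := ray (T k) (g • o k) (ψ k) a)
    (w := ray (T k) (g • o k) (ψ k) b)
  rw [(key a (by omega)).2.1, (key b hb).2.1] at h2
  omega

/-- Proof. `ray_of_lt` with `Y = g (X k)`, `j = 2 c + 1`: the vertices `ray i`, `i ≤ 2 c`, are in `Y`, consecutive ones adjacent,
and at distance `i` from the base point, so the path is a geodesic. For `mem` take the element `g⁻¹`. -/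
theorem fla_flt (hT : ∀ k, (T k).IsTree) (hX : ∀ k, Cvx (T k) (o k) (X k)) {g : G} {ψ : ∀ k, Th (T k)}
    (h : ψ ∈ Rgn T o c X g) : Fla G T c X (flt T o c g ψ) := by
  have key := fun k => flt_ray hT hX h k
  refine ⟨fun k i j hi hj => ?_, g⁻¹, fun k i hi => ?_⟩
  · have hi' := abs_le.1 hi
    have hj' := abs_le.1 hj
    show (((T k).dist (ray (T k) (g • o k) (ψ k) ((c : ℤ) + i).toNat)
      (ray (T k) (g • o k) (ψ k) ((c : ℤ) + j).toNat) : ℕ) : ℤ) = |i - j|
    rcases le_total i j with hij | hij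
    · rw [flt_dist hT (key k) (by omega) (by omega), abs_sub_comm, abs_of_nonneg (by omega)]
      omega
    · rw [SimpleGraph.dist_comm, flt_dist hT (key k) (by omega) (by omega), abs_of_nonneg (by omega)]
      omega
  · have hi' := abs_le.1 hi
    obtain ⟨x, hx, hx'⟩ := (key k ((c : ℤ) + i).toNat (by omega)).2.2
    have hx'' : g • x = ray (T k) (g • o k) (ψ k) ((c : ℤ) + i).toNat := hx'
    show g⁻¹ • ray (T k) (g • o k) (ψ k) ((c : ℤ) + i).toNat ∈ X k
    rw [← hx'', inv_smul_smul]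
    exact hx

/-- Proof. `ray_open`: near a point of the region the values of `flt` for `|i| ≤ c` are constant. -/
theorem rgn_open (hT : ∀ k, (T k).IsTree) (hX : ∀ k, Cvx (T k) (o k) (X k)) (g : G) {P : (∀ k, ℤ → V k) → Prop}
    (hP : ∀ f f' : ∀ k, ℤ → V k, (∀ k (i : ℤ), |i| ≤ c → f k i = f' k i) → P f → P f') :
    IsOpen {ψ : ∀ k, Th (T k) | ψ ∈ Rgn T o c X g ∧ P (flt T o c g ψ)} := by
  rw [isOpen_iff_forall_mem_open]
  rintro ψ ⟨h1, h2⟩
  have hop : ∀ k, IsOpen {φ : Th (T k) | (((2 * c + 1 : ℕ)) : ℝ) < Ex (T k) (g • o k) ((fun x => g • x) '' X k) φ ∧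
      ∀ i, i ≤ 2 * c + 1 → ray (T k) (g • o k) φ i = ray (T k) (g • o k) (ψ k) i} :=
    fun k => ray_open (hT k) (Cvx.smul (hT k) g (hX k)) (2 * c + 1) _
  refine ⟨⋂ k, (fun φ : ∀ k, Th (T k) => φ k) ⁻¹' {φ : Th (T k) | (((2 * c + 1 : ℕ)) : ℝ) <
      Ex (T k) (g • o k) ((fun x => g • x) '' X k) φ ∧
      ∀ i, i ≤ 2 * c + 1 → ray (T k) (g • o k) φ i = ray (T k) (g • o k) (ψ k) i}, ?_, ?_, ?_⟩
  · intro φ hφ
    have h3 := fun k => Set.mem_iInter.1 hφ k
    refine ⟨fun k => ?_, ?_⟩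
    · have h4 := (h3 k).1
      push_cast at h4
      exact h4
    · refine hP _ _ (fun k i hi => ?_) h2
      have hi' := abs_le.1 hi
      exact ((h3 k).2 ((c : ℤ) + i).toNat (by omega)).symm
  · exact isOpen_iInter_of_finite fun k => (hop k).preimage (continuous_apply k)
  · refine Set.mem_iInter.2 fun k => ⟨?_, fun i _ => rfl⟩
    have h4 := h1 k
    push_cast
    exact h4

/-- the family of a rule. Proof. `rgn_open`, `rgn_smul`, `flt_smul`, `fla_flt` and the properties of the rule. -/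
theorem isFam_rul {C : (G : Type) → [Group G] → Prop} (hT : ∀ k, (T k).IsTree) (hX : ∀ k, Cvx (T k) (o k) (X k)) {N : ℕ}
    {I : Type} [MulAction G I] {Q : (∀ k, ℤ → V k) → I → Prop} (hQ : Rul C (G := G) T c X N Q) :
    IsFam C N (fun (x : I) (g : G) => {ψ : ∀ k, Th (T k) | ψ ∈ Rgn T o c X g ∧ Q (flt T o c g ψ) x}) := by
  refine ⟨fun x g => ?_, fun x g h ψ hψ => ?_, fun x g h ψ h1 h2 => ?_, fun x h ψ h1 => ?_, fun h ψ => ?_⟩
  · exact rgn_open hT hX g (P := fun f => Q f x) fun f f' hf hQf => hQ.loc f f' hf x hQf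
  · refine ⟨rgn_smul hT g h ψ hψ.1, ?_⟩
    rw [flt_smul hT]
    exact hQ.equiv g _ _ hψ.2
  · exact hQ.eq g _ _ (fla_flt hT hX h1.1) h1.2 h2.2
  · exact hQ.stab _ _ (fla_flt hT hX h1.1) h1.2
  · by_cases hψ : ψ ∈ Rgn T o c X h
    · exact (Set.encard_le_encard fun x hx => hx.2).trans (hQ.mult _ (fla_flt hT hX hψ))
    · have h3 : {x : I | ψ ∈ {ψ : ∀ k, Th (T k) | ψ ∈ Rgn T o c X h ∧ Q (flt T o c h ψ) x}} = ∅ :=
        Set.eq_empty_iff_forall_notMem.2 fun x hx => hψ hx.1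
      rw [h3, Set.encard_empty]
      exact zero_le

/-- Proof. `ray_change` for `g o`, `g s o` in `Y k = g (X k)` gives `δ k`; for `i ≥ R - c` the index `c + i` is at least `R`. -/
theorem flt_shf (hT : ∀ k, (T k).IsTree) (hX : ∀ k, Cvx (T k) (o k) (X k)) {R : ℕ} (hR : R < c) {s : G}
    (hs : ∀ k, (T k).dist (o k) (s • o k) ≤ R) (hs' : ∀ k, s • o k ∈ X k) {g : G} {ψ : ∀ k, Th (T k)}
    (h : ψ ∈ Rgn T o c X g) :
    ∃ δ : Fin n → ℤ, (∀ k, |δ k| ≤ R) ∧ Shf ((c : ℤ) - R) δ (flt T o c g ψ) (flt T o c (g * s) ψ) := by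
  have key : ∀ k, ∃ δ : ℤ, |δ| ≤ R ∧ ∀ i : ℕ, R ≤ i →
      ray (T k) ((g * s) • o k) (ψ k) i = ray (T k) (g • o k) (ψ k) (i + δ).toNat := by
    intro k
    refine ray_change (hT k) (Cvx.smul (hT k) g (hX k)) ?_ ?_ ?_
    · exact ⟨s • o k, hs' k, (mul_smul g s (o k)).symm⟩
    · rw [mul_smul, dist_smul (hT k)]
      exact hs k
    · have h1 : (2 * c + 1 : ℝ) < Ex (T k) (g • o k) ((fun x => g • x) '' X k) (ψ k) := h k
      have h2 : ((R : ℕ) : ℝ) + 1 ≤ c := by exact_mod_cast hR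
      linarith
  choose δ hδ hδ' using key
  refine ⟨δ, hδ, fun k i hi => ?_⟩
  have hi' := abs_le.1 hi
  have h3 := hδ' k ((c : ℤ) + i).toNat (by omega)
  show ray (T k) ((g * s) • o k) (ψ k) ((c : ℤ) + i).toNat = ray (T k) (g • o k) (ψ k) ((c : ℤ) + (i + δ k)).toNat
  rw [h3]
  congr 2
  have h4 := abs_le.1 (hδ k)
  omega

end Pool.Agent.H76.GT
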