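import Pool.Agent.H76.GT.Ray

/-!
# H76 GU, Tau: the point at distance `θ` on the path from `o` to `ψ`
-/

set_option autoImplicit false

namespace Pool.Agent.H76.GT

variable {V : Type} {T : SimpleGraph V}

open Classical in
/-- the position, on the dart `(u, v)`, of the point at distance `θ` on the path from `o` to `ψ` -/
noncomputable def tau (T : SimpleGraph V) (o : V) (θ : ℝ) (ψ : Th T) (u v : V) : ℝ :=
  if Up T o u v then min (ψ u v) (max 0 (θ - T.dist o u)) else 1 - min (ψ v u) (max 0 (θ - T.dist o v))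

private theorem tau_up {o : V} {θ : ℝ} {ψ : Th T} {u v : V} (h : Up T o u v) :
    tau T o θ ψ u v = min (ψ u v) (max 0 (θ - T.dist o u)) := by
  unfold tau
  rw [if_pos h]

private theorem tau_dn {o : V} {θ : ℝ} {ψ : Th T} {u v : V} (h : Up T o v u) :
    tau T o θ ψ u v = 1 - min (ψ v u) (max 0 (θ - T.dist o v)) := by
  unfold tau
  rw [if_neg h.asymm]

/-- an edge which separates `o` from `o'` is in every subtree which contains both.
Proof. Induction on `dist o' v` (for all `u`, `v`): if `v = o'` clear; else let `Up T o' w v`; `w ≠ u`, so `Up T o v w`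
(`up_or`, `up_unique`), and `w, v ∈ Y` by induction for `(v, w)`; `u ∈ Y` by `Cvx.up`. -/
theorem mem_of_cross (hT : T.IsTree) {o o' : V} {Y : Set V} (hY : Cvx T o Y) (ho : o' ∈ Y) {u v : V} (h : Up T o u v)
    (h' : Up T o' v u) : u ∈ Y ∧ v ∈ Y := by
  obtain ⟨n, hn⟩ : ∃ n, n = T.dist o' v := ⟨_, rfl⟩
  induction n generalizing u v with
  | zero =>
    have e : o' = v := (hT.connected.dist_eq_zero_iff).1 hn.symm
    subst e
    exact ⟨hY.up _ _ h ho, ho⟩
  | succ n ih =>
    have hne : v ≠ o' := by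
      rintro rfl
      rw [SimpleGraph.dist_self] at hn
      omega
    obtain ⟨w, hw⟩ := exists_up hT hne
    have e1 := hw.dist
    have e2 := h'.dist
    have hwu : w ≠ u := by
      rintro rfl
      omega
    have h3 : Up T o v w := by
      rcases up_or hT o hw.adj with h4 | h4
      · exact absurd (up_unique hT h4 h) hwu
      · exact h4
    have h5 := ih h3 hw (by omega)
    exact ⟨hY.up _ _ h h5.1, h5.1⟩

/-- the height grows with slope one on the path. Proof. `ray_of_pos`: all darts before `u` are full. -/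
theorem height_of_pos (hT : T.IsTree) {ψ : Th T} {h : V → ℝ} (hh : ∀ u v, T.Adj u v → h v - h u = 2 * ψ u v - 1) {o u v : V}
    (hu : Up T o u v) (hp : 0 < ψ u v) : h u = h o + T.dist o u := by
  obtain ⟨a1, -, a3⟩ := ray_of_pos hT hu hp
  have key : ∀ i, i ≤ T.dist o u → h (ray T o ψ i) = h o + i := by
    intro i
    induction i with
    | zero =>
      intro _
      rw [ray_zero, Nat.cast_zero, add_zero]
    | succ i ih =>
      intro hi
      obtain ⟨b1, b2, -⟩ := a3 i (by omega)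
      have h1 := hh _ _ b1.adj
      have h2 := ih (by omega)
      rw [b2, h2] at h1
      push_cast
      linarith
  have h3 := key (T.dist o u) le_rfl
  rw [a1] at h3
  exact h3

/-- Proof. The darts of the path before `(u, v)` are full and in `Dr T o Y`. -/
theorem le_ex (hT : T.IsTree) {ψ : Th T} {o u v : V} {Y : Set V} (hY : Cvx T o Y) (hu : Up T o u v) (hv : v ∈ Y)
    (hp : 0 < ψ u v) : T.dist o u + ψ u v ≤ Ex T o Y ψ := by
  obtain ⟨h, hh⟩ := exists_height hT ψ
  have huY : u ∈ Y := hY.up _ _ hu hv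
  have h1 := ex_height hT hh hY huY
  have h2 := height_of_pos hT hh hu hp
  have h3 : ψ u v ≤ Ex T u Y ψ := by
    unfold Ex
    rw [finsum_mem_eq_finite_toFinset_sum _ (dr_finite hT u hY.fin)]
    exact Finset.single_le_sum (f := fun p : V × V => ψ p.1 p.2) (fun p _ => ψ.nonneg _ _)
      ((Set.Finite.mem_toFinset _).2 (show (u, v) ∈ Dr T u Y from ⟨up_self hu.adj, hv⟩))
  linarith

/-- Proof. `ray_of_lt` with `j = dist o u` (if `j < Ex`), and `ray_of_pos`. -/
theorem ex_le (hT : T.IsTree) {ψ : Th T} {o u v : V} {Y : Set V} (hY : Cvx T o Y) (hu : Up T o u v) (hp : 0 < ψ u v)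
    (h1 : ψ u v < 1) : Ex T o Y ψ ≤ T.dist o u + ψ u v := by
  rcases lt_or_ge ((T.dist o u : ℕ) : ℝ) (Ex T o Y ψ) with h2 | h2
  · obtain ⟨-, -, -, -, b5⟩ := ray_of_lt hT hY h2
    obtain ⟨a1, a2, -⟩ := ray_of_pos hT hu hp
    rw [a1, a2] at b5
    exact (b5 h1).le
  · linarith

/-- Proof. We may assume `Up T o u v`. If also `Up T o' u v`: if `ψ u v = 0` both values are zero, otherwise
`θ - dist o u = θ + h o - h u` by `height_of_pos`, the same for `o'`, and `min`, `max` are Lipschitz. If `Up T o' v u`: the edge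
is in `Y` and in `Y'` (`mem_of_cross`), so `ψ u v = 0` or `ψ u v ≤ Ex - dist o u ≤ θ - dist o u` (`le_ex`), both values are
equal to `ψ u v`. -/
theorem tau_near (hT : T.IsTree) {ψ : Th T} {h : V → ℝ} (hh : ∀ u v, T.Adj u v → h v - h u = 2 * ψ u v - 1) {o o' : V}
    {Y Y' : Set V} (hY : Cvx T o Y) (ho : o' ∈ Y) (hY' : Cvx T o' Y') (ho' : o ∈ Y') {θ θ' : ℝ} (h1 : Ex T o Y ψ ≤ θ)
    (h2 : Ex T o' Y' ψ ≤ θ') {u v : V} (huv : T.Adj u v) :
    |tau T o θ ψ u v - tau T o' θ' ψ u v| ≤ |(θ + h o) - (θ' + h o')| := by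
  have key : ∀ {u v : V}, Up T o u v →
      |tau T o θ ψ u v - tau T o' θ' ψ u v| ≤ |(θ + h o) - (θ' + h o')| := by
    intro u v hu
    rcases up_or hT o' hu.adj with hu' | hu'
    · rw [tau_up hu, tau_up hu']
      rcases (ψ.nonneg u v).eq_or_lt with h0 | h0
      · rw [← h0, min_eq_left (le_max_left _ _), min_eq_left (le_max_left _ _), sub_zero, abs_zero]
        exact abs_nonneg _
      · have e1 := height_of_pos hT hh hu h0
        have e2 := height_of_pos hT hh hu' h0
        have e3 : (θ + h o) - (θ' + h o') = (θ - T.dist o u) - (θ' - T.dist o' u) := by linarith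
        rw [e3]
        refine (abs_min_sub_min_le_max _ _ _ _).trans ?_
        rw [sub_self, abs_zero]
        refine max_le (abs_nonneg _) ?_
        refine (abs_max_sub_max_le_max _ _ _ _).trans ?_
        rw [sub_self, abs_zero]
        exact max_le (abs_nonneg _) le_rfl
    · obtain ⟨-, c2⟩ := mem_of_cross hT hY ho hu hu'
      obtain ⟨-, c4⟩ := mem_of_cross hT hY' ho' hu' hu
      have e1 : tau T o θ ψ u v = ψ u v := by
        rw [tau_up hu]
        rcases (ψ.nonneg u v).eq_or_lt with h0 | h0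
        · rw [← h0]
          exact min_eq_left (le_max_left _ _)
        · have := le_ex hT hY hu c2 h0
          exact min_eq_left ((by linarith : ψ u v ≤ θ - T.dist o u).trans (le_max_right _ _))
      have e2 : tau T o' θ' ψ u v = ψ u v := by
        rw [tau_dn hu']
        have h5 : min (ψ v u) (max 0 (θ' - T.dist o' v)) = ψ v u := by
          rcases (ψ.nonneg v u).eq_or_lt with h0 | h0
          · rw [← h0]
            exact min_eq_left (le_max_left _ _)
          · have := le_ex hT hY' hu' c4 h0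
            exact min_eq_left ((by linarith : ψ v u ≤ θ' - T.dist o' v).trans (le_max_right _ _))
        rw [h5]
        linarith [ψ.add hu.adj]
      rw [e1, e2, sub_self, abs_zero]
      exact abs_nonneg _
  rcases up_or hT o huv with hu | hu
  · exact key hu
  · have h3 := key hu
    have e1 : tau T o θ ψ u v = 1 - tau T o θ ψ v u := by
      rw [tau_up hu, tau_dn hu]
    have e2 : tau T o' θ' ψ u v = 1 - tau T o' θ' ψ v u := by
      rcases up_or hT o' huv with h4 | h4
      · rw [tau_up h4, tau_dn h4]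
        ring
      · rw [tau_up h4, tau_dn h4]
    rw [e1, e2]
    have e3 : 1 - tau T o θ ψ v u - (1 - tau T o' θ' ψ v u) = -(tau T o θ ψ v u - tau T o' θ' ψ v u) := by ring
    rw [e3, abs_neg]
    exact h3

/-- the point is near the vertex `y`. Proof. (⇒) For `y ≠ o` the predecessor `u` of `y` gives `1 - ε < ψ u y` and
`1 - ε < θ - dist o u`. If `θ ≥ dist o y + ε` then by `ray_of_lt` (`j = dist o y`, `Ex ≥ θ > j`) the dart
`(y, ray (j + 1))` has `ψ = 1` or `j + ψ = Ex ≥ θ`, so `tau ≥ ε`. (⇐) The predecessor of `y`: direct computation; a successor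
`u`: `tau y u ≤ max 0 (θ - dist o y) < ε`. -/
theorem tau_vertex (hT : T.IsTree) {ψ : Th T} {o : V} {Y : Set V} (hY : Cvx T o Y) {θ ε : ℝ} (h0 : 0 ≤ θ)
    (h1 : θ ≤ Ex T o Y ψ) (he : 0 < ε) (he1 : ε ≤ 1) (y : V) :
    (∀ u, T.Adj y u → tau T o θ ψ y u < ε) ↔
      |θ - T.dist o y| < ε ∧ (y = o ∨ ∃ u, Up T o u y ∧ 1 - ε < ψ u y) := by
  constructor
  · intro hy
    have low : -ε < θ - T.dist o y ∧ (y = o ∨ ∃ u, Up T o u y ∧ 1 - ε < ψ u y) := by
      by_cases hyo : y = o
      · refine ⟨?_, Or.inl hyo⟩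
        rw [hyo, SimpleGraph.dist_self, Nat.cast_zero, sub_zero]
        linarith
      · obtain ⟨u, hu⟩ := exists_up hT hyo
        have h2 := hy u hu.adj.symm
        rw [tau_dn hu] at h2
        have h3 : 1 - ε < min (ψ u y) (max 0 (θ - T.dist o u)) := by linarith
        obtain ⟨h4, h5⟩ := lt_min_iff.1 h3
        have h6 : 1 - ε < θ - T.dist o u := by
          rcases lt_max_iff.1 h5 with h7 | h7
          · linarith
          · exact h7
        have h8 := hu.dist
        refine ⟨?_, Or.inr ⟨u, hu, h4⟩⟩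
        rw [h8]
        push_cast
        linarith
    refine ⟨?_, low.2⟩
    rw [abs_lt]
    refine ⟨low.1, ?_⟩
    by_contra hc
    have hc' : ε ≤ θ - T.dist o y := not_lt.1 hc
    have hlt : ((T.dist o y : ℕ) : ℝ) < Ex T o Y ψ := by linarith
    obtain ⟨-, b2, -, b4, b5⟩ := ray_of_lt hT hY hlt
    have hray : ray T o ψ (T.dist o y) = y := by
      rcases low.2 with h3 | ⟨u, hu, h4⟩
      · rw [h3, SimpleGraph.dist_self, ray_zero]
      · obtain ⟨-, a2, -⟩ := ray_of_pos hT hu (by linarith)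
        rw [hu.dist]
        exact a2
    have b2' := (b2 _ le_rfl).1
    rw [hray] at b2' b4 b5
    have h6 := hy _ b2'.adj
    rw [tau_up b2'] at h6
    have h7 : ε ≤ ψ y (ray T o ψ (T.dist o y + 1)) := by
      rcases lt_or_ge (ψ y (ray T o ψ (T.dist o y + 1))) 1 with h8 | h8
      · have := b5 h8
        linarith
      · linarith
    exact absurd h6 (not_lt.2 (le_min h7 (hc'.trans (le_max_right _ _))))
  · rintro ⟨h2, h3⟩ u hu
    rw [abs_lt] at h2
    rcases up_or hT o hu with h4 | h4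
    · rw [tau_up h4]
      exact (min_le_right _ _).trans_lt (max_lt he h2.2)
    · rcases h3 with h3 | ⟨u0, hu0, h5⟩
      · exact absurd h3 h4.ne
      · have e : u0 = u := up_unique hT hu0 h4
        rw [e] at h5
        rw [tau_dn h4]
        have h6 := h4.dist
        have h7 : 1 - ε < θ - T.dist o u := by
          rw [h6] at h2
          push_cast at h2
          linarith [h2.1]
        have h8 : 1 - ε < min (ψ u y) (max 0 (θ - T.dist o u)) :=
          lt_min h5 (lt_of_lt_of_le h7 (le_max_right _ _))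
        linarith

/-- the point is in the middle of the edge. Proof. If `0 < ψ u w < 4 / 5` then `θ ≤ Ex ≤ dist o u + ψ u w` (`ex_le`). -/
theorem tau_edge (hT : T.IsTree) {ψ : Th T} {o : V} {Y : Set V} (hY : Cvx T o Y) {θ : ℝ} (h1 : θ ≤ Ex T o Y ψ) {u w : V}
    (h : Up T o u w) : (1 / 5 < tau T o θ ψ u w ∧ tau T o θ ψ u w < 4 / 5) ↔
      (1 / 5 < ψ u w ∧ 1 / 5 < θ - T.dist o u ∧ θ - T.dist o u < 4 / 5) := by
  rw [tau_up h]
  constructor
  · rintro ⟨h2, h3⟩
    obtain ⟨h4, h5⟩ := lt_min_iff.1 h2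
    have h6 : 1 / 5 < θ - T.dist o u := by
      rcases lt_max_iff.1 h5 with h7 | h7
      · norm_num at h7
      · exact h7
    refine ⟨h4, h6, ?_⟩
    rcases min_lt_iff.1 h3 with h7 | h7
    · have h8 := ex_le hT hY h (ψ := ψ) (by linarith) (by linarith)
      linarith
    · exact lt_of_le_of_lt (le_max_right _ _) h7
  · rintro ⟨h2, h3, h4⟩
    refine ⟨lt_min h2 (lt_of_lt_of_le h3 (le_max_right _ _)), ?_⟩
    exact lt_of_le_of_lt (min_le_right _ _) (max_lt (by norm_num) h4)

/-- every point is near a vertex or in the middle of an edge. Proof. If `|θ - d| < 31 / 100` for a natural number `d`: for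
`d = 0` take `y = o`; else `ray_of_lt` with `j = d - 1` gives `Up T o u y` with `ψ u y = 1` or `ψ u y = Ex - j ≥ θ - j`;
then `tau_vertex`. Otherwise `u = ray d`, `d = ⌊θ⌋₊`, `w = ray (d + 1)`. -/
theorem tau_cases (hT : T.IsTree) {ψ : Th T} {o : V} {Y : Set V} (hY : Cvx T o Y) {θ : ℝ} (h0 : 0 ≤ θ)
    (h1 : θ ≤ Ex T o Y ψ) : (∃ y, ∀ u, T.Adj y u → tau T o θ ψ y u < 8 / 25) ∨
      ∃ u w, Up T o u w ∧ 3 / 10 ≤ tau T o θ ψ u w ∧ tau T o θ ψ u w ≤ 7 / 10 := by
  by_cases hd : ∃ d : ℕ, |θ - d| < 31 / 100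
  · left
    obtain ⟨d, hd⟩ := hd
    rcases Nat.eq_zero_or_pos d with h2 | h2
    · refine ⟨o, ?_⟩
      rw [tau_vertex hT hY h0 h1 (by norm_num) (by norm_num)]
      rw [h2, Nat.cast_zero] at hd
      refine ⟨?_, Or.inl rfl⟩
      rw [SimpleGraph.dist_self, Nat.cast_zero]
      linarith
    · obtain ⟨j, rfl⟩ : ∃ j, d = j + 1 := ⟨d - 1, by omega⟩
      rw [abs_lt] at hd
      push_cast at hd
      have hj : (j : ℝ) < Ex T o Y ψ := by linarith [hd.1]
      obtain ⟨-, b2, -, -, b5⟩ := ray_of_lt hT hY hj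
      obtain ⟨c1, c2, -⟩ := b2 j le_rfl
      have h3 : 69 / 100 < ψ (ray T o ψ j) (ray T o ψ (j + 1)) := by
        rcases lt_or_ge (ψ (ray T o ψ j) (ray T o ψ (j + 1))) 1 with h8 | h8
        · have := b5 h8
          linarith [hd.1]
        · linarith
      refine ⟨ray T o ψ (j + 1), ?_⟩
      rw [tau_vertex hT hY h0 h1 (by norm_num) (by norm_num)]
      refine ⟨?_, Or.inr ⟨_, c1, by linarith⟩⟩
      rw [c1.dist, c2, abs_lt]
      push_cast
      constructor
      · linarith [hd.1]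
      · linarith [hd.2]
  · right
    have hd' : ∀ d : ℕ, 31 / 100 ≤ |θ - d| := fun d => not_lt.1 fun hc => hd ⟨d, hc⟩
    have f1 := Nat.floor_le h0
    have f2 := Nat.lt_floor_add_one θ
    have g1 := hd' ⌊θ⌋₊
    have g2 := hd' (⌊θ⌋₊ + 1)
    push_cast at g2
    rw [abs_of_nonneg (by linarith)] at g1
    rw [abs_of_neg (by linarith)] at g2
    have hj : ((⌊θ⌋₊ : ℕ) : ℝ) < Ex T o Y ψ := by linarith
    obtain ⟨-, b2, -, -, b5⟩ := ray_of_lt hT hY hj
    obtain ⟨c1, c2, -⟩ := b2 _ le_rfl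
    refine ⟨_, _, c1, ?_⟩
    rw [tau_up c1, c2]
    have h3 : θ - (⌊θ⌋₊ : ℕ) ≤ ψ (ray T o ψ ⌊θ⌋₊) (ray T o ψ (⌊θ⌋₊ + 1)) := by
      rcases lt_or_ge (ψ (ray T o ψ ⌊θ⌋₊) (ray T o ψ (⌊θ⌋₊ + 1))) 1 with h8 | h8
      · have := b5 h8
        linarith
      · linarith
    have h4 : max 0 (θ - ((⌊θ⌋₊ : ℕ) : ℝ)) = θ - ((⌊θ⌋₊ : ℕ) : ℝ) := max_eq_right (by linarith)
    rw [h4, min_eq_right h3]
    constructor <;> linarith

theorem tau_add (hT : T.IsTree) {ψ : Th T} {o : V} {θ : ℝ} {u v : V} (h : T.Adj u v) :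
    tau T o θ ψ u v + tau T o θ ψ v u = 1 := by
  rcases up_or hT o h with h1 | h1
  · unfold tau
    rw [if_pos h1, if_neg h1.asymm]
    ring
  · unfold tau
    rw [if_pos h1, if_neg h1.asymm]
    ring

end Pool.Agent.H76.GT
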