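import Pool.Agent.H76.GU.Tht
import Pool.Agent.H76.GU.Tau
import Pool.Agent.H76.GT.Idx

/-!
# H76 GU, LgE: the family of the edges of a tree
-/

set_option autoImplicit false

namespace Pool.Agent.H76.GT

open Pool.Agent.H98.FJ

open scoped Pointwise

variable {G V : Type} [Group G] [MulAction G V] {T : SimpleGraph V}

/-- the point at distance `tht` from `g o` is in the middle of the edge `e` -/
def WE (T : SimpleGraph V) (o : V) (X : ℕ → Set V) (M L : ℕ) (e : Set V) (g : G) : Set (Th T) :=
  {ψ | Ex T (g • o) ((fun x => g • x) '' X M) ψ < L ∧ ∃ u w, e = {u, w} ∧ Up T (g • o) u w ∧ 1 / 5 < ψ u w ∧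
    1 / 5 < tht T o X M g ψ - T.dist (g • o) u ∧ tht T o X M g ψ - T.dist (g • o) u < 4 / 5}

/-- the setwise stabiliser of an edge is in the class. Proof. The elements of `H = stabilizer G {u, w}` which fix `u` (hence
`w`) form a subgroup of index at most two in `H`, which is isomorphic to a subgroup of `stabilizer G u`
(`Inherits.index`, `sub`, `iso`). -/
theorem stab_pair {C : (G : Type) → [Group G] → Prop} (hC : Inherits C) (hst : ∀ x : V, C (MulAction.stabilizer G x))
    {u w : V} (h : u ≠ w) : C (MulAction.stabilizer G ({u, w} : Set V)) := by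
  obtain ⟨H, hH⟩ : ∃ H : Subgroup G, H = MulAction.stabilizer G ({u, w} : Set V) := ⟨_, rfl⟩
  rw [← hH]
  have horb : MulAction.orbit H u ⊆ ({u, w} : Set V) := by
    rintro _ ⟨g, rfl⟩
    have hg : (g : G) ∈ MulAction.stabilizer G ({u, w} : Set V) := hH ▸ g.2
    have h1 : (g : G) • ({u, w} : Set V) = {u, w} := hg
    have h2 : (g : G) • u ∈ (g : G) • ({u, w} : Set V) := Set.smul_mem_smul_set (Set.mem_insert u {w})
    rw [h1] at h2
    exact h2
  have hfin : (MulAction.orbit H u).Finite := ((Set.finite_singleton w).insert u).subset horb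
  have hidx : (MulAction.stabilizer H u).FiniteIndex := by
    refine ⟨?_⟩
    rw [MulAction.index_stabilizer]
    intro h0
    rw [Set.ncard_eq_zero hfin] at h0
    have h3 : u ∈ MulAction.orbit H u := MulAction.mem_orbit_self u
    rw [h0] at h3
    exact h3
  refine hC.index H (MulAction.stabilizer H u) hidx ?_
  refine hC.iso (H.subgroupOf (MulAction.stabilizer G u)) (MulAction.stabilizer H u) ?_
    (hC.sub _ (H.subgroupOf (MulAction.stabilizer G u)) (hst u))
  exact
    { toFun := fun q => ⟨⟨q.1.1, q.2⟩, q.1.2⟩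
      invFun := fun q => ⟨⟨q.1.1, q.2⟩, q.1.2⟩
      left_inv := fun _ => rfl
      right_inv := fun _ => rfl
      map_mul' := fun _ _ => rfl }

/-- the edge is determined by the point -/
private theorem we_uniq [Pres G T] (hT : T.IsTree) {o : V} {X : ℕ → Set V} {M L : ℕ} {g : G} {ψ : Th T} {e e' : Set V}
    (h : ψ ∈ WE T o X M L e g) (h' : ψ ∈ WE T o X M L e' g) : e = e' := by
  obtain ⟨-, u, w, he, hu, hp, h1, h2⟩ := h
  obtain ⟨-, u', w', he', hu', hp', h1', h2'⟩ := h'
  have hd : T.dist (g • o) u = T.dist (g • o) u' := by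
    rcases Nat.lt_trichotomy (T.dist (g • o) u) (T.dist (g • o) u') with hlt | heq | hgt
    · exfalso
      have h3 : ((T.dist (g • o) u : ℕ) : ℝ) + 1 ≤ (T.dist (g • o) u' : ℕ) := by exact_mod_cast hlt
      linarith
    · exact heq
    · exfalso
      have h3 : ((T.dist (g • o) u' : ℕ) : ℝ) + 1 ≤ (T.dist (g • o) u : ℕ) := by exact_mod_cast hgt
      linarith
  obtain ⟨r1, r2, -⟩ := ray_of_pos hT hu (ψ := ψ) (by linarith)
  obtain ⟨r1', r2', -⟩ := ray_of_pos hT hu' (ψ := ψ) (by linarith)
  rw [hd] at r1 r2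
  rw [he, he', ← r1, ← r2, r1', r2']

/-- Proof. As for `isFam_WV`: `dist (g o) u = ⌊tht⌋`, `u = ray (dist (g o) u)`, `w = ray (dist (g o) u + 1)`. -/
theorem isFam_WE {C : (G : Type) → [Group G] → Prop} (hC : Inherits C) [Pres G T] (hT : T.IsTree)
    (hst : ∀ x : V, C (MulAction.stabilizer G x))
    {o : V} {S : Set G} {X : ℕ → Set V} {c : ℕ} (hF : Filt T o S X c) (M L : ℕ) :
    IsFam C 1 (fun (e : Set V) (g : G) => WE T o X M L e g) where
  isOpen e g := by
    have h1 : WE T o X M L e g = {ψ : Th T | Ex T (g • o) ((fun x => g • x) '' X M) ψ < L} ∩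
        ⋃ (u : V) (w : V) (_ : e = {u, w} ∧ Up T (g • o) u w), {ψ : Th T | 1 / 5 < ψ u w ∧
          1 / 5 < tht T o X M g ψ - T.dist (g • o) u ∧ tht T o X M g ψ - T.dist (g • o) u < 4 / 5} := by
      ext ψ
      simp only [Set.mem_inter_iff, Set.mem_iUnion, Set.mem_setOf_eq]
      constructor
      · rintro ⟨a, u, w, b, c, d⟩
        exact ⟨a, u, w, ⟨b, c⟩, d⟩
      · rintro ⟨a, u, w, ⟨b, c⟩, d⟩
        exact ⟨a, u, w, b, c, d⟩
    rw [h1]
    have hc := tht_continuous hT hF M g
    refine IsOpen.inter (isOpen_lt (ex_continuous hT _ (hF.cvx_smul hT g M).fin) continuous_const) ?_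
    refine isOpen_iUnion fun u => isOpen_iUnion fun w => isOpen_iUnion fun _ => ?_
    refine IsOpen.and (isOpen_lt continuous_const (Th.continuous_apply u w)) ?_
    exact IsOpen.and (isOpen_lt continuous_const (hc.sub continuous_const))
      (isOpen_lt (hc.sub continuous_const) continuous_const)
  equiv e g h ψ hψ := by
    obtain ⟨a, u, w, he, hu, hp, h1, h2⟩ := hψ
    have ho : (g * h) • o = g • (h • o) := mul_smul g h o
    refine ⟨?_, g • u, g • w, ?_, ?_, ?_, ?_, ?_⟩
    · have himg : (fun x => (g * h) • x) '' X M = (fun x => g • x) '' ((fun x => h • x) '' X M) := by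
        rw [Set.image_image]
        exact Set.image_congr fun x _ => mul_smul g h x
      rw [ho, himg, ex_smul hT]
      exact a
    · rw [he, Set.smul_set_insert, Set.smul_set_singleton]
    · rw [ho]
      exact (up_smul hT g _ _ _).2 hu
    · rw [Th.smul_apply_smul]
      exact hp
    · rw [ho, dist_smul hT, tht_smul hT]
      exact h1
    · rw [ho, dist_smul hT, tht_smul hT]
      exact h2
  eq e g h ψ h1 h2 := (we_uniq hT h1 h2).symm
  stab e h ψ hψ := by
    obtain ⟨-, u, w, he, hu, -⟩ := hψ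
    rw [he]
    exact stab_pair hC hst hu.adj.ne
  mult h ψ := by
    rw [Nat.cast_one, Set.encard_le_one_iff]
    intro a b ha hb
    exact we_uniq hT ha hb

end Pool.Agent.H76.GT
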