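import Pool.Agent.H76.GU.LgV
import Pool.Agent.H76.GU.LgE

/-!
# H76 GU, Lg: the vertex and edge families are wide where the exit is early
-/

set_option autoImplicit false

namespace Pool.Agent.H76.GT

variable {G V : Type} [Group G] [MulAction G V] {T : SimpleGraph V}

/-- Proof. Let `h` be a height (`exists_height`), `θ g = tht g ψ`. By `ex_right`, `height_le` the exit of `g s (X M)` is
`< L` for all `s ∈ S`, also for `s = 1`. `tht_shift`: `|(θ (g s) + h (g s o)) - (θ g + h (g o))| ≤ L / M ≤ 1 / 20`, hence by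
`tau_near` (with `Y = g (X 0)`, `Y' = g s (X 0)`, `ex_le_tht`) the positions of the points `tau` differ by at most `1 / 20`
on every dart. `tau_cases` for `g` (with `Y = g (X M)`), and `tau_vertex`, `tau_edge` for `g s`: `8 / 25 + 1 / 20 < 2 / 5`;
for an edge the positions are in `[1 / 4, 3 / 4]`, the same for the opposite dart (`tau_add`, if `Up T (g s o) w u`). -/
theorem large_wide [Pres G T] (hT : T.IsTree) {o : V} {S : Set G} {X : ℕ → Set V} {c : ℕ} (hF : Filt T o S X c)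
    (h1 : (1 : G) ∈ S) (hS : ∀ s ∈ S, s⁻¹ ∈ S) {R : ℕ} (hR : ∀ s ∈ S, T.dist o (s • o) ≤ R) {M L : ℕ} (hL : 0 < L)
    (hM : 20 * L ≤ M) (g : G) (ψ : Th T) (h : Ex T (g • o) ((fun x => g • x) '' X (M + 1)) ψ < (L : ℝ) - R) :
    (∃ y, ∀ s ∈ S, ψ ∈ WV T o X M L y (g * s)) ∨ ∃ e, ∀ s ∈ S, ψ ∈ WE T o X M L e (g * s) := by
  obtain ⟨ht, hh⟩ := exists_height hT ψ
  have hM0 : 0 < M := by omega
  have hM' : (0 : ℝ) < M := by exact_mod_cast hM0
  have hex : ∀ s ∈ S, Ex T ((g * s) • o) ((fun x => (g * s) • x) '' X M) ψ < L := by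
    intro s hs
    have e1 := ex_right hT hF hh hs g M
    have e2 := height_le hT hh (g • o) ((g * s) • o)
    rw [mul_smul, dist_smul hT] at e2
    rw [mul_smul] at e1
    have e3 : ((T.dist o (s • o) : ℕ) : ℝ) ≤ R := by exact_mod_cast hR s hs
    rw [abs_le] at e2
    rw [mul_smul]
    linarith [e2.2]
  have hex1 : Ex T (g • o) ((fun x => g • x) '' X M) ψ < L := by
    have e1 := hex 1 h1
    rwa [mul_one] at e1
  have hLM : (L : ℝ) / M ≤ 1 / 20 := by
    rw [div_le_iff₀ hM']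
    have e1 : (20 : ℝ) * L ≤ M := by exact_mod_cast hM
    linarith
  have hnear : ∀ s ∈ S, ∀ u v, T.Adj u v →
      |tau T (g • o) (tht T o X M g ψ) ψ u v - tau T ((g * s) • o) (tht T o X M (g * s) ψ) ψ u v| ≤ 1 / 20 := by
    intro s hs u v huv
    have e1 := tau_near hT hh (hF.cvx_smul hT g 0) (hF.mem_right hs g 0) (hF.cvx_smul hT (g * s) 0)
      (hF.mem_left (hS s hs) g 0) (ex_le_tht hT hF hM0 g ψ) (ex_le_tht hT hF hM0 (g * s) ψ) huv
    have e2 := tht_shift hT hF hh hs (hS s hs) g hM0 hex1.le (hex s hs).le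
    rw [abs_sub_comm] at e2
    exact e1.trans (e2.trans hLM)
  have h0 : 0 ≤ tht T o X M g ψ := (ex_nonneg _ _ _).trans (ex_le_tht hT hF hM0 g ψ)
  rcases tau_cases hT (hF.cvx_smul hT g M) h0 (tht_le_ex hT hF hM0 g ψ) with ⟨y, hy⟩ | ⟨u, w, huw, h3, h4⟩
  · refine Or.inl ⟨y, fun s hs => ?_⟩
    have h0' : 0 ≤ tht T o X M (g * s) ψ := (ex_nonneg _ _ _).trans (ex_le_tht hT hF hM0 (g * s) ψ)
    have e1 := (tau_vertex hT (hF.cvx_smul hT (g * s) M) h0' (tht_le_ex hT hF hM0 (g * s) ψ)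
      (show (0 : ℝ) < 2 / 5 by norm_num) (by norm_num) y).1 (fun u hu => by
        have e2 := hnear s hs y u hu
        have e3 := hy u hu
        rw [abs_le] at e2
        linarith [e2.1])
    refine ⟨hex s hs, e1.1, ?_⟩
    rcases e1.2 with e2 | ⟨u, e2, e3⟩
    · exact Or.inl e2
    · exact Or.inr ⟨u, e2, by linarith⟩
  · refine Or.inr ⟨{u, w}, fun s hs => ?_⟩
    have e2 := hnear s hs u w huw.adj
    rw [abs_le] at e2
    rcases up_or hT ((g * s) • o) huw.adj with h5 | h5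
    · have e3 := (tau_edge hT (hF.cvx_smul hT (g * s) M) (tht_le_ex hT hF hM0 (g * s) ψ) h5).1
        ⟨by linarith [e2.2], by linarith [e2.1]⟩
      exact ⟨hex s hs, u, w, rfl, h5, e3⟩
    · have e4 : tau T ((g * s) • o) (tht T o X M (g * s) ψ) ψ u w + tau T ((g * s) • o) (tht T o X M (g * s) ψ) ψ w u = 1 :=
        tau_add hT huw.adj
      have e3 := (tau_edge hT (hF.cvx_smul hT (g * s) M) (tht_le_ex hT hF hM0 (g * s) ψ) h5).1
        ⟨by linarith [e2.1], by linarith [e2.2]⟩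
      exact ⟨hex s hs, w, u, Set.pair_comm u w, h5, e3⟩

end Pool.Agent.H76.GT
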