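import Pool.Agent.H76.GU.Sm
import Pool.Agent.H76.GU.Flt
import Pool.Agent.H76.GU.Lg
import Pool.Agent.H76.GU.FamP
import Pool.Agent.H76.GU.Dom
import Pool.Agent.H76.GU.Ctr
import Pool.Agent.H76.GU.TrT

/-!
# H76 GU, PTL: the theorem on products of trees
-/

set_option autoImplicit false

namespace Pool.Agent.H76.GT

open Pool.Agent.H98.FJ Pool.Agent.H54.AX

open scoped Pointwise

/-- the cover for a finite symmetric set which contains `1` -/
private theorem cover_sym {C : (G : Type) → [Group G] → Prop} (hC : Inherits C) {G : Type} [Group G] {n : ℕ} (hn : 0 < n)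
    {V : Fin n → Type} [∀ k, MulAction G (V k)] (T : ∀ k, SimpleGraph (V k)) [∀ k, Pres G (T k)] (ht : ∀ k, (T k).IsTree)
    (o : ∀ k, V k) (hst : ∀ k (x : V k), C (MulAction.stabilizer G x)) {q : ℕ} (hR : LocRig C (G := G) T q) (S : Set G)
    (hS : S.Finite) (h1 : (1 : G) ∈ S) (hinv : ∀ s ∈ S, s⁻¹ ∈ S) :
    ∃ U : Set (Set (G × (∀ k, Th (T k)))), IsCover C (2 * n + q + 3 ^ n) S U := by
  classical
  -- the bound for the distances
  obtain ⟨R, hRd⟩ : ∃ R : ℕ, ∀ k, ∀ s ∈ S, (T k).dist (o k) (s • o k) ≤ R := by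
    refine ⟨∑ k, ∑ s ∈ hS.toFinset, (T k).dist (o k) (s • o k), fun k s hs => ?_⟩
    have e1 : (T k).dist (o k) (s • o k) ≤ ∑ s ∈ hS.toFinset, (T k).dist (o k) (s • o k) :=
      Finset.single_le_sum (f := fun s => (T k).dist (o k) (s • o k)) (fun _ _ => Nat.zero_le _)
        (hS.mem_toFinset.2 hs)
    exact e1.trans (Finset.single_le_sum (f := fun k => ∑ s ∈ hS.toFinset, (T k).dist (o k) (s • o k))
      (fun _ _ => Nat.zero_le _) (Finset.mem_univ k))
  choose X cc hF using fun k => exists_filt (ht k) (o k) hS h1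
  -- the growth constant
  obtain ⟨c1, h1c, hc1⟩ : ∃ c1 : ℕ, 1 ≤ c1 ∧ ∀ k, cc k ≤ c1 := by
    refine ⟨1 + ∑ k, cc k, Nat.le_add_right _ _, fun k => ?_⟩
    exact (Finset.single_le_sum (f := cc) (fun _ _ => Nat.zero_le _) (Finset.mem_univ k)).trans (Nat.le_add_left _ _)
  obtain ⟨c0, hc0⟩ := small_rules hC hn T hst hR R (c1 ^ 100)
  obtain ⟨c, hcc, hcR⟩ : ∃ c : ℕ, c0 ≤ c ∧ R < c := ⟨c0 + R + 1, by omega, by omega⟩
  obtain ⟨L, hL⟩ : ∃ L : ℕ, L = 4 * c := ⟨_, rfl⟩
  obtain ⟨M, hM⟩ : ∃ M : ℕ, M = 20 * L := ⟨_, rfl⟩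
  have hcvx : ∀ k, Cvx (T k) (o k) (X k (M + 2)) := fun k => (hF k).cvx (M + 2)
  obtain ⟨Φ, hΦ, hΦN, hΦw⟩ := hc0 c hcc (fun k => X k (M + 2)) (fun k => (hcvx k).fin) (fun k => by
    calc (X k (M + 2)).ncard ≤ cc k ^ (M + 2 + 1) := (hF k).card (M + 2)
      _ ≤ c1 ^ (M + 2 + 1) := Nat.pow_le_pow_left (hc1 k) _
      _ ≤ c1 ^ (100 * c) := Nat.pow_le_pow_right h1c (by omega)
      _ = (c1 ^ 100) ^ c := pow_mul c1 100 c)
  -- the families
  let Ψ : Fin n ⊕ Fin n ⊕ Option (Fin q) → Fam G (∀ k, Th (T k)) := fun t => match t with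
    | Sum.inl k => ⟨V k, inferInstance, fun y g => (fun ψ : ∀ k, Th (T k) => ψ k) ⁻¹' WV (T k) (o k) (X k) M L y g, 1⟩
    | Sum.inr (Sum.inl k) =>
      ⟨Set (V k), inferInstance, fun e g => (fun ψ : ∀ k, Th (T k) => ψ k) ⁻¹' WE (T k) (o k) (X k) M L e g, 1⟩
    | Sum.inr (Sum.inr t) => ⟨(Φ t).I, (Φ t).act,
        fun x g => {ψ : ∀ k, Th (T k) | ψ ∈ Rgn T o c (fun k => X k (M + 2)) g ∧ (Φ t).Q (flt T o c g ψ) x}, (Φ t).N⟩
  refine exists_cover_fam hC Ψ ?_ ?_ S ?_ ⟨1, h1⟩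
  · rintro (k | k | t)
    · exact (isFam_WV (ht k) (hst k) (hF k) M L).comap (continuous_apply k) (fun _ _ => rfl)
    · exact (isFam_WE hC (ht k) (hst k) (hF k) M L).comap (continuous_apply k) (fun _ _ => rfl)
    · letI : MulAction G (Φ t).I := (Φ t).act
      exact isFam_rul ht hcvx (hΦ t)
  · rw [Fintype.sum_sum_type, Fintype.sum_sum_type]
    have e1 : ∑ k : Fin n, (Ψ (Sum.inl k)).N = n := by
      show ∑ _k : Fin n, 1 = n
      rw [Finset.sum_const, Finset.card_univ, Fintype.card_fin, smul_eq_mul, mul_one]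
    have e2 : ∑ k : Fin n, (Ψ (Sum.inr (Sum.inl k))).N = n := by
      show ∑ _k : Fin n, 1 = n
      rw [Finset.sum_const, Finset.card_univ, Fintype.card_fin, smul_eq_mul, mul_one]
    have e3 : ∑ t : Option (Fin q), (Ψ (Sum.inr (Sum.inr t))).N = q + 3 ^ n := hΦN
    have e4 : n + (n + (q + 3 ^ n)) ≤ 2 * n + q + 3 ^ n + 1 := by
      generalize 3 ^ n = z
      omega
    exact (congrArg₂ (fun a b : ℕ => a + b) e1 (congrArg₂ (fun a b : ℕ => a + b) e2 e3)).trans_le e4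
  · intro g ψ
    by_cases hk : ∃ k, Ex (T k) (g • o k) ((fun x => g • x) '' X k (M + 1)) (ψ k) < (L : ℝ) - R
    · obtain ⟨k, hk⟩ := hk
      rcases large_wide (ht k) (hF k) h1 hinv (hRd k) (by omega : 0 < L) hM.ge g (ψ k) hk with ⟨y, hy⟩ | ⟨e, he⟩
      · exact ⟨Sum.inl k, y, hy⟩
      · exact ⟨Sum.inr (Sum.inl k), e, he⟩
    · have hrgn : ∀ s ∈ S, ψ ∈ Rgn T o c (fun k => X k (M + 2)) (g * s) := by
        intro s hs k
        have hk' : (L : ℝ) - R ≤ Ex (T k) (g • o k) ((fun x => g • x) '' X k (M + 1)) (ψ k) := by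
          by_contra hlt
          exact hk ⟨k, not_le.1 hlt⟩
        obtain ⟨h, hh⟩ := exists_height (ht k) (ψ k)
        have e1 := ex_left (ht k) (hF k) hh (hinv s hs) g (M + 1)
        have e2 := height_le (ht k) hh (g • o k) ((g * s) • o k)
        have e3 : (T k).dist (g • o k) ((g * s) • o k) ≤ R := by
          rw [mul_smul, dist_smul (ht k)]
          exact hRd k s hs
        have e4 : (((T k).dist (g • o k) ((g * s) • o k) : ℕ) : ℝ) ≤ R := by exact_mod_cast e3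
        rw [abs_le] at e2
        have e5 : (L : ℝ) = 4 * c := by
          rw [hL]
          push_cast
          ring
        have e6 : (R : ℝ) + 1 ≤ c := by exact_mod_cast hcR
        show (2 * c + 1 : ℝ) < Ex (T k) ((g * s) • o k) ((fun x => (g * s) • x) '' X k (M + 1 + 1)) (ψ k)
        linarith [e2.1, e2.2]
      have hg : ψ ∈ Rgn T o c (fun k => X k (M + 2)) g := by
        have := hrgn 1 h1
        rwa [mul_one] at this
      obtain ⟨t, x, hx⟩ := hΦw (flt T o c g ψ) (fla_flt ht hcvx hg)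
      refine ⟨Sum.inr (Sum.inr t), x, fun s hs => ?_⟩
      obtain ⟨δ, hδ, hsh⟩ := flt_shf ht hcvx hcR (fun k => hRd k s hs)
        (fun k => (hF k).mono_le (Nat.zero_le (M + 2)) ((hF k).base s hs)) hg
      exact ⟨hrgn s hs, hx _ δ hδ (fla_flt ht hcvx (hrgn s hs)) hsh⟩

/-- The cover for one finite set `S`.
Proof. We may assume `1 ∈ S`, `S⁻¹ = S`. `R` = maximum of the distances of `o k` and `s (o k)`, `exists_filt` for every `k`, `c1`
a common growth constant (at least one), `E = c1 ^ 100`, `small_rules` gives `c0`; let `c ≥ c0, R + 1`, `L = 4 c`, `M = 20 L`,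
`Y k = X k (M + 2)`, `ncard ≤ c1 ^ (80 c + 3) ≤ E ^ c`. Families (index set `Fin n ⊕ Fin n ⊕ Option (Fin q)`): `WV`, `WE` of the
tree `k`, pulled back along the projection (`IsFam.comap`), multiplicity `1`; `isFam_rul` for the rules. Wide: if for some `k`
the exit of `g (X k (M + 1))` is `< L - R`: `large_wide`. Otherwise for all `s ∈ S` and `k` the exit of `g s (X k (M + 2))` is at
least `L - 2 R > 2 c + 1` (`ex_left`, `exists_height`, `height_le`), so `ψ ∈ Rgn` for `g` and for `g s`, and `small_rules` for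
`f = flt g ψ`, `f' = flt (g s) ψ` (`flt_shf`, `fla_flt`). Sum of the multiplicities `2 n + q + 3 ^ n`. -/
theorem exists_cover_pt {C : (G : Type) → [Group G] → Prop} (hC : Inherits C) {G : Type} [Group G] {n : ℕ} (hn : 0 < n)
    {V : Fin n → Type} [∀ k, MulAction G (V k)] (T : ∀ k, SimpleGraph (V k)) [∀ k, Pres G (T k)] (ht : ∀ k, (T k).IsTree)
    (o : ∀ k, V k) (hst : ∀ k (x : V k), C (MulAction.stabilizer G x)) {q : ℕ} (hR : LocRig C (G := G) T q) (S : Set G)
    (hS : S.Finite) : ∃ U : Set (Set (G × (∀ k, Th (T k)))), IsCover C (2 * n + q + 3 ^ n) S U := by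
  obtain ⟨U, hU⟩ := cover_sym hC hn T ht o hst hR ({1} ∪ (S ∪ S⁻¹)) ((Set.finite_singleton 1).union (hS.union hS.inv))
    (Or.inl rfl) (by
      rintro s (hs | hs | hs)
      · have e : s = 1 := hs
        rw [e, inv_one]
        exact Or.inl rfl
      · exact Or.inr (Or.inr (by rwa [Set.mem_inv, inv_inv]))
      · exact Or.inr (Or.inl hs))
  refine ⟨U, hU.isOpen, hU.inv, hU.eq, hU.stab, hU.mult, fun g x => ?_⟩
  obtain ⟨u, hu, h⟩ := hU.wide g x
  exact ⟨u, hu, fun s hs => h s (Or.inr (Or.inl hs))⟩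

/-- Proof. `transfer_top` with `exists_dom`, `contractible`, `exists_cover_pt`. -/
theorem pt_loc {C : (G : Type) → [Group G] → Prop} (hC : Inherits C) (hT : Transfer C) {G : Type} [Group G]
    (hfg : Group.FG G) {n : ℕ} (hn : 0 < n) {V : Fin n → Type} [∀ k, Countable (V k)] [∀ k, Nonempty (V k)]
    [∀ k, MulAction G (V k)] (T : ∀ k, SimpleGraph (V k)) [∀ k, Pres G (T k)] (ht : ∀ k, (T k).IsTree)
    (hst : ∀ k (x : V k), C (MulAction.stabilizer G x)) {q : ℕ} (hR : LocRig C (G := G) T q) : C G := by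
  obtain ⟨o⟩ : Nonempty (∀ k, V k) := inferInstance
  have hcs : ContractibleSpace (∀ k, Th (T k)) := contractible ht o
  have hN : n ≤ 2 * n + q + 3 ^ n := by
    generalize 3 ^ n = z
    omega
  exact transfer_top (X := ∀ k, Th (T k)) (n := n) (N := 2 * n + q + 3 ^ n) hT hN hfg
    (fun W hW h => exists_dom ht o hW h) (fun S hS => exists_cover_pt hC hn T ht o hst hR S hS)

end Pool.Agent.H76.GT
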