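import Pool.Agent.H54.AX.Rig
import Pool.Agent.H76.GT.PTs
import Pool.Agent.H76.GT.DefsT

/-!
# H76 GU, RigL: rigidity implies local rigidity
-/

set_option autoImplicit false

namespace Pool.Agent.H76.GT

open Pool.Agent.H98.FJ Pool.Agent.H54.AX

/-- the pointwise stabiliser of the middle part of radius `m` of a box of radius `r` -/
private def rlFx (G : Type) [Group G] {n : ℕ} {V : Fin n → Type} [∀ k, MulAction G (V k)] (m : ℕ) {r : ℕ}
    (B : Bx V r) : Subgroup G where
  carrier := {g | ∀ k (i : Fin (2 * r + 1)), |((i : ℕ) : ℤ) - r| ≤ m → g • B k i = B k i}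
  mul_mem' := by
    intro g h hg hh k i hi
    rw [mul_smul, hh k i hi, hg k i hi]
  one_mem' := fun k i _ => one_smul _ _
  inv_mem' := by
    intro g hg k i hi
    rw [inv_smul_eq_iff, hg k i hi]

private theorem rl_mem {G : Type} [Group G] {n : ℕ} {V : Fin n → Type} [∀ k, MulAction G (V k)] {m : ℕ} {r : ℕ}
    {B : Bx V r} {g : G} : g ∈ rlFx G m B ↔
      ∀ k (i : Fin (2 * r + 1)), |((i : ℕ) : ℤ) - r| ≤ m → g • B k i = B k i := Iff.rfl

/-- the pointwise stabiliser of the part of radius `m` of the paths `f` at the position `δ` -/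
private def rlS (G : Type) [Group G] {n : ℕ} {V : Fin n → Type} [∀ k, MulAction G (V k)] (m : ℕ)
    (δ : Fin n → ℤ) (f : ∀ k, ℤ → V k) : Subgroup G where
  carrier := {g | ∀ k (s : ℤ), |s - δ k| ≤ m → g • f k s = f k s}
  mul_mem' := by
    intro g h hg hh k i hi
    rw [mul_smul, hh k i hi, hg k i hi]
  one_mem' := fun k i _ => one_smul _ _
  inv_mem' := by
    intro g hg k i hi
    rw [inv_smul_eq_iff, hg k i hi]

private theorem rlFx_bx {G : Type} [Group G] {n : ℕ} {V : Fin n → Type} [∀ k, MulAction G (V k)] {m r : ℕ}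
    (hm : m ≤ r) (δ : Fin n → ℤ) (f : ∀ k, ℤ → V k) : rlFx G m (bx r δ f) = rlS G m δ f := by
  ext g
  constructor
  · intro hg k s hs
    have h1 := abs_le.1 hs
    have h2 : (0 : ℤ) ≤ s - δ k + r := by omega
    have h3 : (s - δ k + r).toNat < 2 * r + 1 := by omega
    have h4 := hg k ⟨(s - δ k + r).toNat, h3⟩ (by
      show |(((s - δ k + r).toNat : ℕ) : ℤ) - r| ≤ m
      rw [Int.toNat_of_nonneg h2, abs_le]
      omega)
    have h5 : bx r δ f k ⟨(s - δ k + r).toNat, h3⟩ = f k s := by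
      show f k (δ k - r + (((s - δ k + r).toNat : ℕ) : ℤ)) = f k s
      rw [Int.toNat_of_nonneg h2]
      congr 1
      ring
    rwa [h5] at h4
  · intro hg k i hi
    refine hg k (δ k - r + (i : ℕ)) ?_
    have h1 := abs_le.1 hi
    rw [abs_le]
    omega

private theorem rlS_le {G : Type} [Group G] {n : ℕ} {V : Fin n → Type} [∀ k, MulAction G (V k)] {m m' : ℕ}
    {δ δ' : Fin n → ℤ} {f : ∀ k, ℤ → V k} (h : ∀ k, |δ k - δ' k| + m' ≤ m) : rlS G m δ f ≤ rlS G m' δ' f := by
  intro g hg k s hs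
  refine hg k s ?_
  have h1 := h k
  have h2 : |s - δ k| ≤ |s - δ' k| + |δ k - δ' k| := by
    have h3 : s - δ k = (s - δ' k) - (δ k - δ' k) := by ring
    rw [h3]
    exact abs_sub _ _
  omega

private theorem rlFx_conj {G : Type} [Group G] {n : ℕ} {V : Fin n → Type} [∀ k, MulAction G (V k)] {m r : ℕ}
    (B : Bx V r) (g : G) : rlFx G m (g • B) = (rlFx G m B).map (MulAut.conj g).toMonoidHom := by
  ext x
  rw [Subgroup.mem_map]
  constructor
  · intro hx
    refine ⟨g⁻¹ * x * g, ?_, ?_⟩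
    · intro k i hi
      have h1 : x • g • B k i = g • B k i := hx k i hi
      rw [mul_smul, mul_smul, h1, inv_smul_smul]
    · show g * (g⁻¹ * x * g) * g⁻¹ = x
      group
  · rintro ⟨y, hy, rfl⟩ k i hi
    show (g * y * g⁻¹) • g • B k i = g • B k i
    have h1 : y • B k i = B k i := hy k i hi
    rw [mul_smul, mul_smul, inv_smul_smul, h1]

/-- Proof. Given `R`, `a` let `r = 5 R + 1 + 2 a`. For a box `B` of radius `r` and `m ≤ r` let `fx m B` be the pointwise
stabiliser of the middle part of radius `m` (the entries `B k i` with `|i - r| ≤ m`). The three objects (`Ω t = Ω` for all `t`):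
`t = 0, 1` with `m = R + 1`, `m = 3 R + 1`: `2 ≤ d (fx m B) ≤ 3 ∧ O (fx m B) = o`;
`t = 2`: `fx (5 R + 1) B = ⊥ ∧ ∃ h v, |v| ≤ a ∧ h ^ 2 ≠ 1 ∧ (h translates the middle part of radius r - a of B by v) ∧ O' h = o`.
Uniqueness for `t = 2`: for two such `h`, `h'` the elements `h h'`, `h' h` agree on the middle part of radius
`r - 2 a ≥ 5 R + 1`, so they are equal; `O'_eq`. Equivariance: `fx m (g B) = g (fx m B) g⁻¹`, `d_conj`, `O_conj`, `O'_conj`.
Alternative: let `d j` be the rank of the stabiliser of the middle part of radius `K j` at the position `0` of `f`, for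
`K 0 = 1`, `K 1 = 2 R + 1`, `K 2 = 4 R + 1`; all are at most three (`three`: `f k 0`, `f k 1` are adjacent, `n > 0`), and
decreasing (`mono`). If `d 0 = d 1 ≥ 2`: object `0`: the stabiliser of the part of radius `R + 1` at `δ` lies between those
of radius `K 1` and `K 0` at `0`, so `mono`, `eq` (with `d` constant) give the same `O`. If `d 1 = d 2 ≥ 2`: object `1`.
Otherwise `d 2 ≤ 1`, so the stabiliser of radius `4 R + 1` is trivial (`bot`), and so are those of radius `5 R + 1` at `δ`. If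
some `h` translates the box of radius `r + R` by `v ≠ 0`, `|v| ≤ a`: object `2` for all `δ`, with this `h`, `v`;
`h ^ 2 ≠ 1` because `h ^ 2` maps `f k 0` to `f k (2 v k)` and `f k` is a geodesic. -/
theorem rig_loc {C : (G : Type) → [Group G] → Prop} {G : Type} [Group G] {n : ℕ} (hn : 0 < n) {V : Fin n → Type}
    [∀ k, MulAction G (V k)] (T : ∀ k, SimpleGraph (V k)) {Ω : Type} [MulAction G Ω] {d : Subgroup G → ℕ}
    {O : Subgroup G → Ω} {O' : G → Ω} (hR : Rigid C T d O O') : LocRig C (G := G) T 3 := by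
  intro R a
  let r : ℕ := 5 * R + 1 + 2 * a
  let A : ℕ → Bx V r → Ω → Prop := fun m B o => 2 ≤ d (rlFx G m B) ∧ d (rlFx G m B) ≤ 3 ∧ O (rlFx G m B) = o
  let E : Bx V r → Ω → Prop := fun B o => rlFx G (5 * R + 1) B = ⊥ ∧ ∃ (h : G) (v : Fin n → ℤ),
    (∀ k, |v k| ≤ a) ∧ h ^ 2 ≠ 1 ∧ (∀ k (i j : Fin (2 * r + 1)), |((i : ℕ) : ℤ) - r| ≤ r - a →
      ((j : ℕ) : ℤ) = (i : ℕ) + v k → h • B k i = B k j) ∧ O' h = o
  have hr : (r : ℤ) = 5 * R + 1 + 2 * a := by simp [r]
  refine ⟨r, fun _ => Ω, fun _ => inferInstance, fun t B o => (t = 0 ∧ A (R + 1) B o) ∨ (t = 1 ∧ A (3 * R + 1) B o) ∨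
    (t = 2 ∧ E B o), ?_, ?_, ?_, ?_⟩
  · intro t B o o' h h'
    rcases h with ⟨ht, h⟩ | ⟨ht, h⟩ | ⟨ht, h⟩
    · subst ht
      rcases h' with ⟨-, h'⟩ | ⟨ht, h'⟩ | ⟨ht, h'⟩
      · exact h.2.2.symm.trans h'.2.2
      · exact absurd ht (by decide)
      · exact absurd ht (by decide)
    · subst ht
      rcases h' with ⟨ht, h'⟩ | ⟨-, h'⟩ | ⟨ht, h'⟩
      · exact absurd ht (by decide)
      · exact h.2.2.symm.trans h'.2.2
      · exact absurd ht (by decide)
    · subst ht
      rcases h' with ⟨ht, h'⟩ | ⟨ht, h'⟩ | ⟨-, h'⟩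
      · exact absurd ht (by decide)
      · exact absurd ht (by decide)
      · obtain ⟨hb, x, v, hv, hx, hxv, rfl⟩ := h
        obtain ⟨-, y, w, hw, hy, hyw, rfl⟩ := h'
        refine hR.O'_eq x y ?_ hx hy
        have key : ∀ (p q : G) (v w : Fin n → ℤ), (∀ k, |v k| ≤ a) → (∀ k, |w k| ≤ a) →
            (∀ k (i j : Fin (2 * r + 1)), |((i : ℕ) : ℤ) - r| ≤ r - a →
              ((j : ℕ) : ℤ) = (i : ℕ) + v k → p • B k i = B k j) →
            (∀ k (i j : Fin (2 * r + 1)), |((i : ℕ) : ℤ) - r| ≤ r - a →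
              ((j : ℕ) : ℤ) = (i : ℕ) + w k → q • B k i = B k j) →
            ∀ k (i j : Fin (2 * r + 1)), |((i : ℕ) : ℤ) - r| ≤ 5 * R + 1 →
              ((j : ℕ) : ℤ) = (i : ℕ) + v k + w k → (p * q) • B k i = B k j := by
          intro p q v w hv hw hp hq k i j hi hj
          have h1 := abs_le.1 hi
          have h2 := abs_le.1 (hw k)
          have h3 := abs_le.1 (hv k)
          have h4 : (0 : ℤ) ≤ (i : ℕ) + w k := by omega
          have h5 : ((i : ℕ) + w k).toNat < 2 * r + 1 := by omega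
          have h6 : ((((i : ℕ) + w k).toNat : ℕ) : ℤ) = (i : ℕ) + w k := Int.toNat_of_nonneg h4
          rw [mul_smul, hq k i ⟨((i : ℕ) + w k).toNat, h5⟩ (by rw [abs_le]; omega) h6]
          refine hp k _ j ?_ ?_
          · show |((((i : ℕ) + w k).toNat : ℕ) : ℤ) - r| ≤ r - a
            rw [h6, abs_le]
            omega
          · show ((j : ℕ) : ℤ) = ((((i : ℕ) + w k).toNat : ℕ) : ℤ) + v k
            rw [h6, hj]
            ring
        have hmem : (y * x)⁻¹ * (x * y) ∈ rlFx G (5 * R + 1) B := by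
          intro k i hi
          have hi' : |((i : ℕ) : ℤ) - r| ≤ 5 * R + 1 := by
            have := hi
            push_cast at this
            exact this
          have h1 := abs_le.1 hi'
          have h2 := abs_le.1 (hw k)
          have h3 := abs_le.1 (hv k)
          have h4 : (0 : ℤ) ≤ (i : ℕ) + v k + w k := by omega
          have h5 : ((i : ℕ) + v k + w k).toNat < 2 * r + 1 := by omega
          have h6 : ((((i : ℕ) + v k + w k).toNat : ℕ) : ℤ) = (i : ℕ) + v k + w k := Int.toNat_of_nonneg h4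
          have h7 := key x y v w hv hw hxv hyw k i ⟨((i : ℕ) + v k + w k).toNat, h5⟩ hi' h6
          have h8 := key y x w v hw hv hyw hxv k i ⟨((i : ℕ) + v k + w k).toNat, h5⟩ hi'
            (by rw [h6]; ring)
          rw [mul_smul, h7, ← h8, inv_smul_smul]
        rw [hb, Subgroup.mem_bot] at hmem
        have h9 := inv_mul_eq_one.1 hmem
        exact h9.symm
  · intro t B o g h
    have hA : ∀ m, A m B o → A m (g • B) (g • o) := by
      rintro m ⟨h1, h2, h3⟩
      refine ⟨?_, ?_, ?_⟩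
      · rw [rlFx_conj, hR.d_conj]
        exact h1
      · rw [rlFx_conj, hR.d_conj]
        exact h2
      · rw [rlFx_conj, hR.O_conj, h3]
    rcases h with ⟨ht, h⟩ | ⟨ht, h⟩ | ⟨ht, h⟩
    · exact Or.inl ⟨ht, hA _ h⟩
    · exact Or.inr (Or.inl ⟨ht, hA _ h⟩)
    · obtain ⟨hb, x, v, hv, hx, hxv, rfl⟩ := h
      refine Or.inr (Or.inr ⟨ht, ?_, g * x * g⁻¹, v, hv, ?_, ?_, hR.O'_conj g x⟩)
      · rw [rlFx_conj, hb, Subgroup.map_bot]
      · intro h1
        apply hx
        have h2 : (g * x * g⁻¹) ^ 2 = g * x ^ 2 * g⁻¹ := by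
          rw [pow_two, pow_two]
          group
        rw [h2] at h1
        have h3 : x ^ 2 = g⁻¹ * 1 * g := by
          rw [← h1]
          group
        rw [h3]
        group
      · intro k i j hi hj
        show (g * x * g⁻¹) • g • B k i = g • B k j
        rw [mul_smul, mul_smul, inv_smul_smul, hxv k i j hi hj]
  · intro t B o h
    rcases h with ⟨-, h⟩ | ⟨-, h⟩ | ⟨-, h⟩
    · obtain ⟨h1, h2, rfl⟩ := h
      exact hR.stab _ h1 h2
    · obtain ⟨h1, h2, rfl⟩ := h
      exact hR.stab _ h1 h2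
    · obtain ⟨-, x, v, -, hx, -, rfl⟩ := h
      exact hR.stab' x hx
  · intro f hf
    have three : ∀ m : ℕ, 1 ≤ m → d (rlS G m 0 f) ≤ 3 := by
      intro m hm
      refine hR.three _ ⟨fun k => ⟨f k 0, fun g hg => hg k 0 ?_⟩, ⟨0, hn⟩, f ⟨0, hn⟩ 0, f ⟨0, hn⟩ 1, ?_, ?_, ?_⟩
      · simp
      · have h1 := hf ⟨0, hn⟩ 0 1 (by simp; omega) (by
          rw [abs_one]
          push_cast
          omega)
        have h2 : (T ⟨0, hn⟩).dist (f ⟨0, hn⟩ 0) (f ⟨0, hn⟩ 1) = 1 := by
          have h3 : (|(0 : ℤ) - 1|) = 1 := by norm_num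
          rw [h3] at h1
          exact_mod_cast h1
        exact SimpleGraph.dist_eq_one_iff_adj.1 h2
      · intro g hg
        exact hg _ 0 (by simp)
      · intro g hg
        refine hg _ 1 ?_
        simp
        exact_mod_cast hm
    have hle1 : rlS G (2 * R + 1) 0 f ≤ rlS G 1 0 f := rlS_le (by intro k; simp)
    have hle2 : rlS G (4 * R + 1) 0 f ≤ rlS G (2 * R + 1) 0 f := rlS_le (by intro k; simp; omega)
    have hd0 := three 1 le_rfl
    have hd1 := hR.mono _ _ hle1
    have hd2 := hR.mono _ _ hle2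
    have obj : ∀ m m' p : ℕ, p + R ≤ m' → m + R ≤ p → d (rlS G m 0 f) = d (rlS G m' 0 f) → 2 ≤ d (rlS G m 0 f) →
        d (rlS G m 0 f) ≤ 3 → p ≤ r → ∀ δ : Fin n → ℤ, (∀ k, |δ k| ≤ R) →
        A p (bx r δ f) (O (rlS G m 0 f)) := by
      intro m m' p h1 h2 h3 h4 h5 h6 δ hδ
      have h7 : rlS G m' 0 f ≤ rlS G p δ f := rlS_le (by
        intro k
        have := hδ k
        rw [Pi.zero_apply, zero_sub, abs_neg]
        omega)
      have h8 : rlS G p δ f ≤ rlS G m 0 f := rlS_le (by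
        intro k
        have := hδ k
        rw [Pi.zero_apply, sub_zero]
        omega)
      have h9 := hR.mono _ _ h7
      have h10 := hR.mono _ _ h8
      have h11 : d (rlS G p δ f) = d (rlS G m 0 f) := by omega
      show 2 ≤ d (rlFx G p (bx r δ f)) ∧ d (rlFx G p (bx r δ f)) ≤ 3 ∧ O (rlFx G p (bx r δ f)) = _
      rw [rlFx_bx h6, h11]
      exact ⟨h4, h5, hR.eq _ _ h8 h11⟩
    by_cases hA : d (rlS G 1 0 f) = d (rlS G (2 * R + 1) 0 f) ∧ 2 ≤ d (rlS G 1 0 f)
    · left
      exact ⟨0, O (rlS G 1 0 f), fun δ hδ => Or.inl ⟨rfl, obj 1 (2 * R + 1) (R + 1) (by omega) (by omega) hA.1 hA.2 hd0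
        (by omega) δ hδ⟩⟩
    by_cases hB : d (rlS G (2 * R + 1) 0 f) = d (rlS G (4 * R + 1) 0 f) ∧ 2 ≤ d (rlS G (2 * R + 1) 0 f)
    · left
      exact ⟨1, O (rlS G (2 * R + 1) 0 f), fun δ hδ => Or.inr (Or.inl ⟨rfl, obj (2 * R + 1) (4 * R + 1) (3 * R + 1)
        (by omega) (by omega) hB.1 hB.2 (by omega) (by omega) δ hδ⟩)⟩
    have hbot : rlS G (4 * R + 1) 0 f = ⊥ := hR.bot _ (by omega)
    by_cases hv : ∃ v : Fin n → ℤ, v ≠ 0 ∧ (∀ k, |v k| ≤ a) ∧ ∃ h : G, Trn (r + R) f h v
    · left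
      obtain ⟨v, hv0, hva, h, hh⟩ := hv
      refine ⟨2, O' h, fun δ hδ => Or.inr (Or.inr ⟨rfl, ?_, h, v, hva, ?_, ?_, rfl⟩)⟩
      · rw [rlFx_bx (by omega), eq_bot_iff, ← hbot]
        refine rlS_le (fun k => ?_)
        have := hδ k
        rw [Pi.zero_apply, sub_zero]
        push_cast
        omega
      · intro h2
        obtain ⟨k, hk⟩ := Function.ne_iff.1 hv0
        have hk' : v k ≠ 0 := hk
        have h3 : h • f k 0 = f k (v k) := by
          have := hh k 0 (by simp; omega)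
          rwa [zero_add] at this
        have h4 : h • f k (v k) = f k (2 * v k) := by
          have := hh k (v k) (by
            have := hva k
            push_cast
            omega)
          rwa [← two_mul] at this
        have h5 : f k (2 * v k) = f k 0 := by
          rw [← h4, ← h3, ← mul_smul, ← pow_two, h2, one_smul]
        have h6 := hf k 0 (2 * v k) (by simp; omega) (by
          have := abs_le.1 (hva k)
          rw [abs_le]
          push_cast
          omega)
        rw [h5, SimpleGraph.dist_self] at h6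
        have h7 : (0 : ℤ) - 2 * v k = 0 := abs_eq_zero.1 (by exact_mod_cast h6.symm)
        omega
      · intro k i j hi hj
        have h3 := hh k (δ k - r + (i : ℕ)) (by
          have := abs_le.1 (hδ k)
          have h8 := abs_le.1 hi
          rw [abs_le]
          push_cast
          omega)
        show h • f k (δ k - r + (i : ℕ)) = f k (δ k - r + (j : ℕ))
        rw [h3, hj]
        congr 1
        ring
    · right
      intro v hv0 hva h hh
      exact hv ⟨v, hv0, hva, h, hh⟩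

end Pool.Agent.H76.GT
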