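import Pool.Agent.H76.GU.Loc

/-!
# H76 GU, Code: codes for the orbits of boxes
-/

set_option autoImplicit false

namespace Pool.Agent.H76.GT

open Pool.Agent.H54.AX

/-- Proof. The set `P` of the boxes with vertices in `Y` is finite, with at most `(E ^ c) ^ (n (2 r + 1)) ≤ 2 ^ (E n (2 r + 1) c)`
elements (`E ≤ 2 ^ E`). The set of the orbits which meet `P` is not larger, so there is an injective map of this set of orbits
to `Fin (E n (2 r + 1) c) → Bool`; extend it to all orbits and compose with the quotient map. -/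
theorem exists_code {G : Type} [Group G] {n : ℕ} {V : Fin n → Type} [∀ k, MulAction G (V k)] (r E c : ℕ)
    {Y : ∀ k, Set (V k)} (hY : ∀ k, (Y k).Finite) (hE : ∀ k, (Y k).ncard ≤ E ^ c) :
    ∃ code : Bx V r → (Fin (E * n * (2 * r + 1) * c) → Bool), (∀ (g : G) B, code (g • B) = code B) ∧
      ∀ B B' : Bx V r, (∃ g : G, ∀ k i, g • B k i ∈ Y k) → (∃ g : G, ∀ k i, g • B' k i ∈ Y k) → code B = code B' →
        ∃ g : G, g • B = B' := by
  classical
  haveI : ∀ k, Fintype (Y k) := fun k => (hY k).fintype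
  have hcY : ∀ k, Fintype.card (Y k) ≤ (2 ^ E) ^ c := by
    intro k
    rw [← Nat.card_eq_fintype_card, Nat.card_coe_set_eq]
    exact (hE k).trans (Nat.pow_le_pow_left Nat.lt_two_pow_self.le c)
  let W : Type := ∀ k : Fin n, Fin (2 * r + 1) → Y k
  let φ : W → MulAction.orbitRel.Quotient G (Bx V r) := fun w =>
    Quotient.mk (MulAction.orbitRel G (Bx V r)) (fun k i => ((w k i : Y k) : V k))
  have hW : Fintype.card W ≤ 2 ^ (E * n * (2 * r + 1) * c) := by
    have h1 : Fintype.card W = ∏ k : Fin n, (Fintype.card (Y k)) ^ (2 * r + 1) := by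
      simp only [W, Fintype.card_pi, Finset.prod_const, Finset.card_univ, Fintype.card_fin]
    rw [h1]
    calc ∏ k : Fin n, (Fintype.card (Y k)) ^ (2 * r + 1)
        ≤ ∏ _k : Fin n, ((2 ^ E) ^ c) ^ (2 * r + 1) :=
          Finset.prod_le_prod' fun k _ => Nat.pow_le_pow_left (hcY k) _
      _ = 2 ^ (E * n * (2 * r + 1) * c) := by
          rw [Finset.prod_const, Finset.card_univ, Fintype.card_fin, ← pow_mul, ← pow_mul, ← pow_mul]
          ring_nf
  haveI : Fintype (Set.range φ) := (Set.finite_range φ).fintype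
  have hS : Fintype.card (Set.range φ) ≤ Fintype.card (Fin (E * n * (2 * r + 1) * c) → Bool) := by
    have h2 : Fintype.card (Set.range φ) ≤ Fintype.card W :=
      Fintype.card_le_of_surjective (Set.rangeFactorization φ) Set.rangeFactorization_surjective
    have h3 : Fintype.card (Fin (E * n * (2 * r + 1) * c) → Bool) = 2 ^ (E * n * (2 * r + 1) * c) := by
      simp
    rw [h3]
    exact h2.trans hW
  obtain ⟨e⟩ := Function.Embedding.nonempty_of_card_le hS
  refine ⟨fun B => if h : Quotient.mk (MulAction.orbitRel G (Bx V r)) B ∈ Set.range φ then e ⟨_, h⟩ else fun _ => false,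
    ?_, ?_⟩
  · intro g B
    have h : Quotient.mk (MulAction.orbitRel G (Bx V r)) (g • B) = Quotient.mk (MulAction.orbitRel G (Bx V r)) B :=
      Quotient.sound ⟨g, rfl⟩
    simp only [h]
  · intro B B' hB hB' hc
    have key : ∀ B : Bx V r, (∃ g : G, ∀ k i, g • B k i ∈ Y k) →
        Quotient.mk (MulAction.orbitRel G (Bx V r)) B ∈ Set.range φ := by
      rintro B ⟨g, hg⟩
      refine ⟨fun k i => ⟨g • B k i, hg k i⟩, ?_⟩
      exact Quotient.sound ⟨g, rfl⟩
    have h1 := key B hB
    have h2 := key B' hB'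
    simp only [dif_pos h1, dif_pos h2] at hc
    have h3 := e.injective hc
    have h4 : Quotient.mk (MulAction.orbitRel G (Bx V r)) B = Quotient.mk (MulAction.orbitRel G (Bx V r)) B' :=
      congrArg Subtype.val h3
    obtain ⟨g, hg⟩ := Quotient.exact h4.symm
    exact ⟨g, hg⟩

end Pool.Agent.H76.GT
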