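import Pool.Agent.H76.GT.Up

/-!
# H76 GU, Filt: increasing finite subtrees with exponential growth
-/

set_option autoImplicit false

namespace Pool.Agent.H76.GT

variable {G V : Type} [Group G] [MulAction G V] {T : SimpleGraph V}

/-- finite subtrees `X m` which contain `o` with `S (X m) ⊆ X (m + 1)` -/
structure Filt (T : SimpleGraph V) (o : V) (S : Set G) (X : ℕ → Set V) (c : ℕ) : Prop where
  cvx : ∀ m, Cvx T o (X m)
  base : ∀ s ∈ S, s • o ∈ X 0
  step : ∀ s ∈ S, ∀ m, ∀ x ∈ X m, s • x ∈ X (m + 1)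
  mono : ∀ m, X m ⊆ X (m + 1)
  card : ∀ m, (X m).ncard ≤ c ^ (m + 1)

/-- the union of two subtrees with a common vertex. Proof. `Cvx.change` to `o'`, `Cvx.union`, back to `o`. -/
theorem Cvx.union' (hT : T.IsTree) {o o' : V} {Y Y' : Set V} (h : Cvx T o Y) (h' : Cvx T o' Y') (ho : o' ∈ Y) :
    Cvx T o (Y ∪ Y') :=
  ((h.change hT ho).union h').change hT (Or.inl h.mem)

/-- Proof. `X 0` is a finite subtree which contains `o` and `S o` (`exists_cvx`), `X (m + 1)` the union of `s (X m)`, `s ∈ S`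
(`Cvx.smul`, `Cvx.union'`, induction on the finite set `S` starting with `1`; `s o ∈ X 0 ⊆ X m`). `c` is the maximum of the
number of elements of `S` and of `X 0`. -/
theorem exists_filt (hT : T.IsTree) (o : V) {S : Set G} [Pres G T] (hS : S.Finite) (h1 : (1 : G) ∈ S) :
    ∃ (X : ℕ → Set V) (c : ℕ), Filt T o S X c := by
  obtain ⟨Y, hY, hYS⟩ := exists_cvx hT o (F := (fun s : G => s • o) '' S) (hS.image _)
  obtain ⟨X, hX0, hX1⟩ : ∃ X : ℕ → Set V, X 0 = Y ∧ ∀ m, X (m + 1) = (fun p : G × V => p.1 • p.2) '' (S ×ˢ X m) :=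
    ⟨fun m => Nat.rec Y (fun _ Z => (fun p : G × V => p.1 • p.2) '' (S ×ˢ Z)) m, rfl, fun _ => rfl⟩
  have hstep : ∀ s ∈ S, ∀ m, ∀ x ∈ X m, s • x ∈ X (m + 1) := by
    intro s hs m x hx
    rw [hX1]
    exact ⟨(s, x), ⟨hs, hx⟩, rfl⟩
  have hmono : ∀ m, X m ⊆ X (m + 1) := by
    intro m x hx
    have := hstep 1 h1 m x hx
    rwa [one_smul] at this
  have hbase : ∀ s ∈ S, ∀ m, s • o ∈ X m := by
    intro s hs m
    induction m with
    | zero =>
      rw [hX0]
      exact hYS ⟨s, hs, rfl⟩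
    | succ m ih => exact hmono m ih
  have hcvx : ∀ m, Cvx T o (X m) := by
    intro m
    induction m with
    | zero =>
      rw [hX0]
      exact hY
    | succ m ih =>
      have key : ∀ S' : Set G, S'.Finite → S' ⊆ S → Cvx T o (X m ∪ (fun p : G × V => p.1 • p.2) '' (S' ×ˢ X m)) := by
        intro S' hS'
        induction S', hS' using Set.Finite.induction_on with
        | empty =>
          intro _
          rw [Set.empty_prod, Set.image_empty, Set.union_empty]
          exact ih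
        | @insert a s _ _ ihs =>
          intro hsub
          have h2 := ihs ((Set.subset_insert a s).trans hsub)
          have h3 := Cvx.smul hT a ih
          have h4 : a • o ∈ X m ∪ (fun p : G × V => p.1 • p.2) '' (s ×ˢ X m) :=
            Or.inl (hbase a (hsub (Set.mem_insert a s)) m)
          have h5 := Cvx.union' hT h2 h3 h4
          have h6 : X m ∪ (fun p : G × V => p.1 • p.2) '' ((insert a s) ×ˢ X m) =
              X m ∪ (fun p : G × V => p.1 • p.2) '' (s ×ˢ X m) ∪ (fun x => a • x) '' X m := by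
            ext x
            constructor
            · rintro (hx | ⟨⟨g, y⟩, ⟨hg, hy⟩, rfl⟩)
              · exact Or.inl (Or.inl hx)
              · rcases hg with hg | hg
                · have hg' : g = a := hg
                  subst hg'
                  exact Or.inr ⟨y, hy, rfl⟩
                · exact Or.inl (Or.inr ⟨(g, y), ⟨hg, hy⟩, rfl⟩)
            · rintro ((hx | ⟨⟨g, y⟩, ⟨hg, hy⟩, rfl⟩) | ⟨y, hy, rfl⟩)
              · exact Or.inl hx
              · exact Or.inr ⟨(g, y), ⟨Set.mem_insert_of_mem a hg, hy⟩, rfl⟩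
              · exact Or.inr ⟨(a, y), ⟨Set.mem_insert a s, hy⟩, rfl⟩
          rw [h6]
          exact h5
      have h2 := key S hS subset_rfl
      have h3 : X m ∪ (fun p : G × V => p.1 • p.2) '' (S ×ˢ X m) = X (m + 1) := by
        rw [← hX1]
        exact Set.union_eq_self_of_subset_left (hmono m)
      rw [h3] at h2
      exact h2
  refine ⟨X, max S.ncard (X 0).ncard, hcvx, fun s hs => hbase s hs 0, hstep, hmono, fun m => ?_⟩
  induction m with
  | zero =>
    rw [zero_add, pow_one]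
    exact le_max_right _ _
  | succ m ih =>
    have h2 : (X (m + 1)).ncard ≤ S.ncard * (X m).ncard := by
      rw [hX1, ← Set.ncard_prod]
      exact Set.ncard_image_le (hS.prod (hcvx m).fin)
    calc (X (m + 1)).ncard ≤ S.ncard * (X m).ncard := h2
      _ ≤ max S.ncard (X 0).ncard * max S.ncard (X 0).ncard ^ (m + 1) := Nat.mul_le_mul (le_max_left _ _) ih
      _ = max S.ncard (X 0).ncard ^ (m + 1 + 1) := by rw [pow_succ (max S.ncard (X 0).ncard) (m + 1), mul_comm]

theorem Filt.mono_le {o : V} {S : Set G} {X : ℕ → Set V} {c : ℕ} (h : Filt T o S X c) {m m' : ℕ} (hm : m ≤ m') :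
    X m ⊆ X m' := by
  induction hm with
  | refl => exact subset_rfl
  | step _ ih => exact ih.trans (h.mono _)

theorem Filt.sub_right {o : V} {S : Set G} {X : ℕ → Set V} {c : ℕ} (h : Filt T o S X c) {s : G} (hs : s ∈ S) (g : G)
    (m : ℕ) : (fun x => (g * s) • x) '' X m ⊆ (fun x => g • x) '' X (m + 1) := by
  rintro _ ⟨x, hx, rfl⟩
  exact ⟨s • x, h.step s hs m x hx, (mul_smul g s x).symm⟩

theorem Filt.sub_left {o : V} {S : Set G} {X : ℕ → Set V} {c : ℕ} (h : Filt T o S X c) {s : G} (hs : s⁻¹ ∈ S) (g : G)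
    (m : ℕ) : (fun x => g • x) '' X m ⊆ (fun x => (g * s) • x) '' X (m + 1) := by
  rintro _ ⟨x, hx, rfl⟩
  refine ⟨s⁻¹ • x, h.step _ hs m x hx, ?_⟩
  show (g * s) • s⁻¹ • x = g • x
  rw [← mul_smul, mul_assoc, mul_inv_cancel, mul_one]

theorem Filt.mem_right {o : V} {S : Set G} {X : ℕ → Set V} {c : ℕ} (h : Filt T o S X c) {s : G} (hs : s ∈ S) (g : G)
    (m : ℕ) : (g * s) • o ∈ (fun x => g • x) '' X m :=
  ⟨s • o, h.mono_le (Nat.zero_le m) (h.base s hs), (mul_smul g s o).symm⟩

theorem Filt.mem_left {o : V} {S : Set G} {X : ℕ → Set V} {c : ℕ} (h : Filt T o S X c) {s : G} (hs : s⁻¹ ∈ S) (g : G)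
    (m : ℕ) : g • o ∈ (fun x => (g * s) • x) '' X m := by
  refine ⟨s⁻¹ • o, h.mono_le (Nat.zero_le m) (h.base _ hs), ?_⟩
  show (g * s) • s⁻¹ • o = g • o
  rw [← mul_smul, mul_assoc, mul_inv_cancel, mul_one]

theorem Filt.cvx_smul (hT : T.IsTree) [Pres G T] {o : V} {S : Set G} {X : ℕ → Set V} {c : ℕ} (h : Filt T o S X c) (g : G)
    (m : ℕ) : Cvx T (g • o) ((fun x => g • x) '' X m) :=
  Cvx.smul hT g (h.cvx m)

end Pool.Agent.H76.GT
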