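import Pool.Agent.H76.GU.Tht
import Pool.Agent.H76.GU.Tau
import Pool.Agent.H76.GT.Idx

/-!
# H76 GU, LgV: the family of the vertices of a tree
-/

set_option autoImplicit false

namespace Pool.Agent.H76.GT

open Pool.Agent.H98.FJ

variable {G V : Type} [Group G] [MulAction G V] {T : SimpleGraph V}

/-- the point at distance `tht` from `g o` is near the vertex `y` -/
def WV (T : SimpleGraph V) (o : V) (X : ℕ → Set V) (M L : ℕ) (y : V) (g : G) : Set (Th T) :=
  {ψ | Ex T (g • o) ((fun x => g • x) '' X M) ψ < L ∧ |tht T o X M g ψ - T.dist (g • o) y| < 2 / 5 ∧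
    (y = g • o ∨ ∃ u, Up T (g • o) u y ∧ 3 / 5 < ψ u y)}

private theorem wv_uniq (hT : T.IsTree) {o : V} {X : ℕ → Set V} {M L : ℕ} {g : G} {ψ : Th T} {y y' : V}
    (h : ψ ∈ WV T o X M L y g) (h' : ψ ∈ WV T o X M L y' g) : y = y' := by
  obtain ⟨-, h1, h2⟩ := h
  obtain ⟨-, h1', h2'⟩ := h'
  rw [abs_lt] at h1 h1'
  have hd : T.dist (g • o) y = T.dist (g • o) y' := by
    have e1 : ((T.dist (g • o) y : ℕ) : ℝ) < (T.dist (g • o) y' : ℝ) + 1 := by linarith [h1.1, h1.2, h1'.1, h1'.2]
    have e2 : ((T.dist (g • o) y' : ℕ) : ℝ) < (T.dist (g • o) y : ℝ) + 1 := by linarith [h1.1, h1.2, h1'.1, h1'.2]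
    have e1' : T.dist (g • o) y < T.dist (g • o) y' + 1 := by exact_mod_cast e1
    have e2' : T.dist (g • o) y' < T.dist (g • o) y + 1 := by exact_mod_cast e2
    omega
  rcases h2 with h2 | ⟨u, hu, hp⟩
  · rw [h2, SimpleGraph.dist_self] at hd
    have := (hT.connected.dist_eq_zero_iff).1 hd.symm
    rw [h2, this]
  · rcases h2' with h2' | ⟨u', hu', hp'⟩
    · rw [h2', SimpleGraph.dist_self] at hd
      exact absurd (hT.connected.dist_eq_zero_iff.1 hd).symm hu.ne
    · obtain ⟨-, a, -⟩ := ray_of_pos hT hu (by linarith)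
      obtain ⟨-, a', -⟩ := ray_of_pos hT hu' (by linarith)
      rw [← hu.dist] at a
      rw [← hu'.dist] at a'
      rw [← a, ← a', hd]

/-- Proof. Open: continuity of `Ex`, `tht`, `ψ ↦ ψ u y`. Equivariance: `ex_smul`, `tht_smul`, `dist_smul`, `up_smul`.
Uniqueness of `y` for given `g`, `ψ` (which gives `eq`, `mult`): the distance `dist (g o) y` is determined by `tht`, and
`y = ray (dist (g o) y)` (`ray_of_pos`, `ray_zero`). -/
theorem isFam_WV {C : (G : Type) → [Group G] → Prop} [Pres G T] (hT : T.IsTree) (hst : ∀ x : V, C (MulAction.stabilizer G x))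
    {o : V} {S : Set G} {X : ℕ → Set V} {c : ℕ} (hF : Filt T o S X c) (M L : ℕ) :
    IsFam C 1 (fun (y : V) (g : G) => WV T o X M L y g) where
  isOpen := by
    intro y g
    have h1 : IsOpen {ψ : Th T | Ex T (g • o) ((fun x => g • x) '' X M) ψ < L} :=
      isOpen_lt (ex_continuous hT _ (hF.cvx_smul hT g M).fin) continuous_const
    have h2 : IsOpen {ψ : Th T | |tht T o X M g ψ - T.dist (g • o) y| < 2 / 5} :=
      isOpen_lt (((tht_continuous hT hF M g).sub continuous_const).abs) continuous_const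
    have h3 : IsOpen {ψ : Th T | y = g • o ∨ ∃ u, Up T (g • o) u y ∧ 3 / 5 < ψ u y} := by
      have e : {ψ : Th T | y = g • o ∨ ∃ u, Up T (g • o) u y ∧ 3 / 5 < ψ u y} =
          {_ψ : Th T | y = g • o} ∪ ⋃ (u : V) (_ : Up T (g • o) u y), {ψ : Th T | 3 / 5 < ψ u y} := by
        ext ψ
        simp only [Set.mem_union, Set.mem_iUnion, Set.mem_ofPred_eq, exists_prop]
      rw [e]
      refine IsOpen.union isOpen_const ?_
      exact isOpen_iUnion fun u => isOpen_iUnion fun _ => isOpen_lt continuous_const (Th.continuous_apply _ _)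
    exact h1.inter (h2.inter h3)
  equiv := by
    rintro y g h ψ ⟨h1, h2, h3⟩
    refine ⟨?_, ?_, ?_⟩
    · have e : Ex T ((g * h) • o) ((fun x => (g * h) • x) '' X M) (g • ψ) = Ex T (h • o) ((fun x => h • x) '' X M) ψ := by
        rw [← ex_smul hT g (h • o), ← mul_smul, Set.image_image]
        congr 1
        ext x
        simp only [mul_smul]
      rw [e]
      exact h1
    · rw [tht_smul hT, mul_smul, dist_smul hT]
      exact h2
    · rw [mul_smul]
      rcases h3 with h3 | ⟨u, hu, hp⟩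
      · left
        rw [h3]
      · right
        refine ⟨g • u, (up_smul hT g _ _ _).2 hu, ?_⟩
        rw [Th.smul_apply_smul]
        exact hp
  eq := by
    intro y g h ψ h1 h2
    exact (wv_uniq hT h1 h2).symm
  stab := fun y _ _ _ => hst y
  mult := by
    intro h ψ
    rw [Nat.cast_one, Set.encard_le_one_iff]
    intro y y' h1 h2
    exact wv_uniq hT h1 h2

end Pool.Agent.H76.GT
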