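import Pool.Agent.H54.AX.Rig
import Pool.Agent.H76.GT.DefsT

/-!
# H76 GU, Loc: rules for paths in products of trees
-/

set_option autoImplicit false

namespace Pool.Agent.H76.GT

open Pool.Agent.H98.FJ Pool.Agent.H54.AX

/-- the paths `f k` are geodesics for the parameters between `- c` and `c`, and a translate of this part of the paths lies
in the sets `Y k` -/
structure Fla (G : Type) [Group G] {n : ℕ} {V : Fin n → Type} [∀ k, MulAction G (V k)] (T : ∀ k, SimpleGraph (V k)) (c : ℕ)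
    (Y : ∀ k, Set (V k)) (f : ∀ k, ℤ → V k) : Prop where
  geo : Geo T c f
  mem : ∃ g : G, ∀ k (i : ℤ), |i| ≤ c → g • f k i ∈ Y k

/-- a rule: the objects `x` with `Q f x` depend only on the paths for the parameters between `- c` and `c` -/
structure Rul (C : (G : Type) → [Group G] → Prop) {G : Type} [Group G] {n : ℕ} {V : Fin n → Type} [∀ k, MulAction G (V k)]
    (T : ∀ k, SimpleGraph (V k)) (c : ℕ) (Y : ∀ k, Set (V k)) (N : ℕ) {I : Type} [MulAction G I]
    (Q : (∀ k, ℤ → V k) → I → Prop) : Prop where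
  loc : ∀ f f' : ∀ k, ℤ → V k, (∀ k (i : ℤ), |i| ≤ c → f k i = f' k i) → ∀ x, Q f x → Q f' x
  equiv : ∀ (g : G) f x, Q f x → Q (g • f) (g • x)
  eq : ∀ (g : G) f x, Fla G T c Y f → Q f x → Q f (g • x) → g • x = x
  stab : ∀ f x, Fla G T c Y f → Q f x → C (MulAction.stabilizer G x)
  mult : ∀ f, Fla G T c Y f → {x | Q f x}.encard ≤ N

/-- a rule with its set of objects -/
structure RulB (G : Type) [Group G] {n : ℕ} (V : Fin n → Type) where
  /-- the set of objects -/
  I : Type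
  act : MulAction G I
  /-- the rule -/
  Q : (∀ k, ℤ → V k) → I → Prop
  /-- the multiplicity -/
  N : ℕ

/-- the paths `f'` are obtained from the paths `f` by the shift `δ` -/
def Shf {n : ℕ} {V : Fin n → Type} (m : ℤ) (δ : Fin n → ℤ) (f f' : ∀ k, ℤ → V k) : Prop :=
  ∀ k (i : ℤ), |i| ≤ m → f' k i = f k (i + δ k)

/-- the rule of an object. Proof. Immediate. -/
theorem rul_obj {C : (G : Type) → [Group G] → Prop} {G : Type} [Group G] {n : ℕ} {V : Fin n → Type} [∀ k, MulAction G (V k)]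
    (T : ∀ k, SimpleGraph (V k)) {c : ℕ} (Y : ∀ k, Set (V k)) {r : ℕ} (hr : r ≤ c) {Ω : Type} [MulAction G Ω]
    {Obj : Bx V r → Ω → Prop} (h1 : ∀ B o o', Obj B o → Obj B o' → o = o')
    (h2 : ∀ B o (g : G), Obj B o → Obj (g • B) (g • o)) (h3 : ∀ B o, Obj B o → C (MulAction.stabilizer G o)) :
    Rul C (G := G) T c Y 1 (fun f o => Obj (bx r 0 f) o) := by
  refine ⟨?_, ?_, ?_, ?_, ?_⟩
  · intro f f' hf x hx
    have e : bx r 0 f' = bx r 0 f := by
      funext k i
      have hi : ((i : ℕ) : ℤ) < 2 * r + 1 := by exact_mod_cast i.isLt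
      have hi0 : (0 : ℤ) ≤ ((i : ℕ) : ℤ) := Int.natCast_nonneg _
      have hr' : (r : ℤ) ≤ c := by exact_mod_cast hr
      show f' k ((0 : Fin n → ℤ) k - r + (i : ℕ)) = f k ((0 : Fin n → ℤ) k - r + (i : ℕ))
      rw [Pi.zero_apply]
      exact (hf k _ (abs_le.2 ⟨by linarith, by linarith⟩)).symm
    show Obj (bx r 0 f') x
    rw [e]
    exact hx
  · intro g f x hx
    exact h2 _ _ g hx
  · intro g f x _ hx hgx
    exact h1 _ _ _ hgx hx
  · intro f x _ hx
    exact h3 _ _ hx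
  · intro f _
    have h : {x | Obj (bx r 0 f) x}.encard ≤ 1 := Set.encard_le_one_iff.2 (fun a b ha hb => h1 _ _ _ ha hb)
    exact_mod_cast h

/-- Proof. Immediate from the definitions. -/
theorem bx_shf {n : ℕ} {V : Fin n → Type} {r : ℕ} {m : ℤ} {δ : Fin n → ℤ} {f f' : ∀ k, ℤ → V k} (h : Shf m δ f f')
    (p : Fin n → ℤ) (hp : ∀ k, |p k| + r ≤ m) : bx r p f' = bx r (p + δ) f := by
  funext k i
  have hi : ((i : ℕ) : ℤ) < 2 * r + 1 := by exact_mod_cast i.isLt
  have hi0 : (0 : ℤ) ≤ ((i : ℕ) : ℤ) := Int.natCast_nonneg _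
  have h1 := hp k
  have h2 := le_abs_self (p k)
  have h3 := neg_abs_le (p k)
  show f' k (p k - r + (i : ℕ)) = f k ((p + δ) k - r + (i : ℕ))
  rw [h k _ (abs_le.2 ⟨by linarith, by linarith⟩), Pi.add_apply]
  congr 1
  ring

theorem bx_smul {G : Type} [Group G] {n : ℕ} {V : Fin n → Type} [∀ k, MulAction G (V k)] (g : G) (r : ℕ) (p : Fin n → ℤ)
    (f : ∀ k, ℤ → V k) : bx r p (g • f) = g • bx r p f := rfl

/-- Proof. A position `i` with `|i - p k| ≤ r` is `p k - r + j` with `j < 2 r + 1`. -/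
theorem bx_smul_eq {G : Type} [Group G] {n : ℕ} {V : Fin n → Type} [∀ k, MulAction G (V k)] {g : G} {r : ℕ}
    {p q : Fin n → ℤ} {f : ∀ k, ℤ → V k} (h : g • bx r p f = bx r q f) (k : Fin n) (i : ℤ) (hi : |i| ≤ r) :
    g • f k (p k + i) = f k (q k + i) := by
  obtain ⟨h1, h2⟩ := abs_le.1 hi
  obtain ⟨j, hj⟩ : ∃ j : ℕ, (j : ℤ) = i + r := ⟨(i + r).toNat, Int.toNat_of_nonneg (by linarith)⟩
  have hj' : j < 2 * r + 1 := by
    have h3 : (j : ℤ) < 2 * r + 1 := by linarith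
    exact_mod_cast h3
  have h4 := congrFun (congrFun h k) ⟨j, hj'⟩
  have h5 : g • f k (p k - r + (j : ℤ)) = f k (q k - r + (j : ℤ)) := h4
  rw [hj] at h5
  have e1 : p k - r + (i + r) = p k + i := by ring
  have e2 : q k - r + (i + r) = q k + i := by ring
  rw [e1, e2] at h5
  exact h5

end Pool.Agent.H76.GT
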