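import Pool.Agent.H76.GU.Poly
import Pool.Agent.H76.GT.Ray

/-!
# H76 GU, PolyT: a finite subtree is a polyhedron of dimension at most one
-/

set_option autoImplicit false

namespace Pool.Agent.H76.GT

variable {V : Type} {T : SimpleGraph V}

open Classical in
/-- the vertex `w` as a point of the compactification -/
private noncomputable def pt (T : SimpleGraph V) (w u v : V) : ℝ := if Up T w v u then 1 else 0

private theorem pt_one {w u v : V} (h : Up T w v u) : pt T w u v = 1 := by
  unfold pt
  rw [if_pos h]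

private theorem pt_zero {w u v : V} (h : ¬ Up T w v u) : pt T w u v = 0 := by
  unfold pt
  rw [if_neg h]

private theorem pt_cases (w u v : V) : (Up T w v u ∧ pt T w u v = 1) ∨ (¬ Up T w v u ∧ pt T w u v = 0) := by
  by_cases h : Up T w v u
  · exact Or.inl ⟨h, pt_one h⟩
  · exact Or.inr ⟨h, pt_zero h⟩

private theorem pt_nonneg (w u v : V) : 0 ≤ pt T w u v := by
  rcases pt_cases (T := T) w u v with ⟨-, h⟩ | ⟨-, h⟩
  · rw [h]
    norm_num
  · rw [h]

private theorem pt_off (w : V) {u v : V} (h : ¬ T.Adj u v) : pt T w u v = 0 := pt_zero fun h' => h h'.adj.symm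

private theorem pt_add (hT : T.IsTree) (w : V) {u v : V} (h : T.Adj u v) : pt T w u v + pt T w v u = 1 := by
  rcases up_or hT w h with h1 | h1
  · rw [pt_one h1, pt_zero h1.asymm, zero_add]
  · rw [pt_one h1, pt_zero h1.asymm, add_zero]

private theorem pt_step (hT : T.IsTree) {w u v x : V} (h : T.Adj u v) (hn : u ≠ x) (h1 : Up T w x v) : Up T w v u := by
  rcases up_or hT w h with h2 | h2
  · exact absurd (up_unique hT h2 h1) hn
  · exact h2

/-- the points of an edge -/
private theorem isPos_mix (hT : T.IsTree) {a b : V} (hab : T.Adj a b) {s t : ℝ} (hs : 0 ≤ s) (ht : 0 ≤ t)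
    (hst : s + t = 1) : IsPos T fun u v => s * pt T a u v + t * pt T b u v where
  nonneg u v := add_nonneg (mul_nonneg hs (pt_nonneg _ _ _)) (mul_nonneg ht (pt_nonneg _ _ _))
  off u v h := by rw [pt_off a h, pt_off b h, mul_zero, mul_zero, add_zero]
  add u v h := by
    have h1 := pt_add hT a h
    have h2 := pt_add hT b h
    linear_combination s * h1 + t * h2 + hst
  mul u v x h h' hn := by
    have key : Up T a x v ∨ Up T b x v → Up T a v u ∧ Up T b v u := by
      intro hx
      by_cases h1 : Up T a x v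
      · by_cases h2 : Up T b x v
        · exact ⟨pt_step hT h hn h1, pt_step hT h hn h2⟩
        · have h3 : x = a ∧ v = b := by
            by_contra hc
            exact h2 (up_change hT hab h1 hc)
          refine ⟨pt_step hT h hn h1, ?_⟩
          rw [h3.2]
          exact up_self (h3.2 ▸ h.symm)
      · have h2 : Up T b x v := hx.resolve_left h1
        have h3 : x = b ∧ v = a := by
          by_contra hc
          exact h1 (up_change hT hab.symm h2 hc)
        refine ⟨?_, pt_step hT h hn h2⟩
        rw [h3.2]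
        exact up_self (h3.2 ▸ h.symm)
    by_cases hx : Up T a x v ∨ Up T b x v
    · obtain ⟨h1, h2⟩ := key hx
      rw [pt_one h1, pt_one h2, mul_one, mul_one, hst, sub_self, mul_zero]
    · rw [not_or] at hx
      rw [pt_zero hx.1, pt_zero hx.2, mul_zero, mul_zero, add_zero, zero_mul]

private theorem isPos_pt (hT : T.IsTree) (w : V) : IsPos T (pt T w) where
  nonneg u v := pt_nonneg _ _ _
  off u v h := pt_off w h
  add u v h := pt_add hT w h
  mul u v x h h' hn := by
    rcases pt_cases (T := T) w v x with ⟨h1, -⟩ | ⟨-, h1⟩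
    · rw [pt_one (pt_step hT h hn h1), sub_self, mul_zero]
    · rw [h1, zero_mul]

/-- the restriction of a vertex to `Y` -/
private noncomputable def ptr (T : SimpleGraph V) (Y : Set V) (w : V) : Y → Y → ℝ := fun u v => pt T w u v

/-- the restriction of `ψ` when no dart at `o` is positive -/
private theorem eq_pt (hT : T.IsTree) {o : V} {Y : Set V} {ψ : Th T} (h : ∀ a b, Up T o a b → b ∈ Y → ψ a b = 0)
    {u v : V} (hu : u ∈ Y) (hv : v ∈ Y) : ψ u v = pt T o u v := by
  by_cases ha : T.Adj u v
  · rcases up_or hT o ha with h1 | h1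
    · rw [h u v h1 hv, pt_zero h1.asymm]
    · have h2 := h v u h1 hu
      have h3 := ψ.add ha
      rw [pt_one h1]
      linarith
  · rw [ψ.off ha, pt_off o ha]

/-- the path from `o` to `u`, seen from `u` -/
private theorem ray_back (hT : T.IsTree) {o u : V} {r : ℕ → V} {j : ℕ} (hj : r j = u)
    (hr : ∀ i, i < j → Up T o (r i) (r (i + 1))) : ∀ k i, i + k + 1 = j → Up T u (r (i + 1)) (r i) := by
  intro k
  induction k with
  | zero =>
    intro i hi
    have h1 := hr i (by omega)
    have h2 : r (i + 1) = u := by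
      rw [← hj]
      congr 1
    rw [h2] at h1 ⊢
    exact up_self h1.adj.symm
  | succ k ih =>
    intro i hi
    have h1 := hr i (by omega)
    have h2 := hr (i + 1) (by omega)
    have h3 := ih (i + 1) (by omega)
    rcases up_or hT u h1.adj with h4 | h4
    · have h5 := up_unique hT h4 h3
      have e1 := h1.dist
      have e2 := h2.dist
      rw [← h5] at e2
      omega
    · exact h4

/-- the darts from `o` towards `u` are on the path -/
private theorem ray_mem (hT : T.IsTree) {o u : V} {r : ℕ → V} {j : ℕ} (h0 : r 0 = o) (hj : r j = u)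
    (hr : ∀ i, i < j → Up T o (r i) (r (i + 1))) : ∀ (k : ℕ) (a b : V), T.dist u b = k → Up T o a b → Up T u b a →
      ∃ i, i < j ∧ a = r i ∧ b = r (i + 1) := by
  have pre : ∀ a i, i ≤ j → Up T o a (r i) → ∃ i', i' < j ∧ a = r i' ∧ r i = r (i' + 1) := by
    intro a i hi h
    cases i with
    | zero => exact absurd h0 h.ne
    | succ i => exact ⟨i, by omega, up_unique hT h (hr i (by omega)), rfl⟩
  intro k
  induction k with
  | zero =>
    intro a b hk h1 h2
    have h3 : u = b := (hT.connected.dist_eq_zero_iff).1 hk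
    rw [← h3, ← hj] at h1 ⊢
    exact pre a j le_rfl h1
  | succ k ih =>
    intro a b hk h1 h2
    have hne : b ≠ u := by
      rintro rfl
      rw [SimpleGraph.dist_self] at hk
      omega
    obtain ⟨c, hc⟩ := exists_up hT hne
    have e1 := hc.dist
    rcases up_or hT o hc.adj with h3 | h3
    · have h4 := up_unique hT h1 h3
      have e2 := h2.dist
      rw [h4] at e2
      omega
    · obtain ⟨i, hi, h4, h5⟩ := ih b c (by omega) h3 hc
      obtain ⟨i', h6, h7, h8⟩ := pre a i (by omega) (h4 ▸ h1)
      exact ⟨i', h6, h7, h4.trans h8⟩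

/-- the restriction of `ψ` when a dart away from `o` is positive -/
private theorem eq_mix (hT : T.IsTree) {o : V} {Y : Set V} {ψ : Th T} {u w : V} (huw : Up T o u w)
    (hp : 0 < ψ u w) (hmax : ∀ a b, Up T o a b → b ∈ Y → 0 < ψ a b → T.dist o a ≤ T.dist o u)
    {a b : V} (ha : a ∈ Y) (hb : b ∈ Y) : ψ a b = (1 - ψ u w) * pt T u a b + ψ u w * pt T w a b := by
  obtain ⟨a1, a2, a3⟩ := ray_of_pos hT huw hp
  obtain ⟨j, hj⟩ : ∃ j, j = T.dist o u := ⟨_, rfl⟩
  rw [← hj] at a1 a2 a3
  have main : ∀ a b, Up T o a b → b ∈ Y → ψ a b = (1 - ψ u w) * pt T u a b + ψ u w * pt T w a b := by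
    intro a b hab hb
    by_cases he : a = u ∧ b = w
    · obtain ⟨rfl, rfl⟩ := he
      rw [pt_zero (up_self hab.adj).asymm, pt_one (up_self hab.adj.symm), mul_zero, zero_add, mul_one]
    · by_cases h1 : Up T u b a
      · have h2 : Up T w b a := up_change hT huw.adj h1 (by
          rintro ⟨rfl, rfl⟩
          exact huw.asymm hab)
        obtain ⟨i, hi, h3, h4⟩ := ray_mem hT (ray_zero o ψ) a1 (fun i hi => (a3 i hi).1) _ a b rfl hab h1
        have h5 : ψ a b = 1 := by
          rw [h3, h4]
          exact (a3 i hi).2.1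
        rw [h5, pt_one h1, pt_one h2]
        ring
      · have h2 : ¬ Up T w b a := by
          intro hc
          refine h1 (up_change hT huw.adj.symm hc ?_)
          rintro ⟨h3, h4⟩
          exact he ⟨h4, h3⟩
        have h5 : ψ a b = 0 := by
          by_contra hc
          have hpos : 0 < ψ a b := lt_of_le_of_ne (ψ.nonneg _ _) (Ne.symm hc)
          obtain ⟨b1, b2, -⟩ := ray_of_pos hT hab hpos
          have hle := hmax a b hab hb hpos
          rw [← hj] at hle
          rcases Nat.lt_or_eq_of_le hle with h3 | h3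
          · apply h1
            have h4 := ray_back hT a1 (fun i hi => (a3 i hi).1) (j - T.dist o a - 1) (T.dist o a) (by omega)
            rw [b1, b2] at h4
            exact h4
          · rw [h3] at b1 b2
            exact he ⟨b1.symm.trans a1, b2.symm.trans a2⟩
        rw [h5, pt_zero h1, pt_zero h2, mul_zero, mul_zero, add_zero]
  by_cases hab : T.Adj a b
  · rcases up_or hT o hab with h1 | h1
    · exact main a b h1 hb
    · have h2 := main b a h1 ha
      have h3 := ψ.add hab
      have h4 := pt_add hT u hab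
      have h5 := pt_add hT w hab
      linear_combination h3 - h2 - (1 - ψ u w) * h4 - ψ u w * h5
  · rw [ψ.off hab, pt_off u hab, pt_off w hab, mul_zero, mul_zero, add_zero]

/-- Proof. For `w ∈ Y` let `pt w : Y → Y → ℝ` be the vertex `w`: `pt w u v = 1` if `Up T w v u` (`v` is nearer to `w`), else
`0`. The set is the union of the segments `[pt u, pt w]` for `Up T o u w`, `w ∈ Y`, and of `{pt o}`.
Every point of the segment `[pt u, pt w]` comes from a point of `Th T`: `(1 - t) pt_u + t pt_w` on all darts of `T` satisfies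
`IsPos` (the darts `(u, w)`, `(w, u)` have the values `t`, `1 - t`, all other darts have the same value for `u` and `w`,
`up_change`). Conversely let `ψ : Th T`. If `ψ u w = 0` for all `w ∈ Y` with `Up T o u w` then `ψ` restricts to `pt o`.
Otherwise take such a pair with `ψ u w > 0` and `dist o u` maximal: `ψ` restricts to `(1 - ψ u w) pt u + ψ u w pt w`: for an
edge `{a, b}` of `Y`, `Up T o a b`, other than `{u, w}`: if `ψ a b > 0` then by `ray_of_pos` it is before `u` on the path to
`u` and `ψ a b = 1`, and conversely if `a`, `b` are on the path from `o` to `u` then `ψ a b = 1`. -/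
theorem isPolyhedron_res (hT : T.IsTree) {o : V} {Y : Set V} (hY : Cvx T o Y) :
    IsPolyhedron 1 {f : Y → Y → ℝ | ∃ ψ : Th T, ∀ u v : Y, f u v = ψ u v} := by
  classical
  refine ⟨(fun p : V × V => ({ptr T Y p.1, ptr T Y p.2} : Set (Y → Y → ℝ))) '' Dr T o Y ∪ {{ptr T Y o}}, ?_, ?_, ?_⟩
  · exact ((dr_finite hT o hY.fin).image _).union (Set.finite_singleton _)
  · ext f
    simp only [Set.mem_ofPred_eq, Set.mem_iUnion, exists_prop]
    constructor
    · rintro ⟨ψ, hψ⟩
      by_cases hne : ∃ p : V × V, p ∈ Dr T o Y ∧ 0 < ψ p.1 p.2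
      · obtain ⟨P, hP⟩ : ∃ P : Finset (V × V), P = (dr_finite hT o hY.fin).toFinset.filter (fun p => 0 < ψ p.1 p.2) :=
          ⟨_, rfl⟩
        have hPm : ∀ p, p ∈ P ↔ p ∈ Dr T o Y ∧ 0 < ψ p.1 p.2 := by
          intro p
          rw [hP, Finset.mem_filter, Set.Finite.mem_toFinset]
        obtain ⟨q, hq⟩ := hne
        obtain ⟨p, hp, hmax⟩ := P.exists_max_image (fun p => T.dist o p.1) ⟨q, (hPm q).2 hq⟩
        obtain ⟨⟨c1, c2⟩, c3⟩ := (hPm p).1 hp
        refine ⟨{ptr T Y p.1, ptr T Y p.2}, Or.inl ⟨p, ⟨c1, c2⟩, rfl⟩, ?_⟩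
        rw [convexHull_pair]
        refine ⟨1 - ψ p.1 p.2, ψ p.1 p.2, by linarith [ψ.le_one p.1 p.2], c3.le, by ring, ?_⟩
        funext u v
        rw [hψ u v, eq_mix hT c1 c3 (fun a b hab hb hpos => hmax (a, b) ((hPm (a, b)).2 ⟨⟨hab, hb⟩, hpos⟩)) u.2 v.2]
        rfl
      · refine ⟨{ptr T Y o}, Or.inr rfl, ?_⟩
        rw [convexHull_singleton]
        show f = ptr T Y o
        funext u v
        rw [hψ u v]
        refine eq_pt hT (fun a b hab hb => ?_) u.2 v.2
        by_contra hc
        exact hne ⟨(a, b), ⟨hab, hb⟩, lt_of_le_of_ne (ψ.nonneg _ _) (Ne.symm hc)⟩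
    · rintro ⟨F, hF, hf⟩
      rcases hF with ⟨p, hp, rfl⟩ | hF
      · rw [convexHull_pair] at hf
        obtain ⟨s, t, hs, ht, hst, rfl⟩ := hf
        exact ⟨⟨_, isPos_mix hT hp.1.adj hs ht hst⟩, fun u v => rfl⟩
      · rw [Set.mem_singleton_iff] at hF
        rw [hF, convexHull_singleton] at hf
        have hf' : f = ptr T Y o := hf
        refine ⟨⟨_, isPos_pt hT o⟩, fun u v => ?_⟩
        rw [hf']
        rfl
  · rintro F (⟨p, hp, rfl⟩ | hF)
    · refine ⟨(Set.finite_singleton _).insert _, ?_⟩
      show Module.finrank ℝ (vectorSpan ℝ {ptr T Y p.1, ptr T Y p.2}) ≤ 1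
      rw [vectorSpan_pair_rev]
      exact (finrank_span_le_card ({ptr T Y p.2 -ᵥ ptr T Y p.1} : Set (Y → Y → ℝ))).trans (by simp)
    · rw [Set.mem_singleton_iff] at hF
      rw [hF]
      refine ⟨Set.finite_singleton _, ?_⟩
      rw [vectorSpan_singleton, finrank_bot]
      exact Nat.zero_le _

end Pool.Agent.H76.GT
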