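import Pool.Agent.H76.GU.Code
import Pool.Agent.H65.NT.Net

/-!
# H76 GU, RulZ: the rule of the net of boxes
-/

set_option autoImplicit false

namespace Pool.Agent.H76.GT

open Pool.Agent.H98.FJ Pool.Agent.H54.AX Pool.Agent.H65.NT

/-- the positions `p` (at distance at most `l` from the origin) such that no element of the group translates the box of
radius `r` at `p` by a nonzero vector of length at most `a` -/
def Dz (G : Type) [Group G] {n : ℕ} {V : Fin n → Type} [∀ k, MulAction G (V k)] (l r a : ℕ) (f : ∀ k, ℤ → V k) :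
    Set (Fin n → ℤ) :=
  {p | Near l p 0 ∧ ∀ v : Fin n → ℤ, v ≠ 0 → Near a v 0 → ∀ h : G,
    ¬ ∀ k (i : ℤ), |i| ≤ r → h • f k (p k + i) = f k (p k + i + v k)}

private theorem dz_smul {G : Type} [Group G] {n : ℕ} {V : Fin n → Type} [∀ k, MulAction G (V k)] (l r a : ℕ) (g : G)
    (f : ∀ k, ℤ → V k) : Dz G l r a (g • f) = Dz G l r a f := by
  ext p
  constructor
  · rintro ⟨h1, h2⟩
    refine ⟨h1, fun v hv hv' h hh => h2 v hv hv' (g * h * g⁻¹) fun k i hi => ?_⟩
    show (g * h * g⁻¹) • (g • f k (p k + i)) = g • f k (p k + i + v k)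
    rw [← hh k i hi, smul_smul, smul_smul, inv_mul_cancel_right]
  · rintro ⟨h1, h2⟩
    refine ⟨h1, fun v hv hv' h hh => h2 v hv hv' (g⁻¹ * h * g) fun k i hi => ?_⟩
    have h4 : h • (g • f k (p k + i)) = g • f k (p k + i + v k) := hh k i hi
    rw [mul_smul, mul_smul, h4, inv_smul_smul]

private theorem dz_shift {G : Type} [Group G] {n : ℕ} {V : Fin n → Type} [∀ k, MulAction G (V k)] {l r a : ℕ}
    {f f' : ∀ k, ℤ → V k} {x δ : Fin n → ℤ} (hl : Near l x 0) (hl' : Near l (x + δ) 0)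
    (h : ∀ k (i : ℤ), |i| ≤ (r : ℤ) + a → f' k (x k + i) = f k (x k + δ k + i)) :
    x ∈ Dz G l r a f' ↔ x + δ ∈ Dz G l r a f := by
  have key : ∀ v : Fin n → ℤ, Near a v 0 → ∀ g : G,
      ((∀ k (i : ℤ), |i| ≤ r → g • f' k (x k + i) = f' k (x k + i + v k)) ↔
        ∀ k (i : ℤ), |i| ≤ r → g • f k ((x + δ) k + i) = f k ((x + δ) k + i + v k)) := by
    intro v hv g
    have e : ∀ k (i : ℤ), |i| ≤ r → f' k (x k + i) = f k ((x + δ) k + i) ∧
        f' k (x k + i + v k) = f k ((x + δ) k + i + v k) := by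
      intro k i hi
      have hv1 : |v k| ≤ (a : ℤ) := by
        have := hv k
        rwa [Pi.zero_apply, sub_zero] at this
      refine ⟨h k i (hi.trans (by linarith [Int.natCast_nonneg a])), ?_⟩
      have h3 := h k (i + v k) ((abs_add_le i (v k)).trans (add_le_add hi hv1))
      rw [← add_assoc, ← add_assoc] at h3
      exact h3
    refine forall_congr' fun k => forall_congr' fun i => ?_
    constructor
    · intro h5 hi
      obtain ⟨e1, e2⟩ := e k i hi
      rw [← e1, ← e2]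
      exact h5 hi
    · intro h5 hi
      obtain ⟨e1, e2⟩ := e k i hi
      rw [e1, e2]
      exact h5 hi
  constructor
  · rintro ⟨-, h2⟩
    exact ⟨hl', fun v hv hv' g hg => h2 v hv hv' g ((key v hv' g).2 hg)⟩
  · rintro ⟨-, h2⟩
    exact ⟨hl, fun v hv hv' g hg => h2 v hv hv' g ((key v hv' g).1 hg)⟩

/-- a separated set of positions in a box of side `3 b` has at most `3 ^ n` elements -/
private theorem card_sep {n : ℕ} {b R : ℕ} (hb : b = 2 * R + 1) {Z : Set (Fin n → ℤ)}
    (hZ : ∀ z ∈ Z, ∀ z' ∈ Z, z ≠ z' → ¬ Near b z z') :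
    {z | z ∈ Z ∧ Near (b + R) z 0}.encard ≤ ((3 ^ n : ℕ) : ℕ∞) := by
  have hb0 : (0 : ℤ) < b := by
    rw [hb]
    push_cast
    linarith [Int.natCast_nonneg R]
  have hrange : ∀ z : Fin n → ℤ, Near (b + R) z 0 → ∀ k, 0 ≤ (z k + (b + R)) / (b : ℤ) ∧ (z k + (b + R)) / (b : ℤ) < 3 := by
    intro z hz k
    have h1 := hz k
    rw [Pi.zero_apply, sub_zero, abs_le] at h1
    push_cast at h1
    refine ⟨Int.ediv_nonneg (by linarith [h1.1]) hb0.le, ?_⟩
    rw [Int.ediv_lt_iff_lt_mul hb0]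
    have h2 : (b : ℤ) = 2 * R + 1 := by
      rw [hb]
      push_cast
      ring
    linarith [h1.2]
  have hinj : Set.InjOn (fun z : Fin n → ℤ => fun k => (((z k + (b + R)) / (b : ℤ)).toNat : ℕ))
      {z | z ∈ Z ∧ Near (b + R) z 0} := by
    rintro z ⟨hz, hz1⟩ z' ⟨hz', hz1'⟩ heq
    by_contra hne
    refine hZ z hz z' hz' hne fun k => ?_
    have h1 : ((z k + (b + R)) / (b : ℤ)).toNat = ((z' k + (b + R)) / (b : ℤ)).toNat := congrFun heq k
    have h2 : (z k + (b + R)) / (b : ℤ) = (z' k + (b + R)) / (b : ℤ) := by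
      have h3 := Int.toNat_of_nonneg (hrange z hz1 k).1
      have h4 := Int.toNat_of_nonneg (hrange z' hz1' k).1
      rw [← h3, ← h4, h1]
    have h5 := Int.emod_add_mul_ediv (z k + (b + R)) (b : ℤ)
    have h6 := Int.emod_add_mul_ediv (z' k + (b + R)) (b : ℤ)
    have h7 := Int.emod_nonneg (z k + (b + R)) hb0.ne'
    have h8 := Int.emod_lt_of_pos (z k + (b + R)) hb0
    have h9 := Int.emod_nonneg (z' k + (b + R)) hb0.ne'
    have h10 := Int.emod_lt_of_pos (z' k + (b + R)) hb0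
    rw [h2] at h5
    rw [abs_le]
    constructor <;> linarith
  have hmaps : Set.MapsTo (fun z : Fin n → ℤ => fun k => (((z k + (b + R)) / (b : ℤ)).toNat : ℕ))
      {z | z ∈ Z ∧ Near (b + R) z 0} ((Fintype.piFinset fun _ : Fin n => Finset.range 3 : Finset (Fin n → ℕ)) : Set (Fin n → ℕ)) := by
    rintro z ⟨-, hz1⟩
    rw [Finset.mem_coe, Fintype.mem_piFinset]
    intro k
    rw [Finset.mem_range]
    have h1 := hrange z hz1 k
    have h2 := Int.toNat_of_nonneg h1.1
    have h3 : ((((z k + (b + R)) / (b : ℤ)).toNat : ℕ) : ℤ) < 3 := by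
      rw [h2]
      exact h1.2
    exact_mod_cast h3
  calc {z | z ∈ Z ∧ Near (b + R) z 0}.encard
      ≤ ((Fintype.piFinset fun _ : Fin n => Finset.range 3 : Finset (Fin n → ℕ)) : Set (Fin n → ℕ)).encard :=
        Set.encard_le_encard_of_injOn hmaps hinj
    _ = ((3 ^ n : ℕ) : ℕ∞) := by
        rw [Set.encard_coe_eq_coe_finsetCard, Fintype.card_piFinset_const, Finset.card_range]

/-- The rule. Here `r` is the radius of the boxes, `R` the bound for the shifts.
Proof. Put `b = 2 R + 1`, `a = 4 b`. Let `C' = E n (2 r + 1)`, `net n b C' 4` gives `L0`; let `c0` be the maximum of `L0` and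
`4 (b + 2 R) + 4 (a + r + R) + ...` (a large constant). For `c ≥ c0`: `ρ` with `4 ρ ≤ c` and the rule `rule`; `l = ρ + b + 2 R`;
`code` from `exists_code`; `D f = Dz G l r a f`, label `lab f p = code (bx r p f)`, `Z f = rule (D f) (lab f)`,
`Q f B : ∃ z ∈ Z f, Near (b + R) z 0 ∧ bx r z f = B`.
(labels) for `p ∈ D f`, `v ≠ 0`, `Near b v 0`: if the labels of `p`, `p + v` are equal, then, since both boxes have a translate
in `Y` (for `f` flat and positions at most `c`), `g • bx r p f = bx r (p + v) f` for some `g`, so `g` translates, contradiction.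
So for flat `f` the set `Z f` is `b`-separated and maximal in `D f`.
(loc, shifts) `net` locality: if `Shf (c - R) δ f f'`, `|δ| ≤ R` then for `Near (b + R) z 0`: `z ∈ Z f ↔ z - δ ∈ Z f'` when also
`Near (b + R) (z - δ) 0`: `D` and `lab` agree at all `x` with `Near ρ x z`. For `loc` take `δ = 0`.
(eq) `bx r z f = B`, `bx r z' f = g • B`: if `z ≠ z'` then `g` translates the box at `z` by `z' - z`, which is nonzero of length
at most `2 (b + R) ≤ a`. So `z = z'` and `g • B = B`. (stab) `n > 0`: the stabiliser of `B` fixes a vertex. (mult) the number of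
`z ∈ Z f` with `Near (b + R) z 0` is at most `3 ^ n` because `Z f` is `b`-separated and `2 (b + R) + 1 = 3 b`.
(last clause) `0 ∈ D f`, so there is `z ∈ Z f` with `Near b z 0`; take `B = bx r z f`; `z - δ ∈ Z f'`,
`bx r (z - δ) f' = bx r z f` (`bx_shf`). -/
theorem rul_net {C : (G : Type) → [Group G] → Prop} (hC : Inherits C) {G : Type} [Group G] {n : ℕ} (hn : 0 < n)
    {V : Fin n → Type} [∀ k, MulAction G (V k)] (T : ∀ k, SimpleGraph (V k))
    (hst : ∀ k (x : V k), C (MulAction.stabilizer G x)) (R E r : ℕ) :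
    ∃ c0 : ℕ, ∀ c, c0 ≤ c → ∀ Y : ∀ k, Set (V k), (∀ k, (Y k).Finite) → (∀ k, (Y k).ncard ≤ E ^ c) →
      ∃ Q : (∀ k, ℤ → V k) → Bx V r → Prop, Rul C (G := G) T c Y (3 ^ n) Q ∧
        ∀ f, Fla G T c Y f → (0 : Fin n → ℤ) ∈ Dz G 0 r (4 * (2 * R + 1)) f →
          ∃ B, ∀ f' (δ : Fin n → ℤ), (∀ k, |δ k| ≤ R) → Fla G T c Y f' → Shf ((c : ℤ) - R) δ f f' → Q f' B := by
  obtain ⟨b, hb⟩ : ∃ b : ℕ, b = 2 * R + 1 := ⟨_, rfl⟩
  obtain ⟨a, ha⟩ : ∃ a : ℕ, a = 4 * (2 * R + 1) := ⟨_, rfl⟩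
  rw [← ha]
  obtain ⟨L0, hL0⟩ := net n b (E * n * (2 * r + 1)) 4
  refine ⟨max L0 (2 * (2 * b + 3 * R + r + a)), fun c hc Y hY hE => ?_⟩
  obtain ⟨ρ, hρ, rule, hsub, hnet, hloc⟩ := hL0 c ((le_max_left _ _).trans hc)
  have hc2 : 2 * (2 * b + 3 * R + r + a) ≤ c := (le_max_right _ _).trans hc
  obtain ⟨code, hcode, hcode'⟩ := exists_code (G := G) r E c hY hE
  obtain ⟨l, hl⟩ : ∃ l : ℕ, l = ρ + b + 2 * R := ⟨_, rfl⟩
  obtain ⟨Z, hZ⟩ : ∃ Z : (∀ k, ℤ → V k) → Set (Fin n → ℤ),
      ∀ f, Z f = rule (Dz G l r a f) (fun p => code (bx r p f)) := ⟨_, fun _ => rfl⟩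
  have hsz : ρ + 2 * b + 3 * R + r + a ≤ c := by omega
  -- locality
  have key : ∀ (m : ℤ) (f f' : ∀ k, ℤ → V k) (δ z : Fin n → ℤ), Shf m δ f f' → (∀ k, |δ k| ≤ R) → Near (b + R) z 0 →
      ((ρ + b + R + r + a : ℕ) : ℤ) ≤ m → (z ∈ Z f' ↔ z + δ ∈ Z f) := by
    intro m f f' δ z hs hδ hz hm
    push_cast at hm
    rw [hZ, hZ]
    apply hloc
    intro x hx
    have hx1 : ∀ k, |x k| ≤ (ρ : ℤ) + b + R := by
      intro k
      have h1 := (hx.trans hz) k
      rw [Pi.zero_apply, sub_zero] at h1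
      push_cast at h1
      linarith
    have hx2 : Near l x 0 := by
      intro k
      rw [Pi.zero_apply, sub_zero, hl]
      push_cast
      linarith [hx1 k, Int.natCast_nonneg R]
    have hx3 : Near l (x + δ) 0 := by
      intro k
      rw [Pi.zero_apply, sub_zero, Pi.add_apply, hl]
      push_cast
      linarith [hx1 k, hδ k, abs_add_le (x k) (δ k)]
    refine ⟨dz_shift hx2 hx3 fun k i hi => ?_, ?_⟩
    · have h1 : |x k + i| ≤ m := (abs_add_le _ _).trans (by linarith [hx1 k])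
      rw [hs k _ h1]
      congr 1
      ring
    · show code (bx r x f') = code (bx r (x + δ) f)
      rw [bx_shf hs x fun k => by linarith [hx1 k, Int.natCast_nonneg a]]
  -- the boxes have translates in `Y`
  have hbox : ∀ f, Fla G T c Y f → ∀ p : Fin n → ℤ, (∀ k, |p k| + r ≤ c) → ∃ g : G, ∀ k i, g • bx r p f k i ∈ Y k := by
    intro f hf p hp
    obtain ⟨g, hg⟩ := hf.mem
    refine ⟨g, fun k i => hg k _ ?_⟩
    have h1 := hp k
    have h2 : ((i : ℕ) : ℤ) < 2 * r + 1 := by exact_mod_cast i.2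
    have h3 : (0 : ℤ) ≤ ((i : ℕ) : ℤ) := Int.natCast_nonneg _
    have h4 : |-(r : ℤ) + ((i : ℕ) : ℤ)| ≤ r := by
      rw [abs_le]
      constructor <;> linarith
    have h5 : p k - r + ((i : ℕ) : ℤ) = p k + (-(r : ℤ) + ((i : ℕ) : ℤ)) := by ring
    rw [h5]
    exact (abs_add_le _ _).trans (by linarith)
  -- the labels are proper
  have hlab : ∀ f, Fla G T c Y f → ∀ p ∈ Dz G l r a f, ∀ v, v ≠ 0 → Near b v 0 →
      (fun p => code (bx r p f)) p ≠ (fun p => code (bx r p f)) (p + v) := by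
    intro f hf p hp v hv0 hv heq
    obtain ⟨hp1, hp2⟩ := hp
    have hp1' : ∀ k, |p k| ≤ (l : ℤ) := by
      intro k
      have := hp1 k
      rwa [Pi.zero_apply, sub_zero] at this
    have hv' : ∀ k, |v k| ≤ (b : ℤ) := by
      intro k
      have := hv k
      rwa [Pi.zero_apply, sub_zero] at this
    have hlz : (l : ℤ) = ρ + b + 2 * R := by
      rw [hl]
      push_cast
      ring
    have hszz : (ρ : ℤ) + 2 * b + 3 * R + r + a ≤ c := by exact_mod_cast hsz
    have hR0 := Int.natCast_nonneg R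
    have hb0 := Int.natCast_nonneg b
    have ha0 := Int.natCast_nonneg a
    obtain ⟨g, hg⟩ := hcode' _ _ (hbox f hf p fun k => by linarith [hp1' k])
      (hbox f hf (p + v) fun k => by
        rw [Pi.add_apply]
        linarith [hp1' k, hv' k, abs_add_le (p k) (v k)]) heq
    refine hp2 v hv0 (hv.mono (by omega)) g fun k i hi => ?_
    have h1 := bx_smul_eq hg k i hi
    rw [h1, Pi.add_apply]
    congr 1
    ring
  refine ⟨fun f B => ∃ z ∈ Z f, Near (b + R) z 0 ∧ bx r z f = B, ⟨?_, ?_, ?_, ?_, ?_⟩, ?_⟩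
  · -- loc
    rintro f f' hff B ⟨z, hz, hz1, rfl⟩
    have hs : Shf (c : ℤ) 0 f f' := by
      intro k i hi
      rw [Pi.zero_apply, add_zero]
      exact (hff k i hi).symm
    have hszz : ((ρ + b + R + r + a : ℕ) : ℤ) ≤ (c : ℤ) := by
      have : ρ + b + R + r + a ≤ c := by omega
      exact_mod_cast this
    refine ⟨z, ?_, hz1, ?_⟩
    · rw [key c f f' 0 z hs (fun k => by rw [Pi.zero_apply, abs_zero]; exact Int.natCast_nonneg _) hz1 hszz, add_zero]
      exact hz
    · rw [bx_shf hs z, add_zero]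
      intro k
      have h1 := hz1 k
      rw [Pi.zero_apply, sub_zero] at h1
      push_cast at h1 hszz
      linarith [Int.natCast_nonneg ρ, Int.natCast_nonneg a]
  · -- equiv
    rintro g f B ⟨z, hz, hz1, rfl⟩
    refine ⟨z, ?_, hz1, rfl⟩
    rw [hZ, dz_smul]
    have h1 : (fun p => code (bx r p (g • f))) = fun p => code (bx r p f) := by
      funext p
      rw [bx_smul, hcode]
    rw [h1, ← hZ]
    exact hz
  · -- eq
    rintro g f B - ⟨z, hz, hz1, rfl⟩ ⟨z', hz', hz1', h2⟩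
    by_cases hzz : z = z'
    · rw [← h2, hzz]
    · exfalso
      rw [hZ] at hz
      obtain ⟨-, h3⟩ := hsub _ _ hz
      refine h3 (z' - z) (sub_ne_zero.2 (Ne.symm hzz)) ?_ g fun k i hi => ?_
      · intro k
        rw [Pi.zero_apply, sub_zero, Pi.sub_apply]
        have h4 := hz1 k
        have h5 := hz1' k
        rw [Pi.zero_apply, sub_zero] at h4 h5
        push_cast at h4 h5
        have h6 : ((a : ℕ) : ℤ) = 4 * b := by
          rw [ha, hb]
          push_cast
          ring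
        have h7 : ((b : ℕ) : ℤ) = 2 * R + 1 := by
          rw [hb]
          push_cast
          ring
        have h8 := abs_sub (z' k) (z k)
        rw [h6]
        linarith [Int.natCast_nonneg R]
      · have h4 := bx_smul_eq h2.symm k i hi
        rw [h4, Pi.sub_apply]
        congr 1
        ring
  · -- stab
    rintro f B - -
    have h1 : MulAction.stabilizer G B ≤ MulAction.stabilizer G (B ⟨0, hn⟩ 0) := by
      intro g hg
      have h2 : g • B = B := hg
      show g • B ⟨0, hn⟩ 0 = B ⟨0, hn⟩ 0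
      exact congrFun (congrFun h2 ⟨0, hn⟩) 0
    exact hC.iso _ _ (Subgroup.subgroupOfEquivOfLe h1)
      (hC.sub _ ((MulAction.stabilizer G B).subgroupOf (MulAction.stabilizer G (B ⟨0, hn⟩ 0))) (hst _ _))
  · -- mult
    intro f hf
    have h1 : {B : Bx V r | ∃ z ∈ Z f, Near (b + R) z 0 ∧ bx r z f = B} ⊆
        (fun z => bx r z f) '' {z | z ∈ Z f ∧ Near (b + R) z 0} := by
      rintro B ⟨z, hz, hz1, rfl⟩
      exact ⟨z, ⟨hz, hz1⟩, rfl⟩
    refine (Set.encard_le_encard h1).trans ((Set.encard_image_le _ _).trans ?_)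
    refine card_sep hb ?_
    rw [hZ]
    exact (hnet _ _ (hlab f hf)).1
  · -- the last clause
    intro f hf h0
    have h0' : (0 : Fin n → ℤ) ∈ Dz G l r a f := ⟨Near.refl _ _, h0.2⟩
    obtain ⟨z, hz, hz1⟩ := (hnet _ _ (hlab f hf)).2 0 h0'
    rw [← hZ] at hz
    refine ⟨bx r z f, fun f' δ hδ _ hs => ?_⟩
    have hszz : (ρ : ℤ) + 2 * b + 3 * R + r + a ≤ c := by exact_mod_cast hsz
    have hR0 := Int.natCast_nonneg R
    have hb0 := Int.natCast_nonneg b
    have ha0 := Int.natCast_nonneg a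
    have hρ0 := Int.natCast_nonneg ρ
    have hzδ : ∀ k, |(z - δ) k| ≤ (b : ℤ) + R := by
      intro k
      rw [Pi.sub_apply]
      have h4 := hz1 k
      rw [Pi.zero_apply, sub_zero] at h4
      linarith [abs_sub (z k) (δ k), hδ k]
    have hz2 : Near (b + R) (z - δ) 0 := by
      intro k
      rw [Pi.zero_apply, sub_zero]
      push_cast
      exact hzδ k
    refine ⟨z - δ, ?_, hz2, ?_⟩
    · rw [key _ f f' δ (z - δ) hs hδ hz2 (by push_cast; linarith), sub_add_cancel]
      exact hz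
    · rw [bx_shf hs (z - δ) fun k => by linarith [hzδ k], sub_add_cancel]

end Pool.Agent.H76.GT
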