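import Pool.Agent.H76.GU.RulZ

/-!
# H76 GU, Sm: the rules for long paths
-/

set_option autoImplicit false

namespace Pool.Agent.H76.GT

open Pool.Agent.H98.FJ Pool.Agent.H54.AX Pool.Agent.H65.NT

/-- Proof. `LocRig` for `R` and `a = 4 (2 R + 1)` gives `r` and the objects; the rules are `rul_obj` for `t < q` (`N = 1`) and
`rul_net` for the radius `r + R` (`N = 3 ^ n`). Let `f` be flat (`c ≥ r + R + a`). If the first alternative of `LocRig` holds for
`f`: for the object `t`, `o` and `f'`: `bx r 0 f' = bx r δ f` (`bx_shf`). Otherwise `0 ∈ Dz G 0 (r + R) a f`, `rul_net`. -/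
theorem small_rules {C : (G : Type) → [Group G] → Prop} (hC : Inherits C) {G : Type} [Group G] {n : ℕ} (hn : 0 < n)
    {V : Fin n → Type} [∀ k, MulAction G (V k)] (T : ∀ k, SimpleGraph (V k))
    (hst : ∀ k (x : V k), C (MulAction.stabilizer G x)) {q : ℕ} (hR : LocRig C (G := G) T q) (R E : ℕ) :
    ∃ c0 : ℕ, ∀ c, c0 ≤ c → ∀ Y : ∀ k, Set (V k), (∀ k, (Y k).Finite) → (∀ k, (Y k).ncard ≤ E ^ c) →
      ∃ Φ : Option (Fin q) → RulB G V, (∀ t, @Rul C G _ n V _ T c Y (Φ t).N (Φ t).I (Φ t).act (Φ t).Q) ∧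
        ∑ t, (Φ t).N = q + 3 ^ n ∧
        ∀ f, Fla G T c Y f → ∃ t x, ∀ (f' : ∀ k, ℤ → V k) (δ : Fin n → ℤ), (∀ k, |δ k| ≤ (R : ℤ)) → Fla G T c Y f' → Shf ((c : ℤ) - R) δ f f' →
          (Φ t).Q f' x := by
  obtain ⟨r, Ω, act, Obj, h1, h2, h3, h4⟩ := hR R (4 * (2 * R + 1))
  obtain ⟨c1, hc1⟩ := rul_net (C := C) hC hn T hst R E (r + R)
  refine ⟨max c1 (r + R + 4 * (2 * R + 1)), fun c hc Y hY hE => ?_⟩
  have hcc1 : c1 ≤ c := (le_max_left _ _).trans hc
  have hcc2 : r + R + 4 * (2 * R + 1) ≤ c := (le_max_right _ _).trans hc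
  obtain ⟨Q, hQ, hQ2⟩ := hc1 c hcc1 Y hY hE
  obtain ⟨Φ, hn0, hs0⟩ : ∃ Φ : Option (Fin q) → RulB G V, Φ none = ⟨Bx V (r + R), inferInstance, Q, 3 ^ n⟩ ∧
      ∀ t, Φ (some t) = ⟨Ω t, act t, fun f o => Obj t (bx r 0 f) o, 1⟩ :=
    ⟨fun t => Option.rec (motive := fun _ => RulB G V) ⟨Bx V (r + R), inferInstance, Q, 3 ^ n⟩
      (fun t => ⟨Ω t, act t, fun f o => Obj t (bx r 0 f) o, 1⟩) t, rfl, fun _ => rfl⟩
  refine ⟨Φ, ?_, ?_, ?_⟩
  · rintro (_ | t)
    · rw [hn0]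
      exact hQ
    · rw [hs0]
      let _ := act t
      exact rul_obj (C := C) T Y (by omega) (h1 t) (h2 t) (h3 t)
  · rw [Fintype.sum_option, hn0]
    have e : ∀ t, (Φ (some t)).N = 1 := fun t => by rw [hs0]
    rw [Finset.sum_congr rfl fun t _ => e t, Finset.sum_const, Finset.card_univ, Fintype.card_fin, smul_eq_mul, mul_one]
    exact add_comm _ _
  · intro f hf
    have hgeo : Geo T (r + R + 4 * (2 * R + 1)) f := by
      intro k i j hi hj
      have h5 : ((r + R + 4 * (2 * R + 1) : ℕ) : ℤ) ≤ c := by exact_mod_cast hcc2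
      exact hf.geo k i j (hi.trans h5) (hj.trans h5)
    rcases h4 f hgeo with ⟨t, o, ho⟩ | h5
    · refine ⟨some t, ?_⟩
      rw [hs0]
      refine ⟨o, fun f' δ hδ _ hs => ?_⟩
      show Obj t (bx r 0 f') o
      rw [bx_shf hs 0 (fun k => ?_), zero_add]
      · exact ho δ hδ
      · have h6 : ((r + R + 4 * (2 * R + 1) : ℕ) : ℤ) ≤ c := by exact_mod_cast hcc2
        push_cast at h6
        rw [Pi.zero_apply, abs_zero, zero_add]
        linarith
    · obtain ⟨B, hB⟩ := hQ2 f hf (by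
        refine ⟨Near.refl _ _, fun v hv hva h hcon => h5 v hv (fun k => ?_) h (fun k i hi => ?_)⟩
        · have h6 := hva k
          rwa [Pi.zero_apply, sub_zero] at h6
        · have h6 := hcon k i hi
          rwa [Pi.zero_apply, zero_add] at h6)
      refine ⟨none, ?_⟩
      rw [hn0]
      exact ⟨B, hB⟩

end Pool.Agent.H76.GT
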